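import Pool.Agent.Helper19.Germ.Exact

/-! Local derivative bounds, restriction to an interval, scaled perfectness. -/

open Filter Topology Set

namespace Pool.Agent.Germ

/-- `DB V n b f`: on the set `V`, `|f^(i)| ≤ b i` for `i ≤ n`, `f^(i)` differentiable for `i<n`. -/
def DB (V : Set ℝ) : ℕ → (ℕ → ℝ) → (ℝ → ℝ) → Prop
  | 0, b, f => ∀ x ∈ V, |f x| ≤ b 0
  | n + 1, b, f => (∀ x ∈ V, |f x| ≤ b 0) ∧ (∀ x ∈ V, DifferentiableAt ℝ f x) ∧
      DB V n (fun i => b (i + 1)) (deriv f)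

theorem DB.mono {V W : Set ℝ} (hVW : W ⊆ V) {n : ℕ} {b b' : ℕ → ℝ} {f : ℝ → ℝ}
    (hb : ∀ i ≤ n, b i ≤ b' i) (h : DB V n b f) : DB W n b' f := by
  induction n generalizing b b' f with
  | zero => exact fun x hx => (h x (hVW hx)).trans (hb 0 le_rfl)
  | succ n ih =>
    exact ⟨fun x hx => (h.1 x (hVW hx)).trans (hb 0 (by omega)), fun x hx => h.2.1 x (hVW hx),
      ih (fun i hi => hb (i + 1) (by omega)) h.2.2⟩

theorem SC.toDB {n : ℕ} {m C : ℝ} (hm : m ≤ 0) (hC : 0 ≤ C) {f : ℝ → ℝ} (h : SC n m C f) :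
    ∃ U, 0 < U ∧ ∀ α ≥ U, DB (Ioi α) n (fun i => C * α ^ (m - i)) f := by
  have base : ∀ {m : ℝ} {f : ℝ → ℝ}, m ≤ 0 → (∀ᶠ u in atTop, |f u| ≤ C * u ^ m) →
      ∃ U, 0 < U ∧ ∀ α ≥ U, ∀ x ∈ Ioi α, |f x| ≤ C * α ^ m := by
    intro m f hm hf
    obtain ⟨U, hU⟩ := eventually_atTop.1 hf
    refine ⟨max U 1, by positivity, fun α hα x hx => ?_⟩
    have h1 : U ≤ α := (le_max_left _ _).trans hα
    have h2 : 1 ≤ α := (le_max_right _ _).trans hα
    refine (hU x (h1.trans (le_of_lt hx))).trans (mul_le_mul_of_nonneg_left ?_ hC)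
    exact Real.rpow_le_rpow_of_nonpos (by linarith) (le_of_lt hx) hm
  induction n generalizing m f with
  | zero =>
    obtain ⟨U, hU0, hU⟩ := base hm h
    refine ⟨U, hU0, fun α hα x hx => ?_⟩
    have := hU α hα x hx
    simpa using this
  | succ n ih =>
    obtain ⟨U1, h1, hU1⟩ := base hm h.1
    obtain ⟨U2, h2, hU2⟩ := ih (by linarith) h.2.2
    obtain ⟨U3, hU3⟩ := eventually_atTop.1 h.2.1
    refine ⟨max U1 (max U2 U3), by positivity, fun α hα => ⟨fun x hx => ?_, fun x hx => ?_, ?_⟩⟩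
    · have := hU1 α ((le_max_left _ _).trans hα) x hx
      simpa using this
    · exact hU3 x (((le_max_right _ _).trans ((le_max_right _ _).trans hα)).trans (le_of_lt hx))
    · refine (hU2 α ((le_max_left _ _).trans ((le_max_right _ _).trans hα))).mono Subset.rfl ?_
      intro i _
      push_cast
      rw [show m - 1 - (i : ℝ) = m - (i + 1) by ring]

/-- gluing local bounds with zero -/
theorem DB.glob {V W : Set ℝ} (hV : IsOpen V) (hW : IsOpen W) (hVW : V ∪ W = univ) {n : ℕ}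
    {b : ℕ → ℝ} (hb : ∀ i, 0 ≤ b i) {g F : ℝ → ℝ} (hg : DB V n b g) (h1 : ∀ x ∈ V, F x = g x)
    (h2 : ∀ x ∈ W, F x = 0) : DB univ n b F := by
  induction n generalizing b g F with
  | zero =>
    intro x _
    rcases (hVW.symm ▸ mem_univ x : x ∈ V ∪ W) with hx | hx
    · rw [h1 x hx]; exact hg x hx
    · rw [h2 x hx, abs_zero]; exact hb 0
  | succ n ih =>
    have e1 : ∀ x ∈ V, F =ᶠ[𝓝 x] g := fun x hx => by
      filter_upwards [hV.mem_nhds hx] with y hy using h1 y hy
    have e2 : ∀ x ∈ W, F =ᶠ[𝓝 x] fun _ => (0 : ℝ) := fun x hx => by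
      filter_upwards [hW.mem_nhds hx] with y hy using h2 y hy
    refine ⟨?_, ?_, ih (fun i => hb (i + 1)) hg.2.2 (fun x hx => (e1 x hx).deriv_eq)
      (fun x hx => by rw [(e2 x hx).deriv_eq]; simp)⟩
    · intro x _
      rcases (hVW.symm ▸ mem_univ x : x ∈ V ∪ W) with hx | hx
      · rw [h1 x hx]; exact hg.1 x hx
      · rw [h2 x hx, abs_zero]; exact hb 0
    · intro x _
      rcases (hVW.symm ▸ mem_univ x : x ∈ V ∪ W) with hx | hx
      · exact ((e1 x hx).differentiableAt_iff).2 (hg.2.1 x hx)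
      · exact ((e2 x hx).differentiableAt_iff).2 (differentiableAt_const _)

/-- scaling -/
theorem DB.scale {n : ℕ} {b : ℕ → ℝ} {F : ℝ → ℝ} (h : DB univ n b F) (c α L e : ℝ)
    (hb : ∀ i ≤ n, |c| * |L| ^ i * b i ≤ e) : CB n e (fun x => c * F (α + L * x)) := by
  induction n generalizing b F c with
  | zero =>
    intro x
    have := hb 0 le_rfl
    rw [pow_zero, mul_one] at this
    rw [abs_mul]
    exact (mul_le_mul_of_nonneg_left (h _ (mem_univ _)) (abs_nonneg _)).trans this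
  | succ n ih =>
    have hd : ∀ x, HasDerivAt (fun x => c * F (α + L * x)) (c * L * deriv F (α + L * x)) x := by
      intro x
      have h1 : HasDerivAt (fun x : ℝ => α + L * x) L x := by
        simpa using ((hasDerivAt_id x).const_mul L).const_add α
      have h2 : HasDerivAt (fun x => c * F (α + L * x)) (c * (deriv F (α + L * x) * L)) x :=
        ((h.2.1 (α + L * x) (mem_univ _)).hasDerivAt.comp x h1).const_mul c
      rwa [show c * L * deriv F (α + L * x) = c * (deriv F (α + L * x) * L) by ring]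
    refine ⟨?_, fun x => (hd x).differentiableAt, ?_⟩
    · intro x
      have := hb 0 (by omega)
      rw [pow_zero, mul_one] at this
      rw [abs_mul]
      exact (mul_le_mul_of_nonneg_left (h.1 _ (mem_univ _)) (abs_nonneg _)).trans this
    · have : deriv (fun x => c * F (α + L * x)) = fun x => (c * L) * deriv F (α + L * x) :=
        funext fun x => (hd x).deriv
      rw [this]
      refine ih h.2.2 (c * L) ?_
      intro i hi
      refine le_trans (le_of_eq ?_) (hb (i + 1) (by omega))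
      rw [abs_mul, pow_succ]; ring

/-- restriction of an increasing permutation to an interval -/
theorem exists_restrict (h : Equiv.Perm ℝ) (hm : StrictMono h) {α ω δ : ℝ}
    (hδ : 0 < δ) (hl : ∀ u, α - δ < u → u < α → h u = u) (hr : ∀ u, ω < u → u < ω + δ → h u = u) :
    ∃ f : Equiv.Perm ℝ, SuppIn α ω f ∧ ∀ u, α - δ < u → u < ω + δ → f u = h u := by
  have hc : Continuous h := hm.monotone.continuous_of_surjective h.surjective
  have hα : h α = α := by
    have h1 : Tendsto h (𝓝[<] α) (𝓝 (h α)) := hc.continuousWithinAt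
    have h2 : Tendsto h (𝓝[<] α) (𝓝 α) := by
      refine (tendsto_id.mono_left nhdsWithin_le_nhds).congr' ?_
      filter_upwards [Ioo_mem_nhdsLT (show α - δ < α by linarith)] with u hu
      exact (hl u hu.1 hu.2).symm
    exact tendsto_nhds_unique h1 h2
  have hω : h ω = ω := by
    have h1 : Tendsto h (𝓝[>] ω) (𝓝 (h ω)) := hc.continuousWithinAt
    have h2 : Tendsto h (𝓝[>] ω) (𝓝 ω) := by
      refine (tendsto_id.mono_left nhdsWithin_le_nhds).congr' ?_
      filter_upwards [Ioo_mem_nhdsGT (show ω < ω + δ by linarith)] with u hu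
      exact (hr u hu.1 hu.2).symm
    exact tendsto_nhds_unique h1 h2
  classical
  have hmem : ∀ u, u ∈ Icc α ω ↔ h u ∈ Icc α ω := by
    intro u
    constructor
    · rintro ⟨h1, h2⟩
      exact ⟨hα ▸ hm.monotone h1, hω ▸ hm.monotone h2⟩
    · rintro ⟨h1, h2⟩
      rw [← hα] at h1
      rw [← hω] at h2
      exact ⟨hm.le_iff_le.1 h1, hm.le_iff_le.1 h2⟩
  have hmem' : ∀ u, u ∈ Icc α ω ↔ h⁻¹ u ∈ Icc α ω := by
    intro u
    rw [hmem (h⁻¹ u)]
    have : h (h⁻¹ u) = u := by rw [← Equiv.Perm.mul_apply, mul_inv_cancel]; rfl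
    rw [this]
  have hinv : ∀ u, h (h⁻¹ u) = u := fun u => by
    rw [← Equiv.Perm.mul_apply, mul_inv_cancel]; rfl
  have hinv' : ∀ u, h⁻¹ (h u) = u := fun u => by
    rw [← Equiv.Perm.mul_apply, inv_mul_cancel]; rfl
  let f : Equiv.Perm ℝ :=
    { toFun := fun u => if u ∈ Icc α ω then h u else u
      invFun := fun u => if u ∈ Icc α ω then h⁻¹ u else u
      left_inv := by
        intro u
        by_cases hu : u ∈ Icc α ω
        · simp only [if_pos hu, if_pos ((hmem u).1 hu)]; exact hinv' u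
        · simp only [if_neg hu]
      right_inv := by
        intro u
        by_cases hu : u ∈ Icc α ω
        · simp only [if_pos hu, if_pos ((hmem' u).1 hu)]; exact hinv u
        · simp only [if_neg hu] }
  have hf : ∀ u, f u = if u ∈ Icc α ω then h u else u := fun u => rfl
  refine ⟨f, ?_, ?_⟩
  · intro x hx
    rw [hf]
    split_ifs with h1
    · rcases hx with hx | hx
      · have : x = α := le_antisymm hx h1.1
        rw [this, hα]
      · have : x = ω := le_antisymm h1.2 hx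
        rw [this, hω]
    · rfl
  · intro u h1 h2
    rw [hf]
    split_ifs with h3
    · rfl
    · by_cases h4 : u < α
      · exact (hl u h1 h4).symm
      · exact (hr u (by
          by_contra h5
          exact h3 ⟨not_lt.1 h4, not_lt.1 h5⟩) h2).symm

/-- the statement of the perfectness lemma -/
def Perfect : Prop :=
  ∀ ρ : ℝ, 0 < ρ → ρ ≤ 1 → ∃ C η₀ : ℝ, 0 < η₀ ∧ 1 ≤ C ∧
    ∀ η, 0 < η → η ≤ η₀ → ∀ f : Equiv.Perm ℝ, SuppIn 0 1 f →
      CB 4 (η ^ 2) (fun x => f x - x) →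
    ∃ a c : Fin 3 → Equiv.Perm ℝ, (∀ i, SuppIn (-ρ) 4 (a i) ∧ SuppIn (-ρ) 4 (c i) ∧
      C2S (C * η) (a i) ∧ C2S (C * η) (c i)) ∧
      f = comm (a 0) (c 0) * comm (a 1) (c 1) * comm (a 2) (c 2)

/-- affine map `x ↦ α + L x` -/
noncomputable def affL (α L : ℝ) (hL : L ≠ 0) : Equiv.Perm ℝ :=
  (Equiv.mulLeft₀ L hL).trans (Equiv.addLeft α)

theorem affL_apply (α L : ℝ) (hL : L ≠ 0) (x : ℝ) : affL α L hL x = α + L * x := rfl

theorem affL_inv_apply (α L : ℝ) (hL : L ≠ 0) (x : ℝ) : (affL α L hL)⁻¹ x = (x - α) / L := by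
  rw [Equiv.Perm.inv_eq_iff_eq, affL_apply]; field_simp; ring

/-- size conditions after scaling -/
structure Sz (b0 b1 b2 : ℝ) (f : Equiv.Perm ℝ) : Prop where
  smooth : ContDiff ℝ 2 f
  bd : ∀ x, |f x - x| ≤ b0 ∧ |deriv f x - 1| ≤ b1 ∧ |deriv (deriv f) x| ≤ b2

theorem sz_affL {α L : ℝ} (hL : 0 < L) {e : ℝ} {g : Equiv.Perm ℝ} (hg : C2S e g) :
    Sz (L * e) e (e / L) (affL α L hL.ne' * g * (affL α L hL.ne')⁻¹) := by
  have hfun : ⇑(affL α L hL.ne' * g * (affL α L hL.ne')⁻¹) = fun x => α + L * g ((x - α) / L) := by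
    funext x
    rw [Equiv.Perm.mul_apply, Equiv.Perm.mul_apply, affL_inv_apply, affL_apply]
  have hlin : ContDiff ℝ 2 fun x : ℝ => (x - α) / L := (contDiff_id.sub contDiff_const).div_const L
  have hd1 : Differentiable ℝ g := hg.1.differentiable (by norm_num)
  have hd2 : Differentiable ℝ (deriv g) := by
    have : ContDiff ℝ (1 + 1) g := by norm_num; exact hg.1
    exact (contDiff_succ_iff_deriv.1 this).2.2.differentiable (by norm_num)
  have hl : ∀ x, HasDerivAt (fun x : ℝ => (x - α) / L) (1 / L) x := fun x => by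
    simpa using ((hasDerivAt_id x).sub_const α).div_const L
  have h1 : ∀ x, HasDerivAt (fun x => α + L * g ((x - α) / L)) (deriv g ((x - α) / L)) x := by
    intro x
    have h3 : HasDerivAt (fun x => α + L * g ((x - α) / L))
        (L * (deriv g ((x - α) / L) * (1 / L))) x :=
      (((hd1 ((x - α) / L)).hasDerivAt.comp x (hl x)).const_mul L).const_add α
    rwa [show L * (deriv g ((x - α) / L) * (1 / L)) = deriv g ((x - α) / L) by
      field_simp] at h3
  have h1' : deriv (fun x => α + L * g ((x - α) / L)) = fun x => deriv g ((x - α) / L) :=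
    funext fun x => (h1 x).deriv
  have h2 : ∀ x, HasDerivAt (fun x => deriv g ((x - α) / L))
      (deriv (deriv g) ((x - α) / L) / L) x := by
    intro x
    have h3 : HasDerivAt (fun x => deriv g ((x - α) / L))
        (deriv (deriv g) ((x - α) / L) * (1 / L)) x :=
      HasDerivAt.comp (h₂ := deriv g) (h₂' := deriv (deriv g) ((x - α) / L)) x
        (hd2 ((x - α) / L)).hasDerivAt (hl x)
    rwa [mul_one_div] at h3
  refine ⟨?_, fun x => ?_⟩
  · rw [hfun]
    exact contDiff_const.add (contDiff_const.mul (hg.1.comp hlin))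
  · obtain ⟨e0, e1, e2⟩ := hg.2 ((x - α) / L)
    rw [hfun, h1']
    refine ⟨?_, e1, ?_⟩
    · have : α + L * g ((x - α) / L) - x = L * (g ((x - α) / L) - (x - α) / L) := by
        field_simp; ring
      simp only
      rw [this, abs_mul, abs_of_pos hL]
      exact mul_le_mul_of_nonneg_left e0 hL.le
    · rw [(h2 x).deriv, abs_div, abs_of_pos hL]
      exact div_le_div_of_nonneg_right e2 hL.le

/-- perfectness on an interval of length `L` -/
theorem perfect_interval (hP : Perfect) (ρ : ℝ) (hρ : 0 < ρ) (hρ1 : ρ ≤ 1) :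
    ∃ C η₀ : ℝ, 0 < η₀ ∧ 1 ≤ C ∧ ∀ η, 0 < η → η ≤ η₀ → ∀ (α L : ℝ), 0 < L →
      ∀ f : Equiv.Perm ℝ, SuppIn α (α + L) f →
      DB univ 4 (fun i => η ^ 2 * L ^ (1 - (i : ℤ))) (fun x => f x - x) →
      ∃ a c : Fin 3 → Equiv.Perm ℝ,
        (∀ i, SuppIn (α - ρ * L) (α + 4 * L) (a i) ∧ SuppIn (α - ρ * L) (α + 4 * L) (c i) ∧
          Sz (L * (C * η)) (C * η) (C * η / L) (a i) ∧ Sz (L * (C * η)) (C * η) (C * η / L) (c i)) ∧
        f = comm (a 0) (c 0) * comm (a 1) (c 1) * comm (a 2) (c 2) := by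
  obtain ⟨C, η₀, hη0, hC, H⟩ := hP ρ hρ hρ1
  refine ⟨C, η₀, hη0, hC, fun η hη hη1 α L hL f hf hDB => ?_⟩
  set A := affL α L hL.ne' with hA
  have hA1 : ∀ x, A x = α + L * x := fun x => rfl
  have hA2 : ∀ x, A⁻¹ x = (x - α) / L := fun x => affL_inv_apply _ _ _ _
  have hg : SuppIn 0 1 (A⁻¹ * f * A) := by
    intro x hx
    rw [Equiv.Perm.mul_apply, Equiv.Perm.mul_apply, hf (A x) (by
      rw [hA1]
      rcases hx with hx | hx
      · left; nlinarith
      · right; nlinarith)]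
    rw [← Equiv.Perm.mul_apply, inv_mul_cancel]; rfl
  have hcb : CB 4 (η ^ 2) (fun x => (A⁻¹ * f * A) x - x) := by
    have h1 := hDB.scale (1 / L) α L (η ^ 2) (by
      intro i hi
      rw [abs_of_pos (by positivity : 0 < 1 / L), abs_of_pos hL, zpow_sub₀ hL.ne']
      simp only [zpow_one, zpow_natCast]
      have := pow_pos hL i
      apply le_of_eq
      field_simp)
    have h2 : (fun x => (A⁻¹ * f * A) x - x) = fun x => 1 / L * (f (α + L * x) - (α + L * x)) := by
      funext x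
      rw [Equiv.Perm.mul_apply, Equiv.Perm.mul_apply, hA2, hA1]
      field_simp
      ring
    rw [h2]; exact h1
  obtain ⟨a, c, hac, hfc⟩ := H η hη hη1 _ hg hcb
  have hsupp : ∀ g : Equiv.Perm ℝ, SuppIn (-ρ) 4 g →
      SuppIn (α - ρ * L) (α + 4 * L) (A * g * A⁻¹) := by
    intro g hg x hx
    rw [Equiv.Perm.mul_apply, Equiv.Perm.mul_apply, hg (A⁻¹ x) (by
      rw [hA2]
      rcases hx with hx | hx
      · left; rw [div_le_iff₀ hL]; linarith
      · right; rw [le_div_iff₀ hL]; linarith)]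
    rw [← Equiv.Perm.mul_apply, mul_inv_cancel]; rfl
  refine ⟨fun i => A * a i * A⁻¹, fun i => A * c i * A⁻¹, fun i => ⟨hsupp _ (hac i).1,
    hsupp _ (hac i).2.1, sz_affL hL (hac i).2.2.1, sz_affL hL (hac i).2.2.2⟩, ?_⟩
  have h3 : f = A * (A⁻¹ * f * A) * A⁻¹ := by group
  rw [h3, hfc]
  simp only [comm]
  group

end Pool.Agent.Germ
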