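import Mathlib

/-!
Definitions for MP_91c48b_an (distortion of the germ `x - x^2` in the group of `C^2` germs).
-/

open Filter Topology

namespace Pool.Agent.Germ

/-- `CB n e f`: `f` is `n` times differentiable on `ℝ` and all derivatives up to order `n` are
bounded by `e`. -/
def CB : ℕ → ℝ → (ℝ → ℝ) → Prop
  | 0, e, f => ∀ x, |f x| ≤ e
  | n + 1, e, f => (∀ x, |f x| ≤ e) ∧ Differentiable ℝ f ∧ CB n e (deriv f)

/-- `SC n m C f`: near `+∞`, `|f^(i)(u)| ≤ C u^(m-i)` for all `i ≤ n` (symbol bound). -/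
def SC : ℕ → ℝ → ℝ → (ℝ → ℝ) → Prop
  | 0, m, C, f => ∀ᶠ u in atTop, |f u| ≤ C * u ^ m
  | n + 1, m, C, f => (∀ᶠ u in atTop, |f u| ≤ C * u ^ m) ∧
      (∀ᶠ u in atTop, DifferentiableAt ℝ f u) ∧ SC n (m - 1) C (deriv f)

/-- symbols of order `m` -/
def Sy (n : ℕ) (m : ℝ) (f : ℝ → ℝ) : Prop := ∃ C, SC n m C f

/-- `o`-symbols of order `m` -/
def So (n : ℕ) (m : ℝ) (f : ℝ → ℝ) : Prop := ∀ C, 0 < C → SC n m C f

/-- the commutator `a b a⁻¹ b⁻¹` -/
def comm {G : Type*} [Group G] (a b : G) : G := a * b * a⁻¹ * b⁻¹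

/-- `f` is the identity outside `[a,b]` -/
def SuppIn (a b : ℝ) (f : Equiv.Perm ℝ) : Prop := ∀ x, x ≤ a ∨ b ≤ x → f x = x

/-- `f` is `C²` and `e`-close to the identity in the `C²` sense -/
def C2S (e : ℝ) (f : ℝ → ℝ) : Prop :=
  ContDiff ℝ 2 f ∧ ∀ x, |f x - x| ≤ e ∧ |deriv f x - 1| ≤ e ∧ |deriv (deriv f) x| ≤ e

/-- scaled `C^n` size of `s` on the interval `[l, l+ℓ]` -/
def SZ (n : ℕ) (l ℓ e : ℝ) (s : ℝ → ℝ) : Prop :=
  CB n e (fun x => (s (l + ℓ * x) - (l + ℓ * x)) / ℓ)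

/-- one-parameter group of diffeomorphisms which is the translation group on `[A0,A1]` and is
supported in `[B0,B1]` -/
structure TransFam (A0 A1 B0 B1 Cθ : ℝ) (θ : ℝ → Equiv.Perm ℝ) : Prop where
  add : ∀ s t, θ (s + t) = θ s * θ t
  trans : ∀ t x, A0 ≤ x → x ≤ A1 → A0 ≤ x + t → x + t ≤ A1 → θ t x = x + t
  supp : ∀ t, SuppIn B0 B1 (θ t)
  small : ∀ t, |t| ≤ 1 → C2S (Cθ * |t|) (θ t)

/-- `C²` asymptotics at `+∞`: `F(u) = lam u + c + o(1)`, `u (F'(u) - lam) → 0`, `u² F''(u) → 0`. -/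
structure Adm (lam c : ℝ) (F : ℝ → ℝ) : Prop where
  smooth : ∀ᶠ u in atTop, ContDiffAt ℝ 2 F u
  lim0 : Tendsto (fun u => F u - lam * u) atTop (𝓝 c)
  lim1 : Tendsto (fun u => u * (deriv F u - lam)) atTop (𝓝 0)
  lim2 : Tendsto (fun u => u ^ 2 * deriv (deriv F) u) atTop (𝓝 0)

/-- the function near `0` whose expression in the coordinate `u = 1/x` is `F` for `x > 0`, and
whose expression in the coordinate `u = -1/x` is `H` for `x < 0`. -/
noncomputable def germFun (F H : ℝ → ℝ) (x : ℝ) : ℝ :=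
  if 0 < x then 1 / F (1 / x) else if x < 0 then -(1 / H (-(1 / x))) else 0

/-! ### The group of germs -/

/-- local `C^r` diffeomorphisms of `(ℝ, 0)` (by the inverse function theorem, for `r ≥ 1`, these are
exactly the functions that restrict to a `C^r` diffeomorphism between neighbourhoods of `0`
fixing `0`). -/
structure LD (r : ℕ) where
  toFun : ℝ → ℝ
  map_zero' : toFun 0 = 0
  smooth' : ContDiffAt ℝ r toFun 0
  deriv_ne' : deriv toFun 0 ≠ 0

/-- equality of germs at `0` -/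
def LD.setoid (r : ℕ) : Setoid (LD r) where
  r f g := f.toFun =ᶠ[𝓝 0] g.toFun
  iseqv := ⟨fun _ => EventuallyEq.rfl, fun h => h.symm, fun h h' => h.trans h'⟩

/-- germs at `0` of `C^r` diffeomorphisms fixing `0` -/
def GermDiff (r : ℕ) : Type := Quotient (LD.setoid r)

/-- the germ of `f` -/
def GermDiff.mk {r : ℕ} (f : LD r) : GermDiff r := Quotient.mk (LD.setoid r) f

/-- word length of `h` with respect to `S` -/
noncomputable def wordLen {G : Type*} [Group G] (S : Finset G) (h : G) : ℕ :=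
  sInf {n | ∃ l : List G, l.length = n ∧ (∀ x ∈ l, x ∈ S ∨ x⁻¹ ∈ S) ∧ l.prod = h}

/-- `h` is a distortion element of `G`: some finitely generated subgroup contains `h` and `h` is
distorted in it. -/
def IsDistortionElement {G : Type*} [Group G] (h : G) : Prop :=
  ∃ S : Finset G, h ∈ Subgroup.closure (S : Set G) ∧
    Tendsto (fun n : ℕ => (wordLen S (h ^ n) : ℝ) / n) atTop (𝓝 0)

end Pool.Agent.Germ
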