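import Pool.Agent.Helper19.Germ.Sym2

/-! The function `E1 x = (e^x - 1)/x`. -/

open Filter Topology

namespace Pool.Agent.Germ

/-- `E1 x = (e^x - 1)/x`, `E1 0 = 1` -/
noncomputable def E1 (x : ℝ) : ℝ := dslope Real.exp 0 x

theorem E1_mul (x : ℝ) : x * E1 x = Real.exp x - 1 := by
  have := sub_smul_dslope Real.exp 0 x
  simpa [E1] using this

theorem E1_zero : E1 0 = 1 := by simp [E1]

theorem E1_contDiff : ContDiff ℝ (⊤ : ℕ∞) E1 := by
  rw [contDiff_iff_contDiffAt]
  intro x
  by_cases hx : x = 0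
  · subst hx
    have h1 : AnalyticAt ℝ Real.exp 0 := analyticAt_rexp
    obtain ⟨p, hp⟩ := h1
    have h2 := hp.has_fpower_series_dslope_fslope
    exact (show AnalyticAt ℝ E1 0 from ⟨_, h2⟩).contDiffAt
  · have h1 : E1 =ᶠ[𝓝 x] fun y => (Real.exp y - 1) / y := by
      filter_upwards [isOpen_ne.mem_nhds hx] with y hy
      have := E1_mul y
      rw [← this]; field_simp
    refine ContDiffAt.congr_of_eventuallyEq ?_ h1
    exact ((Real.contDiff_exp.contDiffAt).sub contDiffAt_const).div contDiffAt_id hx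

theorem E1_pos (x : ℝ) : 0 < E1 x := by
  rcases lt_trichotomy x 0 with hx | hx | hx
  · have h := E1_mul x
    have : Real.exp x < 1 := Real.exp_lt_one_iff.2 hx
    by_contra hc
    nlinarith [not_lt.1 hc]
  · subst hx; rw [E1_zero]; exact one_pos
  · have h := E1_mul x
    have : 1 < Real.exp x := Real.one_lt_exp_iff.2 hx
    by_contra hc
    nlinarith [not_lt.1 hc]

/-- local bounds -/
theorem E1_bounds : ∃ M, 0 < M ∧ ∀ x, |x| ≤ 1 → |E1 x| ≤ M ∧ |deriv E1 x| ≤ M := by
  have hc : Continuous E1 := E1_contDiff.continuous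
  have hc' : Continuous (deriv E1) := E1_contDiff.continuous_deriv (by simp)
  obtain ⟨M1, hM1⟩ := (isCompact_Icc (a := (-1 : ℝ)) (b := 1)).exists_bound_of_continuousOn
    hc.continuousOn
  obtain ⟨M2, hM2⟩ := (isCompact_Icc (a := (-1 : ℝ)) (b := 1)).exists_bound_of_continuousOn
    hc'.continuousOn
  refine ⟨max (max M1 M2) 1, by positivity, fun x hx => ?_⟩
  have hx' : x ∈ Set.Icc (-1 : ℝ) 1 := abs_le.1 hx
  exact ⟨(hM1 x hx').trans ((le_max_left _ _).trans (le_max_left _ _)),
    (hM2 x hx').trans ((le_max_right _ _).trans (le_max_left _ _))⟩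

end Pool.Agent.Germ
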