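import Pool.Agent.Helper19.Germ.Maps

/-! Exactness of `G^(4^s) = D^s X^(2^s) B D^(-s)` on affine regions. -/

open Filter Topology

namespace Pool.Agent.Germ

theorem E1_le_two {x : ℝ} (hx : |x| ≤ 1) : |E1 x| ≤ 2 := by
  rcases eq_or_ne x 0 with h | h
  · subst h; rw [E1_zero]; norm_num
  · have h1 := Real.abs_exp_sub_one_le hx
    rw [← E1_mul, abs_mul] at h1
    exact le_of_mul_le_mul_left (by linarith) (abs_pos.2 h)

/-- an affine piece -/
def Aff (β : ℝ → ℝ) (s : ℕ) (c u p q : ℝ) : Prop :=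
  ∀ x, |x - u| ≤ c → β x = p * x + q ∧ β (x / 2 ^ s) = 2 ^ s * (p * x + q)

namespace Maps

variable {β : ℝ → ℝ} {τ U : ℝ} {T : ℝ → ℝ} {Ψ : ℝ → Equiv.Perm ℝ} {X B : Equiv.Perm ℝ}

theorem deriv_of_aff {β : ℝ → ℝ} {p q c u x : ℝ} (h : ∀ x, |x - u| ≤ c → β x = p * x + q)
    (hx : |x - u| < c) : HasDerivAt β p x := by
  have he : β =ᶠ[𝓝 x] fun x => p * x + q := by
    have ho : IsOpen {y : ℝ | |y - u| < c} := isOpen_lt (by fun_prop) continuous_const
    filter_upwards [ho.mem_nhds hx] with y hy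
    exact h y (le_of_lt hy)
  have h1 : HasDerivAt (fun x => p * x + q) p x := by
    simpa using ((hasDerivAt_id x).const_mul p).add_const q
  exact h1.congr_of_eventuallyEq he

/-- the flow on an affine piece -/
theorem flow_aff (h : Maps β τ U T Ψ X B) (hτ : |τ| = 1) (N : ℕ) {p q c u : ℝ} (hp : p ≠ 0)
    (hpN : |p| * N ≤ 1) (hc : 4 * N < c) (hu : U + c ≤ u)
    (ha : ∀ x, |x - u| ≤ c → β x = p * x + q) :
    Ψ (N * τ) u = u + (p * u + q + τ) * ((Real.exp (N * p) - 1) / p) := by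
  have hτ2 : τ * τ = 1 := by
    have := abs_mul_abs_self τ
    rw [hτ] at this; linarith
  have hc0 : 0 < c := lt_of_le_of_lt (by positivity) hc
  set v : ℝ → ℝ := fun t => u + (p * u + q + τ) * ((Real.exp (t * p) - 1) / p) with hv
  have hb : |p * u + q + τ| ≤ 5 / 4 := by
    have h1 := h.hb u (by linarith)
    rw [(ha u (by simp [hc0.le]))] at h1
    calc |p * u + q + τ| ≤ |p * u + q| + |τ| := abs_add_le _ _
      _ ≤ 5 / 4 := by rw [hτ]; linarith
  -- `v` stays in the interval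
  have hvb : ∀ t : ℝ, 0 ≤ t → t ≤ N → |v t - u| ≤ 4 * N := by
    intro t ht0 htN
    have h2 : (Real.exp (t * p) - 1) / p = t * E1 (t * p) := by
      rw [← E1_mul]; field_simp
    have h3 : |t * p| ≤ 1 := by
      rw [abs_mul, abs_of_nonneg ht0]
      calc t * |p| ≤ N * |p| := mul_le_mul_of_nonneg_right htN (abs_nonneg _)
        _ ≤ 1 := by linarith
    have h4 := E1_le_two h3
    simp only [hv, add_sub_cancel_left]
    rw [h2, abs_mul, abs_mul, abs_of_nonneg ht0]
    have h5 : t * |E1 (t * p)| ≤ N * 2 := mul_le_mul htN h4 (abs_nonneg _) (by positivity)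
    have h6 : 0 ≤ t * |E1 (t * p)| := by positivity
    calc |p * u + q + τ| * (t * |E1 (t * p)|) ≤ 5 / 4 * (N * 2) :=
          mul_le_mul hb h5 h6 (by norm_num)
      _ ≤ 4 * N := by
        have : (0 : ℝ) ≤ N := by positivity
        linarith
  have hvd : ∀ t : ℝ, HasDerivAt v ((p * u + q + τ) * Real.exp (t * p)) t := by
    intro t
    have h1 : HasDerivAt (fun t => Real.exp (t * p)) (Real.exp (t * p) * p) t := by
      have := ((hasDerivAt_id t).mul_const p).exp
      simpa using this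
    have h2 := (((h1.sub_const 1).div_const p).const_mul (p * u + q + τ)).const_add u
    have e : (p * u + q + τ) * Real.exp (t * p) =
        (p * u + q + τ) * (Real.exp (t * p) * p / p) := by field_simp
    rw [e]; exact h2
  have hβv : ∀ t : ℝ, 0 ≤ t → t ≤ N → β (v t) = p * v t + q := by
    intro t h0 h1
    exact ha _ ((hvb t h0 h1).trans hc.le)
  have hkey : ∀ t : ℝ, 0 ≤ t → t ≤ N → HasDerivAt (fun t => T (v t)) τ t := by
    intro t h0 h1
    have h2 := (h.hd (v t)).comp t (hvd t)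
    have hge : U ≤ v t := by
      have := (abs_le.1 (hvb t h0 h1)).1
      linarith
    rw [max_eq_left hge, hβv t h0 h1] at h2
    have h3 : p * v t + q + τ = (p * u + q + τ) * Real.exp (t * p) := by
      simp only [hv]; field_simp; ring
    have h4 : |τ * (p * v t + q)| ≤ 1 / 4 := by
      rw [abs_mul, hτ, one_mul, ← hβv t h0 h1]; exact h.hb _ hge
    have hne : 1 + τ * (p * v t + q) ≠ 0 := by linarith [(abs_le.1 h4).1]
    have h5 : (1 + τ * (p * v t + q))⁻¹ * ((p * u + q + τ) * Real.exp (t * p)) = τ := by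
      rw [← h3, inv_mul_eq_iff_eq_mul₀ hne]
      linear_combination (-1 : ℝ) * (p * v t + q) * hτ2
    rw [h5] at h2
    exact h2
  have hconst : T (v N) - τ * N = T (v 0) - τ * 0 := by
    have h1 : ∀ t ∈ Set.Icc (0 : ℝ) N, HasDerivAt (fun t => T (v t) - τ * t) 0 t := by
      intro t ht
      have := (hkey t ht.1 ht.2).fun_sub ((hasDerivAt_id t).const_mul τ)
      simpa using this
    have h2 := Convex.norm_image_sub_le_of_norm_hasDerivWithin_le (𝕜 := ℝ)
      (f := fun t => T (v t) - τ * t) (f' := fun _ => 0) (C := 0) (s := Set.Icc (0 : ℝ) N)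
      (x := 0) (y := N)
      (fun t ht => (h1 t ht).hasDerivWithinAt) (fun t _ => by simp) (convex_Icc _ _)
      ⟨le_rfl, by positivity⟩ ⟨by positivity, le_rfl⟩
    rw [zero_mul] at h2
    exact sub_eq_zero.1 (norm_le_zero_iff.1 h2)
  have hv0 : v 0 = u := by simp [hv]
  rw [hv0] at hconst
  apply h.monoT.injective
  rw [h.hT]
  change T u + N * τ = T (v N)
  linarith

/-- `B`, `X` on an affine piece, scaled -/
theorem wrd_aff (h : Maps β τ U T Ψ X B) (hτ : |τ| = 1) (s : ℕ) {p q c u : ℝ}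
    (hp : p ≠ 0) (hpN : |p| * 4 ^ s ≤ 1) (hc : 4 * 4 ^ s < c) (hu : 2 ^ s * U + c ≤ u)
    (hu' : U ≤ u)
    (ha : Aff β s c u p q) :
    wrd X B s u = u + (p * u + q + τ) * ((Real.exp (4 ^ s * p) - 1) / p) := by
  have h2s : (0 : ℝ) < 2 ^ s := by positivity
  have h4s : (4 : ℝ) ^ s = 2 ^ s * 2 ^ s := by rw [← mul_pow]; norm_num
  have hc0 : 0 < c := lt_of_le_of_lt (by positivity) hc
  -- `β` near `y` with `|2^s y - u| ≤ c`
  have hy : ∀ y, |y - u / 2 ^ s| ≤ c / 2 ^ s → β y = (4 ^ s * p) * y + 2 ^ s * q := by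
    intro y hy
    have h1 : |2 ^ s * y - u| ≤ c := by
      have : 2 ^ s * y - u = 2 ^ s * (y - u / 2 ^ s) := by field_simp
      rw [this, abs_mul, abs_of_pos h2s]
      calc 2 ^ s * |y - u / 2 ^ s| ≤ 2 ^ s * (c / 2 ^ s) := mul_le_mul_of_nonneg_left hy h2s.le
        _ = c := by field_simp
    have h2 := (ha _ h1).2
    rw [mul_div_cancel_left₀ _ h2s.ne'] at h2
    rw [h2, h4s]; ring
  have hyd : ∀ y, |y - u / 2 ^ s| < c / 2 ^ s → HasDerivAt β (4 ^ s * p) y := fun y hy' =>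
    deriv_of_aff hy hy'
  have hyU : ∀ y, |y - u / 2 ^ s| ≤ c / 2 ^ s → U ≤ y := by
    intro y hy'
    have h1 := (abs_le.1 hy').1
    have h3 : U + c / 2 ^ s ≤ u / 2 ^ s := by
      rw [le_div_iff₀ h2s, add_mul, div_mul_cancel₀ _ h2s.ne']; linarith
    linarith
  have hE : |4 ^ s * p| ≤ 1 := by
    rw [abs_mul, abs_of_pos (by positivity : (0 : ℝ) < 4 ^ s)]; linarith
  have hE2 := E1_le_two hE
  set e : ℝ := E1 (4 ^ s * p) with he
  have hβu : |p * u + q| ≤ 1 / 4 := by
    have := h.hb u hu'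
    rwa [(ha u (by simp [hc0.le])).1] at this
  -- value of `B`
  have hu0 : |u / 2 ^ s - u / 2 ^ s| < c / 2 ^ s := by simp; positivity
  have hB : B (u / 2 ^ s) = u / 2 ^ s + 2 ^ s * (p * u + q) * e := by
    rw [h.hB, max_eq_left (hyU _ hu0.le), (hyd _ hu0).deriv, hy _ hu0.le]
    have : 4 ^ s * p * (u / 2 ^ s) + 2 ^ s * q = 2 ^ s * (p * u + q) := by
      rw [h4s]; field_simp
    rw [this]
  -- powers of `X`
  have hXp : ∀ j : ℕ, j ≤ 2 ^ s → (X ^ j) (B (u / 2 ^ s)) = B (u / 2 ^ s) + j * τ * e := by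
    intro j
    induction j with
    | zero => intro _; simp
    | succ j ih =>
      intro hj
      have hj' : j ≤ 2 ^ s := by omega
      rw [pow_succ', Equiv.Perm.mul_apply, ih hj', h.hX]
      have hjr : (j : ℝ) ≤ 2 ^ s := by exact_mod_cast hj'
      have hd : |B (u / 2 ^ s) + j * τ * e - u / 2 ^ s| < c / 2 ^ s := by
        rw [hB, lt_div_iff₀ h2s]
        have h1 : u / 2 ^ s + 2 ^ s * (p * u + q) * e + j * τ * e - u / 2 ^ s =
            (2 ^ s * (p * u + q) + j * τ) * e := by ring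
        rw [h1, abs_mul]
        have h2 : |2 ^ s * (p * u + q) + j * τ| ≤ 2 ^ s * (5 / 4) := by
          calc |2 ^ s * (p * u + q) + j * τ| ≤ |2 ^ s * (p * u + q)| + |j * τ| := abs_add_le _ _
            _ = 2 ^ s * |p * u + q| + j := by
              rw [abs_mul, abs_of_pos h2s, abs_mul, hτ, mul_one, Nat.abs_cast]
            _ ≤ 2 ^ s * (1 / 4) + 2 ^ s := add_le_add (mul_le_mul_of_nonneg_left hβu h2s.le) hjr
            _ = _ := by ring
        calc |2 ^ s * (p * u + q) + j * τ| * |e| * 2 ^ s ≤ (2 ^ s * (5 / 4)) * 2 * 2 ^ s := by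
              refine mul_le_mul_of_nonneg_right (mul_le_mul h2 hE2 (abs_nonneg _) (by positivity))
                h2s.le
          _ ≤ 4 * 4 ^ s := by rw [h4s]; nlinarith [mul_pos h2s h2s]
          _ < c := hc
      rw [max_eq_left (hyU _ hd.le), (hyd _ hd).deriv]
      push_cast
      ring
  rw [wrd_apply, hXp _ le_rfl, hB]
  have h5 : (Real.exp (4 ^ s * p) - 1) / p = 4 ^ s * e := by
    rw [he, ← E1_mul]; field_simp
  rw [h5, h4s]
  push_cast
  field_simp
  ring

/-- exactness -/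
theorem exact (h : Maps β τ U T Ψ X B) (hβ : Sy 7 (-7/8) β) (hτ : |τ| = 1) (s : ℕ) :
    ∀ᶠ u in atTop, ∀ p q : ℝ, p ≠ 0 → Aff β s (4 * 4 ^ s + 1) u p q →
      ((Ψ τ) ^ (4 ^ s)) u = wrd X B s u := by
  have h1 := (sy_tendsto (by norm_num) hβ.dv).abs
  rw [abs_zero] at h1
  filter_upwards [h1.eventually (ge_mem_nhds (show (0 : ℝ) < 1 / 4 ^ s by positivity)),
    eventually_ge_atTop (U + (4 * 4 ^ s + 1)), eventually_ge_atTop U,
    eventually_ge_atTop (2 ^ s * U + (4 * 4 ^ s + 1))] with u h2 h3 h3' h4 p q hp ha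
  have hc : (0 : ℝ) < 4 * 4 ^ s + 1 := by positivity
  have hd : deriv β u = p := (deriv_of_aff (fun x hx => (ha x hx).1) (by simpa using hc)).deriv
  rw [hd] at h2
  have h4s : (0 : ℝ) < 4 ^ s := by positivity
  have hpN : |p| * 4 ^ s ≤ 1 := by rwa [le_div_iff₀ h4s] at h2
  rw [h.powG, h.wrd_aff hτ s hp hpN (by linarith) h4 h3' ha]
  have := h.flow_aff hτ (4 ^ s) (p := p) (q := q) (c := 4 * 4 ^ s + 1) (u := u) hp
    (by push_cast; exact hpN) (by push_cast; linarith) h3 (fun x hx => (ha x hx).1)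
  rw [this]
  push_cast
  rfl

end Maps

end Pool.Agent.Germ
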