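import Pool.Agent.Helper19.Germ.Flow

/-! Symbol expansions of the flow and of the words `D^s X^(2^s) B D^(-s)`. -/

open Filter Topology

namespace Pool.Agent.Germ

/-- integration of symbols of positive order -/
theorem Sy.of_deriv {n : ℕ} {m : ℝ} (hm : 0 < m) {f f' : ℝ → ℝ}
    (hd : ∀ᶠ u in atTop, HasDerivAt f (f' u) u) (h : Sy n (m - 1) f') : Sy (n + 1) m f := by
  refine Sy.succ ?_ hd h
  obtain ⟨C, hC0, hC⟩ := h.bound
  obtain ⟨U, hU⟩ := eventually_atTop.1 (hd.and (hC.and (eventually_ge_atTop 1)))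
  refine ⟨C / m + |f U|, ?_⟩
  filter_upwards [eventually_ge_atTop U, eventually_ge_atTop 1] with u hu hu1
  have hU1 : 1 ≤ U := (hU U le_rfl).2.2
  have key : |f u - f U| ≤ C / m * u ^ m - C / m * U ^ m := by
    have hg : ∀ x ≥ U, HasDerivAt (fun v => C / m * v ^ m) (C * x ^ (m - 1)) x := by
      intro x hx
      have hx0 : x ≠ 0 := by linarith
      have h : HasDerivAt (fun v : ℝ => C / m * v ^ m) (C / m * (m * x ^ (m - 1))) x :=
        (Real.hasDerivAt_rpow_const (p := m) (Or.inl hx0)).const_mul (C / m)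
      have e : C * x ^ (m - 1) = C / m * (m * x ^ (m - 1)) := by field_simp
      rw [e]; exact h
    have h1 : MonotoneOn (fun v => C / m * v ^ m - f v) (Set.Icc U u) := by
      refine monotoneOn_of_deriv_nonneg (convex_Icc _ _) ?_ ?_ ?_
      · intro x hx
        exact ((hg x hx.1).sub (hU x hx.1).1).continuousAt.continuousWithinAt
      · intro x hx
        have hx := interior_subset hx
        exact ((hg x hx.1).sub (hU x hx.1).1).differentiableAt.differentiableWithinAt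
      · intro x hx
        have hx := interior_subset hx
        rw [((hg x hx.1).fun_sub (hU x hx.1).1).deriv]
        have := (abs_le.1 (hU x hx.1).2.1).2
        linarith
    have h2 : MonotoneOn (fun v => C / m * v ^ m + f v) (Set.Icc U u) := by
      refine monotoneOn_of_deriv_nonneg (convex_Icc _ _) ?_ ?_ ?_
      · intro x hx
        exact ((hg x hx.1).add (hU x hx.1).1).continuousAt.continuousWithinAt
      · intro x hx
        have hx := interior_subset hx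
        exact ((hg x hx.1).add (hU x hx.1).1).differentiableAt.differentiableWithinAt
      · intro x hx
        have hx := interior_subset hx
        rw [((hg x hx.1).fun_add (hU x hx.1).1).deriv]
        have := (abs_le.1 (hU x hx.1).2.1).1
        linarith
    have h3 := h1 (Set.left_mem_Icc.2 hu) (Set.right_mem_Icc.2 hu) hu
    have h4 := h2 (Set.left_mem_Icc.2 hu) (Set.right_mem_Icc.2 hu) hu
    simp only at h3 h4
    rw [abs_le]; constructor <;> linarith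
  have h5 : 1 ≤ u ^ m := Real.one_le_rpow hu1 hm.le
  have h6 : 0 ≤ C / m * U ^ m := by positivity
  have h7 : |f U| ≤ |f U| * u ^ m := by nlinarith [abs_nonneg (f U)]
  calc |f u| = |(f u - f U) + f U| := by ring_nf
    _ ≤ |f u - f U| + |f U| := abs_add_le _ _
    _ ≤ (C / m + |f U|) * u ^ m := by nlinarith

variable {β : ℝ → ℝ} {τ : ℝ}

theorem sy_y {n : ℕ} {m : ℝ} (hm : m ≤ 0) (hβ : Sy n m β) : Sy n 0 (fun u => 1 + τ * β u) :=
  (Sy_const n 1).add ((hβ.mono hm).const_mul τ)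

theorem sy_yinv {n : ℕ} (hβ : Sy n (-7/8) β) (hτ : |τ| = 1)
    (hb : ∀ᶠ u in atTop, |β u| ≤ 1 / 4) : Sy n 0 (fun u => (1 + τ * β u)⁻¹) := by
  refine (sy_y (by norm_num) hβ).recip (3 / 4) (by norm_num) ?_
  filter_upwards [hb] with u hu
  have : |τ * β u| ≤ 1 / 4 := by rw [abs_mul, hτ, one_mul]; exact hu
  have h2 := (abs_le.1 this).1
  rw [abs_of_nonneg (by linarith)]; linarith

/-- the flow is near linear -/
theorem flow_sy {U : ℝ} (hβ : Sy 7 (-7/8) β) (hτ : |τ| = 1) (hb : ∀ u ≥ U, |β u| ≤ 1 / 4)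
    {T : ℝ → ℝ} {Ψ : ℝ → Equiv.Perm ℝ}
    (hd : ∀ u, HasDerivAt T (1 + τ * β (max u U))⁻¹ u) (hΨ : ∀ t u, T (Ψ t u) = T u + t)
    (hm : ∀ t, StrictMono (Ψ t)) (hbd : ∀ t u, |Ψ t u - u| ≤ 5 / 4 * |t|) (t : ℝ) :
    Sy 6 0 (fun u => Ψ t u - u) := by
  have hlo : ∀ u, 3 / 4 ≤ 1 + τ * β (max u U) := by
    intro u
    have : |τ * β (max u U)| ≤ 1 / 4 := by
      rw [abs_mul, hτ, one_mul]; exact hb _ (le_max_right _ _)
    linarith [(abs_le.1 this).1]
  have hbe : ∀ᶠ u in atTop, |β u| ≤ 1 / 4 := by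
    filter_upwards [eventually_ge_atTop U] with u hu using hb u hu
  have hder := flow_deriv hlo hd hΨ hm t
  have htend : Tendsto (Ψ t) atTop atTop := by
    refine tendsto_atTop_mono (f := fun u => u - 5 / 4 * |t|) (fun u => ?_)
      (tendsto_atTop_add_const_right _ _ tendsto_id)
    have := (abs_le.1 (hbd t u)).1; linarith
  have base : ∃ C, ∀ᶠ u in atTop, |Ψ t u - u| ≤ C * u ^ (0 : ℝ) :=
    ⟨5 / 4 * |t|, Eventually.of_forall fun u => by rw [Real.rpow_zero, mul_one]; exact hbd t u⟩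
  have key : ∀ n ≤ 6, Sy n 0 (fun u => Ψ t u - u) := by
    intro n hn
    induction n with
    | zero => obtain ⟨C, hC⟩ := base; exact ⟨C, hC⟩
    | succ n ih =>
      have h1 := ih (by omega)
      have h2 : Sy n (-7/8 - 1 + 0) (fun u => β (Ψ t u) - β u) :=
        Sy.comp_sub le_rfl (hβ.of_le (by omega)) h1
      have h3 := (h2.const_mul τ).mul (sy_yinv (hβ.of_le (by omega)) hτ hbe)
      refine Sy.succ base (f' := fun u => τ * (β (Ψ t u) - β u) * (1 + τ * β u)⁻¹) ?_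
        (h3.mono (by norm_num))
      filter_upwards [eventually_ge_atTop U, htend.eventually (eventually_ge_atTop U)] with u hu hu2
      have h4 := hder u
      rw [max_eq_left hu, max_eq_left hu2] at h4
      have h5 : HasDerivAt (fun u => Ψ t u - u) ((1 + τ * β (Ψ t u)) / (1 + τ * β u) - 1) u :=
        h4.fun_sub (hasDerivAt_id u)
      have hne : 1 + τ * β u ≠ 0 := by
        have := hlo u; rw [max_eq_left hu] at this; linarith
      have e : τ * (β (Ψ t u) - β u) * (1 + τ * β u)⁻¹ =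
          (1 + τ * β (Ψ t u)) / (1 + τ * β u) - 1 := by
        field_simp; ring
      rw [e]; exact h5
  exact key 6 le_rfl

/-- expansion of the flow -/
theorem flow_expand {U : ℝ} (hβ : Sy 7 (-7/8) β) (hτ : |τ| = 1) (hb : ∀ u ≥ U, |β u| ≤ 1 / 4)
    {T : ℝ → ℝ} {Ψ : ℝ → Equiv.Perm ℝ}
    (hd : ∀ u, HasDerivAt T (1 + τ * β (max u U))⁻¹ u) (hΨ : ∀ t u, T (Ψ t u) = T u + t)
    (hm : ∀ t, StrictMono (Ψ t)) (hbd : ∀ t u, |Ψ t u - u| ≤ 5 / 4 * |t|) (t : ℝ) :
    Sy 6 (-15/8) (fun u => Ψ t u - u - t * (1 + τ * β u)) := by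
  have hbe : ∀ᶠ u in atTop, |β u| ≤ 1 / 4 := by
    filter_upwards [eventually_ge_atTop U] with u hu using hb u hu
  have hw := flow_sy hβ hτ hb hd hΨ hm hbd t
  -- `T - id` is a symbol of order `1/8`
  have h1 : Sy 7 (1/8 - 1) (fun u => (1 + τ * β u)⁻¹ - 1) := by
    have h2 := ((hβ.const_mul τ).mul (sy_yinv hβ hτ hbe)).neg
    rw [add_zero] at h2
    rw [show (1/8 - 1 : ℝ) = -7/8 by norm_num]
    refine h2.congr ?_
    filter_upwards [hbe] with u hu
    have h3 : |τ * β u| ≤ 1 / 4 := by rw [abs_mul, hτ, one_mul]; exact hu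
    have hne : 1 + τ * β u ≠ 0 := by linarith [(abs_le.1 h3).1]
    field_simp
    ring
  have h3 : Sy 8 (1/8) (fun u => T u - u) := by
    refine Sy.of_deriv (by norm_num) ?_ h1
    filter_upwards [eventually_ge_atTop U] with u hu
    have := hd u
    rw [max_eq_left hu] at this
    exact this.fun_sub (hasDerivAt_id u)
  have h4 := Sy.comp_sub2 (n := 6) le_rfl h3 hw
  have h5 := (h4.mul (sy_y (τ := τ) (by norm_num) (hβ.of_le (show 6 ≤ 7 by norm_num)))).neg
  rw [show (1/8 - 2 + 2 * 0 + 0 : ℝ) = -15/8 by norm_num] at h5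
  refine h5.congr ?_
  filter_upwards [eventually_ge_atTop U, hbe] with u hu hu2
  have h6 : deriv (fun u => T u - u) u = (1 + τ * β u)⁻¹ - 1 := by
    have := hd u
    rw [max_eq_left hu] at this
    exact (this.fun_sub (hasDerivAt_id u)).deriv
  have h7 : |τ * β u| ≤ 1 / 4 := by rw [abs_mul, hτ, one_mul]; exact hu2
  have hne : 1 + τ * β u ≠ 0 := by linarith [(abs_le.1 h7).1]
  rw [h6, hΨ]
  field_simp
  ring

/-- expansion of `X` -/
theorem X_expand (hβ : Sy 7 (-7/8) β) {X : ℝ → ℝ}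
    (hX : ∀ᶠ u in atTop, X u = u + τ * E1 (deriv β u)) :
    Sy 6 (-15/8) (fun u => X u - u - τ) := by
  have h1 := (hβ.dv.outer (by norm_num) (fun x => E1 x - 1) (E1_contDiff.sub contDiff_const)
    (by simp [E1_zero])).const_mul τ
  rw [show (-7/8 - 1 : ℝ) = -15/8 by norm_num] at h1
  refine h1.congr ?_
  filter_upwards [hX] with u hu
  rw [hu]; ring

theorem B_expand (hβ : Sy 7 (-7/8) β) {B : ℝ → ℝ}
    (hB : ∀ᶠ u in atTop, B u = u + β u * E1 (deriv β u)) :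
    Sy 6 (-15/8) (fun u => B u - u - β u) := by
  have h1 := hβ.of_succ.mul (hβ.dv.outer (by norm_num) (fun x => E1 x - 1)
    (E1_contDiff.sub contDiff_const) (by simp [E1_zero]))
  refine (h1.mono (by norm_num)).congr ?_
  filter_upwards [hB] with u hu
  rw [hu]; ring

theorem sy_shift {n : ℕ} {m : ℝ} (hm : m ≤ 0) {F : ℝ → ℝ} {c : ℝ}
    (h : Sy n m (fun u => F u - u - c)) : Sy n 0 (fun u => F u - u) := by
  have := (h.mono hm).add (Sy_const n c)
  simpa using this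

theorem Xpow_expand (X : Equiv.Perm ℝ) (hX : Sy 6 (-15/8) (fun u => X u - u - τ)) (M : ℕ) :
    Sy 6 (-15/8) (fun u => (X ^ M) u - u - M * τ) := by
  induction M with
  | zero => simpa using Sy_zero 6 (-15/8)
  | succ M ih =>
    have h1 : NL 6 1 (X ^ M : Equiv.Perm ℝ) := NL_of_sub le_rfl (sy_shift (by norm_num) ih)
    have h2 := (hX.comp h1).add ih
    refine h2.congr (Eventually.of_forall fun u => ?_)
    simp only [pow_succ', Equiv.Perm.mul_apply]
    push_cast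
    ring

/-- the dilation `u ↦ c u` -/
noncomputable def Dil (c : ℝ) (hc : c ≠ 0) : Equiv.Perm ℝ := Equiv.mulLeft₀ c hc

theorem Dil_apply (c : ℝ) (hc : c ≠ 0) (u : ℝ) : Dil c hc u = c * u := rfl

theorem Dil_inv_apply (c : ℝ) (hc : c ≠ 0) (u : ℝ) : (Dil c hc)⁻¹ u = u / c := by
  rw [Equiv.Perm.inv_eq_iff_eq, Dil_apply]; field_simp

theorem Dil_pow_apply (c : ℝ) (hc : c ≠ 0) (s : ℕ) (u : ℝ) : ((Dil c hc) ^ s) u = c ^ s * u := by
  induction s generalizing u with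
  | zero => simp
  | succ s ih => rw [pow_succ, Equiv.Perm.mul_apply, ih, Dil_apply]; ring

theorem Dil_pow_inv_apply (c : ℝ) (hc : c ≠ 0) (s : ℕ) (u : ℝ) :
    (((Dil c hc) ^ s)⁻¹ : Equiv.Perm ℝ) u = u / c ^ s := by
  rw [Equiv.Perm.inv_eq_iff_eq, Dil_pow_apply]
  have := pow_ne_zero s hc
  field_simp

/-- the word `w_s = D^s X^(2^s) B D^(-s)` -/
noncomputable def wrd (X B : Equiv.Perm ℝ) (s : ℕ) : Equiv.Perm ℝ :=
  (Dil 2 two_ne_zero) ^ s * X ^ (2 ^ s) * B * ((Dil 2 two_ne_zero) ^ s)⁻¹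

theorem wrd_apply (X B : Equiv.Perm ℝ) (s : ℕ) (u : ℝ) :
    wrd X B s u = 2 ^ s * (X ^ (2 ^ s)) (B (u / 2 ^ s)) := by
  rw [wrd, Equiv.Perm.mul_apply, Equiv.Perm.mul_apply, Equiv.Perm.mul_apply, Dil_pow_inv_apply,
    Dil_pow_apply]

theorem NL_scale (n : ℕ) (s : ℕ) : NL n ((2 ^ s : ℝ)⁻¹) (fun u => u / 2 ^ s) := by
  refine ⟨by positivity, ?_⟩
  refine (Sy_zero n 0).congr (Eventually.of_forall fun u => ?_)
  simp only
  rw [div_eq_inv_mul, sub_self]

theorem wrd_expand (hβ : Sy 7 (-7/8) β) (X B : Equiv.Perm ℝ)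
    (hX : Sy 6 (-15/8) (fun u => X u - u - τ)) (hB : Sy 6 (-15/8) (fun u => B u - u - β u))
    (s : ℕ) :
    Sy 6 (-15/8) (fun u => wrd X B s u - u - 4 ^ s * τ - 2 ^ s * β (u / 2 ^ s)) := by
  have hB0 : Sy 6 0 (fun u => B u - u) := by
    have := (hB.mono (show (-15/8 : ℝ) ≤ 0 by norm_num)).add
      (hβ.of_succ.mono (show (-7/8 : ℝ) ≤ 0 by norm_num))
    simpa using this
  have h1 := Xpow_expand X hX (2 ^ s)
  have h2 := h1.comp (NL_of_sub le_rfl hB0)
  have h3 := ((h2.add hB).comp (NL_scale 6 s)).const_mul (2 ^ s)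
  refine h3.congr (Eventually.of_forall fun u => ?_)
  simp only
  rw [wrd_apply]
  have h4 : (2 : ℝ) ^ s ≠ 0 := by positivity
  have h5 : (4 : ℝ) ^ s = 2 ^ s * 2 ^ s := by rw [← mul_pow]; norm_num
  push_cast
  rw [h5]
  field_simp
  ring

theorem wrd_sy0 (hβ : Sy 7 (-7/8) β) (X B : Equiv.Perm ℝ) (s : ℕ)
    (h : Sy 6 (-15/8) (fun u => wrd X B s u - u - 4 ^ s * τ - 2 ^ s * β (u / 2 ^ s))) :
    Sy 6 0 (fun u => wrd X B s u - u) := by
  have h1 : Sy 6 0 (fun u => 2 ^ s * β (u / 2 ^ s)) :=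
    ((hβ.of_succ.comp (NL_scale 6 s)).const_mul (2 ^ s)).mono (by norm_num)
  have h2 := ((h.mono (show (-15/8 : ℝ) ≤ 0 by norm_num)).add h1).add (Sy_const 6 (4 ^ s * τ))
  refine h2.congr (Eventually.of_forall fun u => ?_)
  simp only
  ring

/-- expansion of the error `h_s = G^(4^s) w_s^(-1)` -/
theorem err_expand (hβ : Sy 7 (-7/8) β) (hτ2 : τ * τ = 1) (X B GN : Equiv.Perm ℝ)
    (s : ℕ) (hmono : StrictMono (wrd X B s))
    (hG : Sy 6 (-15/8) (fun u => GN u - u - (4 ^ s * τ) * (1 + τ * β u)))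
    (hw : Sy 6 (-15/8) (fun u => wrd X B s u - u - 4 ^ s * τ - 2 ^ s * β (u / 2 ^ s))) :
    ∃ ρ : ℝ → ℝ, Sy 6 (-15/8) ρ ∧ NL 6 1 ((wrd X B s)⁻¹ : Equiv.Perm ℝ) ∧
      ∀ u, (GN * (wrd X B s)⁻¹) u - u =
        (4 ^ s * β ((wrd X B s)⁻¹ u) - 2 ^ s * β ((wrd X B s)⁻¹ u / 2 ^ s)) + ρ u := by
  have h1 : NL 6 1 ((wrd X B s)⁻¹ : Equiv.Perm ℝ) :=
    NL_of_sub le_rfl (Sy.perm_inv _ (wrd_sy0 hβ X B s hw) hmono)
  refine ⟨_, (hG.sub hw).comp h1, h1, fun u => ?_⟩
  have h3 : (wrd X B s) ((wrd X B s)⁻¹ u) = u := by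
    rw [← Equiv.Perm.mul_apply, mul_inv_cancel]; rfl
  simp only [Equiv.Perm.mul_apply]
  linear_combination (4 ^ s * β ((wrd X B s)⁻¹ u)) * hτ2 + h3

end Pool.Agent.Germ
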