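import Pool.Agent.Helper19.Germ.Half
import Pool.Agent.Helper41.Germ.Conj
import Pool.Agent.Helper92.Germ.B8
import Pool.Agent.Helper89.Germ.S3

/-! The final assembly. -/

open Filter Topology Set

namespace Pool.Agent.Germ

theorem exists_betaData : ∃ (β : ℝ → ℝ) (κ : ℕ → ℕ) (J : ℕ → Finset ℝ) (r : ℕ → ℝ),
    BetaData β κ J r := by
  obtain ⟨β, κ, J, r, h1, h2, h3, h4, h5, h6, h7, h8, h9, h10, h11, h12, h13⟩ := exists_beta
  exact ⟨β, κ, J, r, ⟨h1, h2, h3, h4, h5, h6, h7, h8, h9, h10, h11, h12, h13⟩⟩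

/-- convergence from an integrable derivative -/
theorem tendsto_of_deriv_bound {F F' : ℝ → ℝ} {C U : ℝ} (hC : 0 ≤ C) (hU : 1 ≤ U)
    (hd : ∀ u ≥ U, HasDerivAt F (F' u) u) (hb : ∀ u ≥ U, |F' u| ≤ C / u ^ 2) :
    ∃ L, Tendsto F atTop (𝓝 L) := by
  -- `F - C / u` is monotone, `F + C / u` is antitone
  have hg : ∀ u ≥ U, HasDerivAt (fun v => C / v) (-(C / u ^ 2)) u := by
    intro u hu
    have hu0 : u ≠ 0 := by linarith
    have h0 : HasDerivAt (fun v => C * v⁻¹) (C * -(u ^ 2)⁻¹) u := (hasDerivAt_inv hu0).const_mul C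
    have e : -(C / u ^ 2) = C * -(u ^ 2)⁻¹ := by rw [div_eq_mul_inv]; ring
    rw [e]
    simpa only [div_eq_mul_inv] using h0
  have h1 : MonotoneOn (fun v => F v - C / v) (Set.Ici U) := by
    refine monotoneOn_of_deriv_nonneg (convex_Ici _) ?_ ?_ ?_
    · intro x hx
      exact ((hd x hx).fun_sub (hg x hx)).continuousAt.continuousWithinAt
    · intro x hx
      exact ((hd x (interior_subset hx)).fun_sub
        (hg x (interior_subset hx))).differentiableAt.differentiableWithinAt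
    · intro x hx
      have hx := interior_subset hx
      rw [((hd x hx).fun_sub (hg x hx)).deriv]
      linarith [(abs_le.1 (hb x hx)).1]
  have h2 : AntitoneOn (fun v => F v + C / v) (Set.Ici U) := by
    refine antitoneOn_of_deriv_nonpos (convex_Ici _) ?_ ?_ ?_
    · intro x hx
      exact ((hd x hx).fun_add (hg x hx)).continuousAt.continuousWithinAt
    · intro x hx
      exact ((hd x (interior_subset hx)).fun_add
        (hg x (interior_subset hx))).differentiableAt.differentiableWithinAt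
    · intro x hx
      have hx := interior_subset hx
      rw [((hd x hx).fun_add (hg x hx)).deriv]
      linarith [(abs_le.1 (hb x hx)).2]
  set g : ℝ → ℝ := fun v => F (max v U) - C / (max v U) with hgd
  have hgm : Monotone g := by
    intro a b hab
    exact h1 (Set.mem_Ici.2 (le_max_right _ _)) (Set.mem_Ici.2 (le_max_right _ _))
      (max_le_max hab le_rfl)
  have hgb : BddAbove (Set.range g) := by
    refine ⟨F U + C / U, ?_⟩
    rintro _ ⟨v, rfl⟩
    have h3 := h2 (Set.mem_Ici.2 le_rfl) (Set.mem_Ici.2 (le_max_right v U)) (le_max_right v U)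
    simp only at h3
    have h4 : 0 ≤ C / max v U := by
      have : 0 < max v U := lt_of_lt_of_le (by linarith) (le_max_right v U)
      positivity
    simp only [hgd]
    linarith
  have ht := tendsto_atTop_ciSup hgm hgb
  refine ⟨⨆ i, g i, ?_⟩
  have hC0 : Tendsto (fun v : ℝ => C / v) atTop (𝓝 0) := tendsto_const_nhds.div_atTop tendsto_id
  have h5 := ht.add hC0
  rw [add_zero] at h5
  refine h5.congr' ?_
  filter_upwards [eventually_ge_atTop U] with v hv
  simp only [hgd]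
  rw [max_eq_left hv]; ring

theorem hTL_aux {β : ℝ → ℝ} {κ : ℕ → ℕ} {J : ℕ → Finset ℝ} {r : ℕ → ℝ}
    (D : BetaData β κ J r) {τ : ℝ} (hτ : |τ| = 1) {T : ℝ → ℝ}
    (hT : ∀ᶠ u in atTop, HasDerivAt T (1 / (τ + β u)) u) :
    ∃ L, Tendsto (fun u => T u - (τ * u - Real.log u)) atTop (𝓝 L) := by
  have hτ2 : τ * τ = 1 := by
    have := abs_mul_abs_self τ
    rw [hτ] at this; linarith
  obtain ⟨L1, hL1⟩ := D.int
  have hb := D.t0
  have hb2 : ∀ᶠ u in atTop, |β u| ≤ 2 / u := by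
    filter_upwards [hb.abs.eventually (ge_mem_nhds (show |(1 : ℝ)| < 2 by norm_num)),
      eventually_gt_atTop 0] with u h1 h2
    rw [le_div_iff₀ h2]
    rw [abs_mul, abs_of_pos h2] at h1
    linarith
  have hb3 : ∀ᶠ u in atTop, |β u| ≤ 1 / 4 := by
    filter_upwards [hb2, eventually_ge_atTop 8] with u h1 h2
    refine h1.trans ?_
    rw [div_le_div_iff₀ (by linarith) (by norm_num)]; linarith
  obtain ⟨U, hU⟩ := eventually_atTop.1 (hT.and (hb2.and (hb3.and (eventually_ge_atTop 1))))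
  have hcont : Continuous β := D.smooth.continuous
  set F : ℝ → ℝ := fun u => T u - τ * u + ∫ v in (1 : ℝ)..u, β v with hF
  have hFd : ∀ u ≥ max U 1, HasDerivAt F (1 / (τ + β u) - τ + β u) u := by
    intro u hu
    have h1 := (hU u ((le_max_left _ _).trans hu)).1
    have h2 : HasDerivAt (fun u => ∫ v in (1 : ℝ)..u, β v) (β u) u :=
      intervalIntegral.integral_hasDerivAt_right (hcont.intervalIntegrable _ _)
        (hcont.stronglyMeasurableAtFilter _ _) hcont.continuousAt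
    have h3 : HasDerivAt (fun u : ℝ => τ * u) τ u := by
      simpa using (hasDerivAt_id u).const_mul τ
    exact (h1.fun_sub h3).fun_add h2
  obtain ⟨L, hL⟩ := tendsto_of_deriv_bound (F := F) (C := 8) (U := max U 1) (by norm_num)
    (le_max_right _ _) hFd (by
      intro u hu
      obtain ⟨-, h2, h3, h4⟩ := hU u ((le_max_left _ _).trans hu)
      have hu0 : 0 < u := by linarith
      have h5 : 3 / 4 ≤ |τ + β u| := by
        have := abs_sub_abs_le_abs_sub τ (-β u)
        rw [abs_neg, sub_neg_eq_add, hτ] at this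
        linarith
      have hne : τ + β u ≠ 0 := by
        intro h; rw [h, abs_zero] at h5; linarith
      have e : 1 / (τ + β u) - τ + β u = β u ^ 2 / (τ + β u) := by
        field_simp
        linear_combination (-1 : ℝ) * hτ2
      rw [e, abs_div, abs_of_nonneg (sq_nonneg (β u))]
      have h6 : β u ^ 2 ≤ 4 / u ^ 2 := by
        have : |β u| ^ 2 ≤ (2 / u) ^ 2 := pow_le_pow_left₀ (abs_nonneg _) h2 2
        rw [sq_abs, div_pow] at this
        linarith
      calc β u ^ 2 / |τ + β u| ≤ (4 / u ^ 2) / (3 / 4) :=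
            div_le_div₀ (by positivity) h6 (by norm_num) h5
        _ ≤ 8 / u ^ 2 := by
            rw [div_div, div_le_div_iff₀ (by positivity) (by positivity)]
            nlinarith [sq_nonneg u, pow_pos hu0 2])
  refine ⟨L - L1, (hL.sub hL1).congr fun u => ?_⟩
  simp only [hF]; ring

/-- the data on one half-line -/
theorem half_all (hP : Perfect) {β : ℝ → ℝ} {κ : ℕ → ℕ} {J : ℕ → Finset ℝ} {r : ℕ → ℝ}
    (D : BetaData β κ J r) {τ : ℝ} (hτ : τ = 1 ∨ τ = -1) :
    ∃ (G X B : Equiv.Perm ℝ) (A C A' C' : Fin 3 → Equiv.Perm ℝ) (φ : ℝ → ℝ),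
      Adm 1 τ G ∧ Adm 1 τ X ∧ Adm 1 0 B ∧
      (∀ l, Adm 1 0 (A l) ∧ Adm 1 0 (C l)) ∧ (∀ l, Adm 1 0 (A' l) ∧ Adm 1 0 (C' l)) ∧
      (∀ s : ℕ, ∀ᶠ u in atTop, (G ^ (4 ^ (s + 1))) u =
        (W3 ((Dil 3 three_ne_zero) ^ s) ((Dil 5 (by norm_num)) ^ s) A C *
          W3 ((Dil 2 two_ne_zero) ^ (10 * 3 ^ s)) ((Dil 2 two_ne_zero) ^ (20 * 3 ^ s)) A' C' *
          ((Dil 2 two_ne_zero) ^ (s + 1) * X ^ (2 ^ (s + 1)) * B *
            ((Dil 2 two_ne_zero) ^ (s + 1))⁻¹)) u) ∧
      Adm 1 0 φ ∧ ∀ᶠ u in atTop, φ (u + τ + 1 / (u - τ)) = G (φ u) := by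
  have hτa : |τ| = 1 := by rcases hτ with h | h <;> rw [h] <;> simp
  have hτ2 : τ * τ = 1 := by
    have := abs_mul_abs_self τ
    rw [hτa] at this; linarith
  obtain ⟨U, T, Ψ, X, B, h⟩ := exists_maps D.smooth D.sy' hτa
  obtain ⟨A, C, A', C', hAC, hAC', hw⟩ := half_word hP D h hτa
  have hTd : ∀ᶠ u in atTop, HasDerivAt (fun u => τ * T u) (1 / (τ + β u)) u := by
    filter_upwards [eventually_ge_atTop U] with u hu
    have h1 := (h.hd u).const_mul τ
    rw [max_eq_left hu] at h1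
    have hb := h.hb u hu
    have h2 : |τ * β u| ≤ 1 / 4 := by rw [abs_mul, hτa, one_mul]; exact hb
    have hne : 1 + τ * β u ≠ 0 := by linarith [(abs_le.1 h2).1]
    have hne' : τ + β u ≠ 0 := by
      intro h3
      apply hne
      have : τ * (τ + β u) = 0 := by rw [h3, mul_zero]
      linarith [this, show τ * (τ + β u) = τ * τ + τ * β u by ring]
    have e : 1 / (τ + β u) = τ * (1 + τ * β u)⁻¹ := by
      field_simp
      linear_combination (-1 : ℝ) * hτ2
    rw [e]; exact h1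
  have hGt : Tendsto (Ψ τ) atTop atTop := by
    refine tendsto_atTop_mono (f := fun u => u - 5 / 4 * |τ|) (fun u => ?_)
      (tendsto_atTop_add_const_right _ _ tendsto_id)
    have := (abs_le.1 (h.bd τ u)).1; linarith
  obtain ⟨φ, hφ1, hφ2⟩ := Pool.Agent.Helper41.Germ.conj_to_flow τ hτ β
    (Eventually.of_forall fun u => (D.smooth.of_le (by norm_num)).contDiffAt) D.t0 D.t1
    (fun u => τ * T u) (Ψ τ) hTd (hTL_aux D hτa hTd)
    (Eventually.of_forall fun u => by
      rw [h.hT]; linear_combination hτ2) hGt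
  exact ⟨Ψ τ, X, B, A, C, A', C', φ, h.admG D.sy' hτa, h.admX D.sy', h.admB D.sy', hAC, hAC', hw,
    hφ1, hφ2⟩

theorem adm_dil (c : ℝ) (hc : c ≠ 0) : Adm c 0 (Dil c hc) := by
  have hf : (Dil c hc : ℝ → ℝ) = fun u => c * u := rfl
  have hd : deriv (fun u : ℝ => c * u) = fun _ => c := by
    funext u
    simp
  rw [hf]
  refine ⟨Eventually.of_forall fun u => (contDiff_const.mul contDiff_id).contDiffAt, ?_, ?_, ?_⟩
  · simp
  · rw [hd]; simp
  · rw [hd]; simp

/-- the germ of `x - x²` is a distortion element of the group of germs of `C²`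
diffeomorphisms -/
theorem distorted (hP : Perfect) (f : LD 2) (hf : f.toFun =ᶠ[𝓝 0] fun x => x - x ^ 2) :
    IsDistortionElement (GermDiff.mk f) := by
  obtain ⟨β, κ, J, r, D⟩ := exists_betaData
  obtain ⟨G₁, X₁, B₁, A₁, C₁, A₁', C₁', φ₁, g1, x1, b1, a1, a1', w1, p1, q1⟩ :=
    half_all hP D (Or.inl rfl)
  obtain ⟨G₂, X₂, B₂, A₂, C₂, A₂', C₂', φ₂, g2, x2, b2, a2, a2', w2, p2, q2⟩ :=
    half_all hP D (Or.inr rfl)
  obtain ⟨γ, hγ⟩ := Rep.of_adm one_pos g1 g2
  obtain ⟨X, hX⟩ := Rep.of_adm one_pos x1 x2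
  obtain ⟨B, hB⟩ := Rep.of_adm one_pos b1 (by rw [neg_zero]; exact b2)
  obtain ⟨d2, hd2⟩ := Rep.of_adm two_pos (adm_dil 2 two_ne_zero)
    (by rw [neg_zero]; exact adm_dil 2 two_ne_zero)
  obtain ⟨d3, hd3⟩ := Rep.of_adm three_pos (adm_dil 3 three_ne_zero)
    (by rw [neg_zero]; exact adm_dil 3 three_ne_zero)
  obtain ⟨d5, hd5⟩ := Rep.of_adm (show (0 : ℝ) < 5 by norm_num) (adm_dil 5 (by norm_num))
    (by rw [neg_zero]; exact adm_dil 5 (by norm_num))
  have hA : ∀ l, ∃ a, Rep a (A₁ l) (A₂ l) := fun l =>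
    Rep.of_adm one_pos (a1 l).1 (by rw [neg_zero]; exact (a2 l).1)
  have hC : ∀ l, ∃ a, Rep a (C₁ l) (C₂ l) := fun l =>
    Rep.of_adm one_pos (a1 l).2 (by rw [neg_zero]; exact (a2 l).2)
  have hA' : ∀ l, ∃ a, Rep a (A₁' l) (A₂' l) := fun l =>
    Rep.of_adm one_pos (a1' l).1 (by rw [neg_zero]; exact (a2' l).1)
  have hC' : ∀ l, ∃ a, Rep a (C₁' l) (C₂' l) := fun l =>
    Rep.of_adm one_pos (a1' l).2 (by rw [neg_zero]; exact (a2' l).2)
  choose A hA using hA
  choose C hC using hC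
  choose A' hA' using hA'
  choose C' hC' using hC'
  have hdist : IsDistortionElement γ := by
    refine final_group γ X B d2 d3 d5 A C A' C' fun s => ?_
    have hR := ((Rep.W3 (hd3.pow s) (hd5.pow s) hA hC).mul
      (Rep.W3 (hd2.pow (10 * 3 ^ s)) (hd2.pow (20 * 3 ^ s)) hA' hC')).mul
      ((((hd2.pow (s + 1)).mul (hX.pow (2 ^ (s + 1)))).mul hB).mul (hd2.pow (s + 1)).inv)
    have hL := hγ.pow (4 ^ (s + 1))
    refine Rep.ext hL hR ?_ ?_
    · filter_upwards [w1 s] with u hu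
      rw [hu]
    · filter_upwards [w2 s] with u hu
      rw [hu]
  obtain ⟨k, hk⟩ := rep_conj hγ p1 p2 q1 q2 f hf
  rw [hk]
  exact distortion_conj _ _ hdist

end Pool.Agent.Germ
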