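import Pool.Agent.Helper19.Germ.E1

/-! Flows of `(1 + τ β) d/du` and the maps `X`, `B`. -/

open Filter Topology

namespace Pool.Agent.Germ

theorem exists_perm (F : ℝ → ℝ) (hc : Continuous F) (hm : StrictMono F) (C : ℝ)
    (hb : ∀ u, |F u - u| ≤ C) : ∃ P : Equiv.Perm ℝ, ⇑P = F := by
  have hsurj : Function.Surjective F := by
    refine hc.surjective ?_ ?_
    · refine tendsto_atTop_mono (f := fun u => u - C) (fun u => ?_)
        (tendsto_atTop_add_const_right _ _ tendsto_id)
      have := (abs_le.1 (hb u)).1; linarith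
    · refine tendsto_atBot_mono (fun u => (?_ : F u ≤ u + C))
        (tendsto_atBot_add_const_right _ _ tendsto_id)
      have := (abs_le.1 (hb u)).2; linarith
  exact ⟨Equiv.ofBijective F ⟨hm.injective, hsurj⟩, rfl⟩

/-- existence of the flow of `y(u) d/du` for a continuous `y` with values in `[3/4,5/4]` -/
theorem exists_flow (y : ℝ → ℝ) (hy : Continuous y) (hlo : ∀ u, 3 / 4 ≤ y u)
    (hhi : ∀ u, y u ≤ 5 / 4) :
    ∃ (T : ℝ → ℝ) (Ψ : ℝ → Equiv.Perm ℝ), (∀ s t, Ψ (s + t) = Ψ s * Ψ t) ∧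
      (∀ u, HasDerivAt T (y u)⁻¹ u) ∧ (∀ t u, T (Ψ t u) = T u + t) ∧ StrictMono T ∧
      (∀ t, StrictMono (Ψ t)) ∧ (∀ t u, |Ψ t u - u| ≤ 5 / 4 * |t|) := by
  have hpos : ∀ u, 0 < y u := fun u => lt_of_lt_of_le (by norm_num) (hlo u)
  have hci : Continuous fun u => (y u)⁻¹ := hy.inv₀ fun u => (hpos u).ne'
  set T : ℝ → ℝ := fun u => ∫ v in (0:ℝ)..u, (y v)⁻¹ with hT
  have hd : ∀ u, HasDerivAt T (y u)⁻¹ u := fun u =>
    intervalIntegral.integral_hasDerivAt_right (hci.intervalIntegrable _ _)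
      (hci.stronglyMeasurableAtFilter _ _) hci.continuousAt
  have hlow : ∀ u, (4 / 5 : ℝ) ≤ (y u)⁻¹ := by
    intro u
    rw [le_inv_comm₀ (by norm_num) (hpos u)]
    linarith [hhi u]
  have hTd : ∀ a b, a ≤ b → 4 / 5 * (b - a) ≤ T b - T a := by
    intro a b hab
    have h1 : Monotone fun u => T u - 4 / 5 * u := by
      refine monotone_of_deriv_nonneg (fun u => ?_) (fun u => ?_)
      · exact ((hd u).differentiableAt).sub (differentiableAt_id.const_mul _)
      · have := ((hd u).fun_sub ((hasDerivAt_id u).const_mul (4 / 5 : ℝ))).deriv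
        simp only [id] at this
        rw [this]
        linarith [hlow u]
    have := h1 hab
    simp only at this
    linarith
  have hmono : StrictMono T := by
    intro a b hab
    have := hTd a b hab.le
    have h2 : 0 < 4 / 5 * (b - a) := by linarith
    linarith
  have hcont : Continuous T := continuous_iff_continuousAt.2 fun u => (hd u).continuousAt
  have hsurj : Function.Surjective T := by
    refine hcont.surjective ?_ ?_
    · refine tendsto_atTop_mono' _ (f₁ := fun u => T 0 + 4 / 5 * u) ?_ ?_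
      · filter_upwards [eventually_ge_atTop 0] with u hu
        have := hTd 0 u hu; linarith
      · exact tendsto_atTop_add_const_left _ _ (Tendsto.const_mul_atTop (by norm_num) tendsto_id)
    · have h1 : Tendsto (fun u : ℝ => T 0 + 4 / 5 * u) atBot atBot :=
        tendsto_atBot_add_const_left _ _ (Tendsto.const_mul_atBot (by norm_num) tendsto_id)
      have h2 : ∀ᶠ u in atBot, T u ≤ T 0 + 4 / 5 * u := by
        filter_upwards [eventually_le_atBot 0] with u hu
        have := hTd u 0 hu; linarith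
      exact tendsto_atBot_mono' _ h2 h1
  let e : ℝ ≃ ℝ := Equiv.ofBijective T ⟨hmono.injective, hsurj⟩
  have he : ∀ u, e u = T u := fun u => rfl
  let Ψ : ℝ → Equiv.Perm ℝ := fun t => e.trans ((Equiv.addRight t).trans e.symm)
  have hΨ : ∀ t u, T (Ψ t u) = T u + t := by
    intro t u
    exact e.apply_symm_apply (T u + t)
  refine ⟨T, Ψ, ?_, hd, hΨ, hmono, ?_, ?_⟩
  · intro s t
    ext u
    apply hmono.injective
    rw [Equiv.Perm.mul_apply, hΨ, hΨ, hΨ]
    ring
  · intro t a b hab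
    have h1 := hmono hab
    by_contra hc
    have h2 := hmono.monotone (not_lt.1 hc)
    rw [hΨ, hΨ] at h2
    linarith
  · intro t u
    rcases le_total (Ψ t u) u with h | h
    · have h1 := hTd _ _ h
      rw [hΨ] at h1
      rw [abs_of_nonpos (by linarith)]
      have : -t ≤ |t| := neg_le_abs t
      linarith
    · have h1 := hTd _ _ h
      rw [hΨ] at h1
      rw [abs_of_nonneg (by linarith)]
      have : t ≤ |t| := le_abs_self t
      linarith

/-- derivative of the flow -/
theorem flow_deriv {y T : ℝ → ℝ} {Ψ : ℝ → Equiv.Perm ℝ} (hlo : ∀ u, 3 / 4 ≤ y u)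
    (hd : ∀ u, HasDerivAt T (y u)⁻¹ u) (hΨ : ∀ t u, T (Ψ t u) = T u + t)
    (hm : ∀ t, StrictMono (Ψ t)) (t u : ℝ) :
    HasDerivAt (Ψ t) (y (Ψ t u) / y u) u := by
  have hpos : ∀ u, 0 < y u := fun u => lt_of_lt_of_le (by norm_num) (hlo u)
  have hcont : Continuous (Ψ t) := (hm t).monotone.continuous_of_surjective (Ψ t).surjective
  have hTm : StrictMono T := by
    refine strictMono_of_deriv_pos fun u => ?_
    rw [(hd u).deriv]; exact inv_pos.2 (hpos u)
  have h2 : HasDerivAt (fun v => T (Ψ t v)) (y u)⁻¹ u := by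
    have : (fun v => T (Ψ t v)) = fun v => T v + t := funext fun v => hΨ t v
    rw [this]
    exact (hd u).add_const t
  have h3 := hd (Ψ t u)
  rw [hasDerivAt_iff_tendsto_slope] at h2 h3 ⊢
  have h4 : Tendsto (Ψ t) (𝓝[≠] u) (𝓝[≠] (Ψ t u)) := by
    refine tendsto_nhdsWithin_iff.2 ⟨(hcont.tendsto u).mono_left nhdsWithin_le_nhds, ?_⟩
    filter_upwards [self_mem_nhdsWithin] with v hv
    exact fun h => hv ((Ψ t).injective h)
  have h5 := h3.comp h4
  have h6 : Tendsto (fun v => slope (fun v => T (Ψ t v)) u v / slope T (Ψ t u) (Ψ t v)) (𝓝[≠] u)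
      (𝓝 ((y u)⁻¹ / (y (Ψ t u))⁻¹)) := h2.div h5 (inv_ne_zero (hpos _).ne')
  have h7 : (y u)⁻¹ / (y (Ψ t u))⁻¹ = y (Ψ t u) / y u := by
    have := (hpos u).ne'; have := (hpos (Ψ t u)).ne'; field_simp
  rw [h7] at h6
  refine h6.congr' ?_
  filter_upwards [self_mem_nhdsWithin] with v hv
  have hv1 : v - u ≠ 0 := sub_ne_zero.2 hv
  have hv2 : Ψ t v - Ψ t u ≠ 0 := sub_ne_zero.2 fun h => hv ((Ψ t).injective h)
  have hv3 : T (Ψ t v) - T (Ψ t u) ≠ 0 :=
    sub_ne_zero.2 fun h => hv ((Ψ t).injective (hTm.injective h))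
  simp only [slope_def_field]
  field_simp

end Pool.Agent.Germ
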