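import Pool.Agent.Helper19.Germ.Hs

/-! Local structure of the error maps near the joints and near the sparse scales. -/

open Filter Topology Set

namespace Pool.Agent.Germ

theorem loc_gen {h : Equiv.Perm ℝ} (hm : StrictMono h) {α ω δ α' : ℝ} (hδ : 0 < δ)
    (hl : ∀ u, α - δ < u → u < α → h u = u) (hr : ∀ u, ω < u → u < ω + δ → h u = u)
    {ρ : ℝ → ℝ} (hρ : ∀ u, α - δ < u → u < ω + δ → h u - u = ρ u) (hα' : α' ≤ α - δ)
    {b : ℕ → ℝ} (hb : ∀ i, 0 ≤ b i) (hDB : DB (Ioi α') 4 b ρ) :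
    ∃ f : Equiv.Perm ℝ, SuppIn α ω f ∧ (∀ u, α ≤ u → u ≤ ω → f u = h u) ∧
      DB univ 4 b (fun x => f x - x) := by
  obtain ⟨f, hf, hfh⟩ := exists_restrict h hm hδ hl hr
  refine ⟨f, hf, fun u h1 h2 => hfh u (by linarith) (by linarith), ?_⟩
  have hV : DB (Ioo (α - δ) (ω + δ)) 4 b ρ := hDB.mono (fun x hx => lt_of_le_of_lt hα' hx.1)
    (fun i _ => le_rfl)
  refine DB.glob (V := Ioo (α - δ) (ω + δ)) (W := Iio α ∪ Ioi ω) isOpen_Ioo
    (isOpen_Iio.union isOpen_Ioi) ?_ hb hV ?_ ?_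
  · ext x
    simp only [mem_union, mem_Ioo, mem_Iio, mem_Ioi, mem_univ, iff_true]
    by_cases h1 : x < α
    · exact Or.inr (Or.inl h1)
    · by_cases h2 : ω < x
      · exact Or.inr (Or.inr h2)
      · push Not at h1 h2
        exact Or.inl ⟨by linarith, by linarith⟩
  · intro x hx
    rw [hfh x hx.1 hx.2, hρ x hx.1 hx.2]
  · intro x hx
    rw [hf x (hx.imp le_of_lt le_of_lt), sub_self]

section

variable {β : ℝ → ℝ} {κ : ℕ → ℕ} {J : ℕ → Finset ℝ} {r : ℕ → ℝ}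

theorem two_pow_lt {a b : ℕ} {u : ℝ} (h1 : (2 : ℝ) ^ a < u) (h2 : u < 2 ^ b) : a < b := by
  have : (2 : ℝ) ^ a < 2 ^ b := h1.trans h2
  exact (pow_lt_pow_iff_right₀ (by norm_num : (1 : ℝ) < 2)).1 this

theorem two_pow_lt' {a b : ℕ} {u : ℝ} (h1 : (2 : ℝ) ^ a ≤ u) (h2 : u < 2 ^ b) : a < b := by
  have : (2 : ℝ) ^ a < 2 ^ b := h1.trans_lt h2
  exact (pow_lt_pow_iff_right₀ (by norm_num : (1 : ℝ) < 2)).1 this

theorem two_pow_lt'' {a b : ℕ} {u : ℝ} (h1 : (2 : ℝ) ^ a < u) (h2 : u ≤ 2 ^ b) : a < b := by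
  have : (2 : ℝ) ^ a < 2 ^ b := h1.trans_le h2
  exact (pow_lt_pow_iff_right₀ (by norm_num : (1 : ℝ) < 2)).1 this

/-- bad joint intervals lie in `(2^k, 2^(k+1))` -/
theorem BetaData.bad_mem (D : BetaData β κ J r) {k : ℕ} {p : ℝ} (hp : p ∈ J k) {c : ℝ}
    (hc : c ≤ 20) {u : ℝ} (h1 : 2 ^ k * (p - c * r k) ≤ u) (h2 : u ≤ 2 ^ k * (p + c * r k)) :
    (2 : ℝ) ^ k < u ∧ u < 2 ^ (k + 1) := by
  obtain ⟨h3, h4⟩ := D.pJ k p hp
  have hr := D.rpos k
  have h2k : (0 : ℝ) < 2 ^ k := by positivity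
  have h5 : c * r k ≤ 20 * r k := mul_le_mul_of_nonneg_right hc hr.le
  constructor
  · have : (2 : ℝ) ^ k * 1 < 2 ^ k * (p - c * r k) := mul_lt_mul_of_pos_left (by linarith) h2k
    linarith
  · have : (2 : ℝ) ^ k * (p + c * r k) < 2 ^ k * 2 := mul_lt_mul_of_pos_left (by linarith) h2k
    rw [pow_succ]; linarith

theorem BetaData.r_lt (D : BetaData β κ J r) {k : ℕ} {p : ℝ} (hp : p ∈ J k) : 40 * r k < 1 := by
  obtain ⟨h3, h4⟩ := D.pJ k p hp
  linarith

theorem tendsto_pow2 : Tendsto (fun k : ℕ => (2 : ℝ) ^ k) atTop atTop :=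
  tendsto_pow_atTop_atTop_of_one_lt (by norm_num)

theorem pow2_rpow (k : ℕ) : (2 : ℝ) ^ (-(k : ℝ) / 8) = ((2 : ℝ) ^ k) ^ (-1/8 : ℝ) := by
  rw [← Real.rpow_natCast, ← Real.rpow_mul (by norm_num)]
  congr 1; ring

theorem loc_joint (D : BetaData β κ J r) (s : ℕ) (h : Equiv.Perm ℝ) (H : HS κ J r s h) (ε : ℝ)
    (hε : 0 < ε) :
    ∀ᶠ k : ℕ in atTop, ∀ p ∈ J k, (∀ m, ¬ (κ m ≤ k ∧ k < κ m + s)) → ∃ f : Equiv.Perm ℝ,
      SuppIn (2 ^ k * (p - r k)) (2 ^ k * (p - r k) + 2 ^ k * (2 * r k)) f ∧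
      (∀ u, 2 ^ k * (p - r k) ≤ u → u ≤ 2 ^ k * (p - r k) + 2 ^ k * (2 * r k) → f u = h u) ∧
      ∃ η, 0 < η ∧ η ≤ ε ∧
        (2 ^ k * (p - r k) + 4 * (2 ^ k * (2 * r k))) ^ 2 * η / (2 ^ k * (2 * r k)) ≤ ε ∧
        DB univ 4 (fun i => η ^ 2 * (2 ^ k * (2 * r k)) ^ (1 - (i : ℤ))) (fun x => f x - x) := by
  obtain ⟨ρ, hρ, Cw, hCw⟩ := H.sy
  obtain ⟨C, hC0, hC⟩ := hρ.pos
  have hC1 : SC 4 (-15/8) (C + 1) ρ := hC.mono_C (by linarith)
  obtain ⟨U1, hU1, hDB⟩ := hC1.toDB (by norm_num) (by linarith)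
  obtain ⟨U2, hU2⟩ := eventually_atTop.1 (H.off.and hCw)
  obtain ⟨K3, hK3⟩ := D.sep 0
  -- large `k`
  have ht := tendsto_pow2
  have e1 : Tendsto (fun k : ℕ => √(C + 1) * ((2 : ℝ) ^ k) ^ (-11/8 : ℝ)) atTop (𝓝 0) := by
    have := ((tendsto_rpow_neg_atTop (y := 11/8) (by norm_num)).comp ht).const_mul √(C + 1)
    rw [mul_zero] at this
    refine this.congr fun k => ?_
    simp only [Function.comp_apply]
    norm_num
  have e2 : Tendsto (fun k : ℕ => 4 * √(C + 1) * ((2 : ℝ) ^ k) ^ (-1/4 : ℝ)) atTop (𝓝 0) := by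
    have := ((tendsto_rpow_neg_atTop (y := 1/4) (by norm_num)).comp ht).const_mul (4 * √(C + 1))
    rw [mul_zero] at this
    refine this.congr fun k => ?_
    simp only [Function.comp_apply]
    norm_num
  have e3 : Tendsto (fun k : ℕ => ((2 : ℝ) ^ k) ^ (7/8 : ℝ)) atTop atTop :=
    (tendsto_rpow_atTop (by norm_num)).comp ht
  filter_upwards [ht.eventually (eventually_ge_atTop U1), ht.eventually (eventually_ge_atTop U2),
    eventually_ge_atTop K3, e1.eventually (ge_mem_nhds hε), e2.eventually (ge_mem_nhds hε),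
    e3.eventually (eventually_ge_atTop |Cw|), D.rlow] with k k1 k2 k3 k4 k5 k6 k7 p hp hok
  have hr := D.rpos k
  have hr40 := D.r_lt hp
  obtain ⟨hp1, hp2⟩ := D.pJ k p hp
  rw [pow2_rpow] at k7
  set t : ℝ := 2 ^ k with htd
  have ht0 : 0 < t := by positivity
  have ht1 : 1 ≤ t := one_le_pow₀ (by norm_num)
  have htr : t ^ (7/8 : ℝ) ≤ t * r k := by
    calc t ^ (7/8 : ℝ) = t * t ^ (-1/8 : ℝ) := by
          rw [← Real.rpow_one_add' ht0.le (by norm_num)]; norm_num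
      _ ≤ t * r k := mul_le_mul_of_nonneg_left k7 ht0.le
  have hCwr : Cw ≤ t * r k := (le_abs_self _).trans (k6.trans htr)
  -- the neighbourhood
  have hnb : ∀ x, t * (p - 20 * r k) ≤ x → x ≤ t * (p + 20 * r k) → ∀ m,
      ¬ ((2 : ℝ) ^ κ m ≤ x ∧ x ≤ 2 ^ (κ m + s)) := by
    intro x h1 h2 m hm
    obtain ⟨h3, h4⟩ := D.bad_mem hp le_rfl h1 h2
    exact hok m ⟨Nat.lt_succ_iff.1 (two_pow_lt' hm.1 h4), two_pow_lt'' h3 hm.2⟩
  have hω : t * (p - r k) + t * (2 * r k) = t * (p + r k) := by ring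
  have htrp : 0 < t * r k := by positivity
  have E1 : t * (p - r k) = t * p - t * r k := by ring
  have E2 : t * (p + r k) = t * p + t * r k := by ring
  have E3 : t * (p - 20 * r k) = t * p - 20 * (t * r k) := by ring
  have E4 : t * (p + 20 * r k) = t * p + 20 * (t * r k) := by ring
  have E5 : t < t * p - 20 * (t * r k) := by
    rw [← E3]
    calc t = t * 1 := (mul_one t).symm
      _ < _ := mul_lt_mul_of_pos_left hp1 ht0
  have E6 : t * p + 20 * (t * r k) < 2 * t := by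
    rw [← E4]
    calc t * (p + 20 * r k) < t * 2 := mul_lt_mul_of_pos_left hp2 ht0
      _ = _ := by ring
  have E7 : t * (2 * r k) = 2 * (t * r k) := by ring
  have hfix : ∀ u, t * (p - 20 * r k) ≤ u → u ≤ t * (p + 20 * r k) →
      ¬ (t * (p - r k) ≤ u ∧ u ≤ t * (p + r k)) → h u = u := by
    intro u h1 h2 h3
    have h4 := D.bad_mem hp le_rfl h1 h2
    refine (hU2 u (k2.trans h4.1.le)).1 ?_ (hnb u h1 h2)
    rintro k' p' hp' ⟨h5, h6⟩
    have h7 := D.bad_mem hp' (c := 1) (u := u) (by norm_num) (by rw [one_mul]; exact h5)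
      (by rw [one_mul]; exact h6)
    have h8 : k = k' := by
      have a1 := two_pow_lt h4.1 h7.2
      have a2 := two_pow_lt h7.1 h4.2
      omega
    subst h8
    obtain ⟨-, -, -, h9⟩ := hK3 k k k3 k3 p hp p' hp' 0 0 (by simp) (by simp) u
      (by simpa using h1) (by simpa using h2)
      (by
        simp only [zpow_zero, one_mul]
        have : (0 : ℝ) < 2 ^ k * r k := htrp
        have e : (2 : ℝ) ^ k * (p' - 20 * r k) = 2 ^ k * (p' - r k) - 19 * (2 ^ k * r k) := by ring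
        linarith)
      (by
        simp only [zpow_zero, one_mul]
        have : (0 : ℝ) < 2 ^ k * r k := htrp
        have e : (2 : ℝ) ^ k * (p' + 20 * r k) = 2 ^ k * (p' + r k) + 19 * (2 ^ k * r k) := by ring
        linarith)
    subst h9
    exact h3 ⟨h5, h6⟩
  set η : ℝ := √(C + 1) * t ^ (-11/8 : ℝ) with hη
  have hη0 : 0 < η := by positivity
  have hη2 : η ^ 2 = (C + 1) * t ^ (-11/4 : ℝ) := by
    rw [hη, mul_pow, Real.sq_sqrt (by linarith), ← Real.rpow_natCast, ← Real.rpow_mul ht0.le]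
    norm_num
  set L : ℝ := t * (2 * r k) with hL
  have hL0 : 0 < L := by positivity
  have hL1 : L ≤ t := by
    rw [E7]
    have : 0 < t * p := by linarith
    have : t * (40 * r k) ≤ t * 1 := mul_le_mul_of_nonneg_left hr40.le ht0.le
    linarith
  have hL2 : 2 * t ^ (7/8 : ℝ) ≤ L := by
    rw [hL]; linarith
  obtain ⟨f, hf1, hf2, hf3⟩ := loc_gen H.mono (α := t * (p - r k)) (ω := t * (p + r k))
    (δ := t * r k) (α' := t) htrp
    (fun u h1 h2 => hfix u (by linarith) (by linarith) (fun h3 => by linarith [h3.1]))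
    (fun u h1 h2 => hfix u (by linarith) (by linarith) (fun h3 => by linarith [h3.2]))
    (ρ := ρ)
    (fun u h1 h2 => by
      refine (hU2 u ?_).2 ?_
      · linarith
      · intro m x hx hm
        have hx' := abs_le.1 hx
        refine hnb x ?_ ?_ m ⟨hm.1.le, hm.2.le⟩
        · linarith [hx'.1]
        · linarith [hx'.2])
    (by linarith) (b := fun i => (C + 1) * t ^ (-15/8 - (i : ℝ)))
    (fun i => by positivity) (hDB t k1)
  refine ⟨f, by rw [hω]; exact hf1, fun u h1 h2 => hf2 u h1 (by rw [← hω]; exact h2), η, hη0, k4,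
    ?_, ?_⟩
  · have h1 : t * (p - r k) + 4 * L ≤ 2 * t := by
      rw [E7]
      linarith
    have h0 : 0 ≤ t * (p - r k) + 4 * L := by
      have : 0 ≤ t * (p - r k) := mul_nonneg ht0.le (by linarith)
      linarith
    calc (t * (p - r k) + 4 * L) ^ 2 * η / L ≤ (2 * t) ^ 2 * η / (2 * t ^ (7/8 : ℝ)) := by
          apply div_le_div₀ (by positivity) _ (by positivity) hL2
          exact mul_le_mul_of_nonneg_right (pow_le_pow_left₀ h0 h1 2) hη0.le
      _ = 2 * √(C + 1) * (t ^ (2 : ℝ) * t ^ (-11/8 : ℝ) / t ^ (7/8 : ℝ)) := by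
          rw [hη, Real.rpow_two]; ring
      _ = 2 * √(C + 1) * t ^ (-1/4 : ℝ) := by
          rw [← Real.rpow_add ht0, ← Real.rpow_sub ht0]; norm_num
      _ ≤ 4 * √(C + 1) * t ^ (-1/4 : ℝ) := by
          have : 0 ≤ √(C + 1) * t ^ (-1/4 : ℝ) := by positivity
          linarith
      _ ≤ ε := k5
  · refine hf3.mono Subset.rfl ?_
    intro i hi
    rw [hη2]
    rcases Nat.eq_zero_or_pos i with h0 | hi0
    · subst h0
      simp only [sub_zero, CharP.cast_eq_zero, zpow_one]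
      calc (C + 1) * t ^ (-15/8 : ℝ) = (C + 1) * (t ^ (-11/4 : ℝ) * t ^ (7/8 : ℝ)) := by
            rw [← Real.rpow_add ht0]; norm_num
        _ ≤ (C + 1) * (t ^ (-11/4 : ℝ) * L) := by
            have : t ^ (7/8 : ℝ) ≤ L := by
              have : 0 < t ^ (7/8 : ℝ) := by positivity
              linarith
            gcongr
        _ = _ := by ring
    · have hz : t ^ (1 - (i : ℤ)) ≤ L ^ (1 - (i : ℤ)) := by
        have e : (1 - (i : ℤ)) = -((i - 1 : ℕ) : ℤ) := by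
          rw [Nat.cast_sub hi0]; ring
        rw [e, zpow_neg, zpow_neg, zpow_natCast, zpow_natCast]
        exact inv_anti₀ (by positivity) (pow_le_pow_left₀ hL0.le hL1 _)
      calc (C + 1) * t ^ (-15/8 - (i : ℝ)) ≤ (C + 1) * (t ^ (-11/4 : ℝ) * t ^ (1 - (i : ℝ))) := by
            rw [← Real.rpow_add ht0]
            gcongr 1
            exact Real.rpow_le_rpow_of_exponent_le ht1 (by linarith)
        _ = (C + 1) * (t ^ (-11/4 : ℝ) * t ^ (1 - (i : ℤ))) := by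
            rw [← Real.rpow_intCast t (1 - (i : ℤ))]; push_cast; rfl
        _ ≤ (C + 1) * (t ^ (-11/4 : ℝ) * L ^ (1 - (i : ℤ))) := by gcongr
        _ = _ := by ring

theorem loc_trans (D : BetaData β κ J r) (s : ℕ) (hs : 1 ≤ s) (h : Equiv.Perm ℝ)
    (H : HS κ J r s h) (ε : ℝ) (hε : 0 < ε) :
    ∀ᶠ m : ℕ in atTop, ∃ f : Equiv.Perm ℝ,
      SuppIn (2 ^ κ m) (2 ^ κ m + 2 ^ κ m * (2 ^ s - 1)) f ∧
      (∀ u, 2 ^ κ m ≤ u → u ≤ 2 ^ κ m + 2 ^ κ m * (2 ^ s - 1) → f u = h u) ∧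
      ∃ η, 0 < η ∧ η ≤ ε ∧
        (2 ^ κ m + 4 * (2 ^ κ m * (2 ^ s - 1))) ^ 2 * η / (2 ^ κ m * (2 ^ s - 1)) ≤ ε ∧
        DB univ 4 (fun i => η ^ 2 * (2 ^ κ m * (2 ^ s - 1)) ^ (1 - (i : ℤ))) (fun x => f x - x) := by
  set σ : ℝ := ε / 2 ^ (2 * s + 4) with hσ
  have hσ0 : 0 < σ := by positivity
  set C : ℝ := σ ^ 2 / (32 * 2 ^ (3 * s)) with hCd
  have hC0 : 0 < C := by positivity
  obtain ⟨U1, hU1, hDB⟩ := (H.so C hC0).toDB (by norm_num) hC0.le
  obtain ⟨U2, hU2⟩ := eventually_atTop.1 H.off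
  obtain ⟨M0, hM0⟩ := eventually_atTop.1 (D.κg.eventually (eventually_gt_atTop (s + 1)))
  have ht : Tendsto (fun m : ℕ => (2 : ℝ) ^ κ m) atTop atTop :=
    tendsto_pow2.comp D.κm.tendsto_atTop
  filter_upwards [ht.eventually (eventually_ge_atTop (2 * U1)),
    ht.eventually (eventually_ge_atTop (2 * U2)), eventually_ge_atTop M0, eventually_ge_atTop 1,
    D.κm.tendsto_atTop.eventually (eventually_ge_atTop (κ M0 + s + 1)),
    ht.eventually (eventually_ge_atTop 1)] with m k1 k2 k3 k4 k5 ht1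
  set t : ℝ := 2 ^ κ m with htd
  have ht0 : 0 < t := by linarith
  obtain ⟨K, hK⟩ : ∃ K, κ m = K + 1 := ⟨κ m - 1, by omega⟩
  have htK : t = 2 * 2 ^ K := by rw [htd, hK, pow_succ]; ring
  have h2s : (2 : ℝ) ≤ 2 ^ s := by
    calc (2 : ℝ) = 2 ^ 1 := by norm_num
      _ ≤ 2 ^ s := pow_le_pow_right₀ (by norm_num) hs
  have hts : (2 : ℝ) ^ (κ m + s) = t * 2 ^ s := by rw [pow_add]
  set δ : ℝ := min (2 ^ K * r K) (min (2 ^ (κ m + s) * r (κ m + s)) (t / 4)) with hδ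
  have hδ0 : 0 < δ := by
    have := D.rpos K
    have := D.rpos (κ m + s)
    positivity
  have hδ1 : δ ≤ 2 ^ K * r K := min_le_left _ _
  have hδ2 : δ ≤ 2 ^ (κ m + s) * r (κ m + s) := (min_le_right _ _).trans (min_le_left _ _)
  have hδ3 : δ ≤ t / 4 := (min_le_right _ _).trans (min_le_right _ _)
  have hωe : t + t * (2 ^ s - 1) = t * 2 ^ s := by ring
  have hl : ∀ u, t - δ < u → u < t → h u = u := by
    intro u h1 h2
    have hu1 : (2 : ℝ) ^ K < u := by linarith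
    have hu2 : u < 2 ^ (K + 1) := by rw [← hK]; exact h2
    refine hU2 u (by linarith) ?_ ?_
    · rintro k' p' hp' ⟨h5, h6⟩
      have h7 := D.bad_mem hp' (c := 1) (u := u) (by norm_num) (by rw [one_mul]; exact h5)
        (by rw [one_mul]; exact h6)
      have h8 : K = k' := by
        have a1 := two_pow_lt hu1 h7.2
        have a2 := two_pow_lt h7.1 hu2
        omega
      subst h8
      obtain ⟨h9, h10⟩ := D.pJ K p' hp'
      have h11 : (2 : ℝ) ^ K * (p' + r K) < 2 ^ K * (2 - 19 * r K) :=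
        mul_lt_mul_of_pos_left (by linarith) (by positivity)
      have h12 : (0 : ℝ) < 2 ^ K * r K := by linarith
      have h13 : (2 : ℝ) ^ K * (2 - 19 * r K) = t - 19 * (2 ^ K * r K) := by rw [htK]; ring
      linarith
    · rintro m' ⟨h5, h6⟩
      have h7 : κ m' < κ m := two_pow_lt' h5 h2
      have h8 : m' < m := D.κm.lt_iff_lt.1 h7
      have h9 : κ (m' + 1) ≤ κ m := D.κm.monotone h8
      have h10 : K < κ m' + s := two_pow_lt'' hu1 h6
      by_cases h11 : M0 ≤ m'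
      · have := hM0 m' h11
        omega
      · have : κ m' ≤ κ M0 := D.κm.monotone (by omega)
        omega
  have hr : ∀ u, t * 2 ^ s < u → u < t * 2 ^ s + δ → h u = u := by
    intro u h1 h2
    have h0 : t * 2 ≤ t * 2 ^ s := mul_le_mul_of_nonneg_left h2s ht0.le
    rw [← hts] at h1 h2
    have hu2 : u < 2 ^ (κ m + s + 1) := by
      rw [pow_succ]
      rw [← hts] at h0
      linarith
    refine hU2 u (by rw [← hts] at h0; linarith) ?_ ?_
    · rintro k' p' hp' ⟨h5, h6⟩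
      have h7 := D.bad_mem hp' (c := 1) (u := u) (by norm_num) (by rw [one_mul]; exact h5)
        (by rw [one_mul]; exact h6)
      have h8 : κ m + s = k' := by
        have a1 := two_pow_lt h1 h7.2
        have a2 := two_pow_lt h7.1 hu2
        omega
      subst h8
      obtain ⟨h9, h10⟩ := D.pJ _ p' hp'
      have h11 : (2 : ℝ) ^ (κ m + s) * (1 + 19 * r (κ m + s)) <
          2 ^ (κ m + s) * (p' - r (κ m + s)) :=
        mul_lt_mul_of_pos_left (by linarith) (by positivity)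
      have h12 : (0 : ℝ) < 2 ^ (κ m + s) * r (κ m + s) := by linarith
      have h13 : (2 : ℝ) ^ (κ m + s) * (1 + 19 * r (κ m + s)) =
        2 ^ (κ m + s) + 19 * (2 ^ (κ m + s) * r (κ m + s)) := by ring
      linarith
    · rintro m' ⟨h5, h6⟩
      have h7 : κ m' < κ m + s + 1 := two_pow_lt' h5 hu2
      have h8 : κ m + s < κ m' + s := two_pow_lt'' h1 h6
      have h9 : m < m' := D.κm.lt_iff_lt.1 (by omega)
      have h10 : κ (m + 1) ≤ κ m' := D.κm.monotone h9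
      have := hM0 m k3
      omega
  obtain ⟨f, hf1, hf2, hf3⟩ := loc_gen H.mono (α := t) (ω := t * 2 ^ s) (δ := δ) (α' := t / 2) hδ0
    hl hr (ρ := fun u => h u - u) (fun u _ _ => rfl) (by linarith)
    (b := fun i => C * (t / 2) ^ (-1 - (i : ℝ))) (fun i => by positivity)
    (hDB (t / 2) (by linarith))
  set L : ℝ := t * (2 ^ s - 1) with hL
  have hL0 : 0 < L := mul_pos ht0 (by linarith)
  have hL1 : t ≤ L := by
    rw [hL]
    calc t = t * 1 := (mul_one t).symm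
      _ ≤ t * (2 ^ s - 1) := mul_le_mul_of_nonneg_left (by linarith) ht0.le
  have hL2 : L ≤ t * 2 ^ s := by rw [hL]; nlinarith
  refine ⟨f, by rw [hωe]; exact hf1, fun u h1 h2 => hf2 u h1 (by rw [← hωe]; exact h2), σ / t,
    by positivity, ?_, ?_, ?_⟩
  · have h1 : (1 : ℝ) ≤ 2 ^ (2 * s + 4) := one_le_pow₀ (by norm_num)
    calc σ / t ≤ σ := div_le_self hσ0.le ht1
      _ ≤ ε := div_le_self hε.le h1
  · have h1 : t + 4 * L ≤ t * 2 ^ (s + 2) := by
      rw [hL, pow_add]; nlinarith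
    calc (t + 4 * L) ^ 2 * (σ / t) / L ≤ (t * 2 ^ (s + 2)) ^ 2 * (σ / t) / t := by
          apply div_le_div₀ (by positivity) _ ht0 hL1
          exact mul_le_mul_of_nonneg_right (pow_le_pow_left₀ (by positivity) h1 2) (by positivity)
      _ = σ * 2 ^ (2 * s + 4) := by
          rw [mul_pow, ← pow_mul]
          field_simp
          ring
      _ ≤ ε := by rw [hσ]; field_simp; rfl
  · refine hf3.mono Subset.rfl ?_
    intro i hi
    have hb : C * (t / 2) ^ (-1 - (i : ℝ)) ≤ 32 * C / t ^ (i + 1) := by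
      have e1 : (t / 2) ^ (-1 - (i : ℝ)) = 2 ^ (i + 1) / t ^ (i + 1) := by
        rw [show (-1 - (i : ℝ)) = -((i + 1 : ℕ) : ℝ) by push_cast; ring,
          Real.rpow_neg (by positivity), Real.rpow_natCast, div_pow, inv_div]
      rw [e1]
      have e2 : (2 : ℝ) ^ (i + 1) ≤ 32 := by
        calc (2 : ℝ) ^ (i + 1) ≤ 2 ^ 5 := pow_le_pow_right₀ (by norm_num) (by omega)
          _ = 32 := by norm_num
      rw [← mul_div_assoc]
      apply div_le_div_of_nonneg_right _ (by positivity)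
      rw [mul_comm 32 C]
      exact mul_le_mul_of_nonneg_left e2 hC0.le
    refine hb.trans ?_
    rcases Nat.eq_zero_or_pos i with h0 | hi0
    · subst h0
      simp only [sub_zero, CharP.cast_eq_zero, zpow_one, zero_add, pow_one]
      have h3 : 32 * C ≤ σ ^ 2 := by
        rw [hCd]
        have : (1 : ℝ) ≤ 2 ^ (3 * s) := one_le_pow₀ (by norm_num)
        calc 32 * (σ ^ 2 / (32 * 2 ^ (3 * s))) = σ ^ 2 / 2 ^ (3 * s) := by field_simp
          _ ≤ σ ^ 2 := div_le_self (by positivity) this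
      calc 32 * C / t ≤ σ ^ 2 / t := div_le_div_of_nonneg_right h3 ht0.le
        _ = (σ / t) ^ 2 * t := by field_simp
        _ ≤ (σ / t) ^ 2 * L := mul_le_mul_of_nonneg_left hL1 (by positivity)
    · obtain ⟨j, rfl⟩ : ∃ j, i = j + 1 := ⟨i - 1, by omega⟩
      have e : (1 - ((j + 1 : ℕ) : ℤ)) = -(j : ℤ) := by push_cast; ring
      rw [e, zpow_neg, zpow_natCast]
      have h1 : L ^ j ≤ t ^ j * 2 ^ (3 * s) := by
        calc L ^ j ≤ (t * 2 ^ s) ^ j := pow_le_pow_left₀ hL0.le hL2 _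
          _ = t ^ j * 2 ^ (s * j) := by rw [mul_pow, ← pow_mul 2 s j]
          _ ≤ t ^ j * 2 ^ (3 * s) := by
            apply mul_le_mul_of_nonneg_left _ (by positivity)
            apply pow_le_pow_right₀ (by norm_num)
            nlinarith
      calc 32 * C / t ^ (j + 1 + 1) = (σ / t) ^ 2 * (t ^ j * 2 ^ (3 * s))⁻¹ := by
            rw [hCd, pow_succ t (j + 1), pow_succ t j]; field_simp
        _ ≤ (σ / t) ^ 2 * (L ^ j)⁻¹ := by
            apply mul_le_mul_of_nonneg_left _ (by positivity)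
            exact inv_anti₀ (by positivity) h1

end

end Pool.Agent.Germ
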