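import Pool.Agent.Helper19.Germ.Store
import Pool.Agent.Helper19.Germ.Loc

/-! Separation of the joints. -/

open Filter Topology Set

namespace Pool.Agent.Germ

def alJ (r : ℕ → ℝ) (_ : ℕ) (k : ℕ) (p : ℝ) : ℝ := 2 ^ k * (p - r k)
def LJ (r : ℕ → ℝ) (_ : ℕ) (k : ℕ) (_ : ℝ) : ℝ := 2 ^ k * (2 * r k)

variable {β : ℝ → ℝ} {κ : ℕ → ℕ} {J : ℕ → Finset ℝ} {r : ℕ → ℝ}

theorem amb_joint (D : BetaData β κ J r) {s k : ℕ} {p : ℝ} (hp : p ∈ J k) {y : ℝ}
    (h : y ∈ Amb (alJ r) (LJ r) (fun _ => 1) s k p) :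
    (2 : ℝ) ^ k < y ∧ y < 2 ^ (k + 1) ∧ 2 ^ k * (p - 20 * r k) ≤ y ∧
      y ≤ 2 ^ k * (p + 20 * r k) := by
  obtain ⟨h1, h2⟩ := h
  unfold alJ LJ at h1 h2
  have hr : 0 < 2 ^ k * r k := mul_pos (by positivity) (D.rpos k)
  have e1 : (2 : ℝ) ^ k * (p - 20 * r k) ≤ y := by
    have : (2 : ℝ) ^ k * (p - 20 * r k) =
      2 ^ k * (p - r k) - 1 * (2 ^ k * (2 * r k)) - 17 * (2 ^ k * r k) := by ring
    linarith
  have e2 : y ≤ (2 : ℝ) ^ k * (p + 20 * r k) := by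
    have : (2 : ℝ) ^ k * (p + 20 * r k) =
      2 ^ k * (p - r k) + 4 * (2 ^ k * (2 * r k)) + 13 * (2 ^ k * r k) := by ring
    linarith
  obtain ⟨h3, h4⟩ := D.bad_mem hp le_rfl e1 e2
  exact ⟨h3, h4, e1, e2⟩

theorem pow_cmp {a b : ℕ} (h : (2 : ℝ) ^ a < 2 ^ b) : a < b :=
  (pow_lt_pow_iff_right₀ (by norm_num : (1 : ℝ) < 2)).1 h

theorem sep_joint (D : BetaData β κ J r) : ∃ K0 : ℕ → ℕ,
    (∀ s s' k k' p p' x, K0 s ≤ k → K0 s' ≤ k' → p ∈ J k → p' ∈ J k' →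
      x / (3 : ℝ) ^ s ∈ Amb (alJ r) (LJ r) (fun _ => 1) s k p →
      x / (3 : ℝ) ^ s' ∈ Amb (alJ r) (LJ r) (fun _ => 1) s' k' p' → s = s' ∧ k = k' ∧ p = p') ∧
    (∀ s s' k k' p p' x, K0 s ≤ k → K0 s' ≤ k' → p ∈ J k → p' ∈ J k' →
      x / (5 : ℝ) ^ s ∈ Amb (alJ r) (LJ r) (fun _ => 1) s k p →
      x / (5 : ℝ) ^ s' ∈ Amb (alJ r) (LJ r) (fun _ => 1) s' k' p' → s = s' ∧ k = k' ∧ p = p') ∧
    (∀ s : ℕ, ∀ᶠ u in atTop, ∀ (s₁ s₂ k k' : ℕ) (p p' : ℝ), K0 s₁ ≤ k → K0 s₂ ≤ k' → p ∈ J k →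
      p' ∈ J k' → (3 : ℝ) ^ s * u / 3 ^ s₁ ∈ Amb (alJ r) (LJ r) (fun _ => 1) s₁ k p →
      (5 : ℝ) ^ s * u / 5 ^ s₂ ∈ Amb (alJ r) (LJ r) (fun _ => 1) s₂ k' p' →
      s₁ = s ∧ s₂ = s) := by
  choose K hK using D.sep
  -- reduction: `s ≤ s'`
  have keyA : ∀ s s' k k' p p' x, s ≤ s' → K s + 3 * s + 2 ≤ k → K s' + 3 * s' + 2 ≤ k' →
      p ∈ J k → p' ∈ J k' → x / (3 : ℝ) ^ s ∈ Amb (alJ r) (LJ r) (fun _ => 1) s k p →
      x / (3 : ℝ) ^ s' ∈ Amb (alJ r) (LJ r) (fun _ => 1) s' k' p' → s = s' ∧ k = k' ∧ p = p' := by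
    intro s s' k k' p p' x hss h1 h2 hp hp' h3 h4
    obtain ⟨d, rfl⟩ := Nat.exists_eq_add_of_le hss
    obtain ⟨a1, a2, a3, a4⟩ := amb_joint D hp h3
    obtain ⟨b1, b2, b3, b4⟩ := amb_joint D hp' h4
    have e : x / (3 : ℝ) ^ s = 3 ^ d * (x / 3 ^ (s + d)) := by
      rw [pow_add]; field_simp
    have h3d : (1 : ℝ) ≤ 3 ^ d := one_le_pow₀ (by norm_num)
    have hkk : k' < k + 1 := by
      apply pow_cmp
      calc (2 : ℝ) ^ k' < x / 3 ^ (s + d) := b1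
        _ ≤ 3 ^ d * (x / 3 ^ (s + d)) := by
          have : 0 < x / (3 : ℝ) ^ (s + d) := lt_trans (by positivity) b1
          nlinarith
        _ = x / 3 ^ s := e.symm
        _ < 2 ^ (k + 1) := a2
    obtain ⟨c1, -, c3, c4⟩ := hK (s + d) k' k (by omega) (by omega) p' hp' p hp (d : ℤ) 0
      (by rw [Nat.abs_cast]; push_cast; omega) (by rw [abs_zero]; positivity) (x / 3 ^ s)
      (by
        rw [zpow_natCast, e]
        exact mul_le_mul_of_nonneg_left b3 (by positivity))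
      (by
        rw [zpow_natCast, e]
        exact mul_le_mul_of_nonneg_left b4 (by positivity))
      (by rw [zpow_zero, one_mul]; exact a3) (by rw [zpow_zero, one_mul]; exact a4)
    have : d = 0 := by exact_mod_cast c1
    exact ⟨by omega, c3.symm, c4.symm⟩
  have keyC : ∀ s s' k k' p p' x, s ≤ s' → K s + 3 * s + 2 ≤ k → K s' + 3 * s' + 2 ≤ k' →
      p ∈ J k → p' ∈ J k' → x / (5 : ℝ) ^ s ∈ Amb (alJ r) (LJ r) (fun _ => 1) s k p →
      x / (5 : ℝ) ^ s' ∈ Amb (alJ r) (LJ r) (fun _ => 1) s' k' p' → s = s' ∧ k = k' ∧ p = p' := by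
    intro s s' k k' p p' x hss h1 h2 hp hp' h3 h4
    obtain ⟨d, rfl⟩ := Nat.exists_eq_add_of_le hss
    obtain ⟨a1, a2, a3, a4⟩ := amb_joint D hp h3
    obtain ⟨b1, b2, b3, b4⟩ := amb_joint D hp' h4
    have e : x / (5 : ℝ) ^ s = 5 ^ d * (x / 5 ^ (s + d)) := by
      rw [pow_add]; field_simp
    have h3d : (1 : ℝ) ≤ 5 ^ d := one_le_pow₀ (by norm_num)
    have hkk : k' < k + 1 := by
      apply pow_cmp
      calc (2 : ℝ) ^ k' < x / 5 ^ (s + d) := b1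
        _ ≤ 5 ^ d * (x / 5 ^ (s + d)) := by
          have : 0 < x / (5 : ℝ) ^ (s + d) := lt_trans (by positivity) b1
          nlinarith
        _ = x / 5 ^ s := e.symm
        _ < 2 ^ (k + 1) := a2
    obtain ⟨-, c1, c3, c4⟩ := hK (s + d) k k' (by omega) (by omega) p hp p' hp' 0 (d : ℤ)
      (by rw [abs_zero]; positivity) (by rw [Nat.abs_cast]; push_cast; omega) (x / 5 ^ s)
      (by rw [zpow_zero, one_mul]; exact a3) (by rw [zpow_zero, one_mul]; exact a4)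
      (by
        rw [zpow_natCast, e]
        exact mul_le_mul_of_nonneg_left b3 (by positivity))
      (by
        rw [zpow_natCast, e]
        exact mul_le_mul_of_nonneg_left b4 (by positivity))
    have : d = 0 := by exact_mod_cast c1
    exact ⟨by omega, c3, c4⟩
  refine ⟨fun s => K s + 3 * s + 2, ?_, ?_, ?_⟩
  · intro s s' k k' p p' x h1 h2 hp hp' h3 h4
    rcases le_total s s' with h | h
    · exact keyA s s' k k' p p' x h h1 h2 hp hp' h3 h4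
    · obtain ⟨e1, e2, e3⟩ := keyA s' s k' k p' p x h h2 h1 hp' hp h4 h3
      exact ⟨e1.symm, e2.symm, e3.symm⟩
  · intro s s' k k' p p' x h1 h2 hp hp' h3 h4
    rcases le_total s s' with h | h
    · exact keyC s s' k k' p p' x h h1 h2 hp hp' h3 h4
    · obtain ⟨e1, e2, e3⟩ := keyC s' s k' k p' p x h h2 h1 hp' hp h4 h3
      exact ⟨e1.symm, e2.symm, e3.symm⟩
  · intro s
    filter_upwards [eventually_ge_atTop ((2 : ℝ) ^ (K s + 1))] with u hu s₁ s₂ k k' p p' h1 h2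
      hp hp' h3 h4
    obtain ⟨a1, a2, a3, a4⟩ := amb_joint D hp h3
    obtain ⟨b1, b2, b3, b4⟩ := amb_joint D hp' h4
    have hu0 : 0 < u := lt_of_lt_of_le (by positivity) hu
    have t3 : (0 : ℝ) < 3 ^ s := by positivity
    have t5 : (0 : ℝ) < 5 ^ s := by positivity
    have t31 : (0 : ℝ) < 3 ^ s₁ := by positivity
    have t52 : (0 : ℝ) < 5 ^ s₂ := by positivity
    -- size comparisons: `2^k 3^s₁ < 3^s u < 2^(k+1) 3^s₁`, `2^k' 5^s₂ < 5^s u < 2^(k'+1) 5^s₂`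
    rw [lt_div_iff₀ t31] at a1
    rw [div_lt_iff₀ t31] at a2
    rw [lt_div_iff₀ t52] at b1
    rw [div_lt_iff₀ t52] at b2
    have x1 : (2 : ℝ) ^ k * 3 ^ s₁ * 5 ^ s < 2 ^ (k' + 1) * 5 ^ s₂ * 3 ^ s := by
      calc (2 : ℝ) ^ k * 3 ^ s₁ * 5 ^ s < (3 ^ s * u) * 5 ^ s := mul_lt_mul_of_pos_right a1 t5
        _ = (5 ^ s * u) * 3 ^ s := by ring
        _ < 2 ^ (k' + 1) * 5 ^ s₂ * 3 ^ s := mul_lt_mul_of_pos_right b2 t3
    have x2 : (2 : ℝ) ^ k' * 5 ^ s₂ * 3 ^ s < 2 ^ (k + 1) * 3 ^ s₁ * 5 ^ s := by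
      calc (2 : ℝ) ^ k' * 5 ^ s₂ * 3 ^ s < (5 ^ s * u) * 3 ^ s := mul_lt_mul_of_pos_right b1 t3
        _ = (3 ^ s * u) * 5 ^ s := by ring
        _ < 2 ^ (k + 1) * 3 ^ s₁ * 5 ^ s := mul_lt_mul_of_pos_right a2 t5
    obtain ⟨M, hM1, hM2, hM3, hMk, hMk'⟩ : ∃ M, s ≤ M ∧ s₁ ≤ M ∧ s₂ ≤ M ∧ K M ≤ k ∧ K M ≤ k' := by
      -- `k` large when `s₁ ≤ s`
      have l1 : s₁ ≤ s → K s ≤ k := by
        intro h
        have : K s + 1 < k + 1 := by
          apply pow_cmp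
          have h5 : (3 : ℝ) ^ s₁ ≤ 3 ^ s := pow_le_pow_right₀ (by norm_num) h
          have h6 : (3 : ℝ) ^ s * u < 2 ^ (k + 1) * 3 ^ s :=
            a2.trans_le (mul_le_mul_of_nonneg_left h5 (by positivity))
          have h7 : u < 2 ^ (k + 1) := by
            rw [mul_comm] at h6
            exact lt_of_mul_lt_mul_right h6 t3.le
          linarith
        omega
      have l2 : s₂ ≤ s → K s ≤ k' := by
        intro h
        have : K s + 1 < k' + 1 := by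
          apply pow_cmp
          have h5 : (5 : ℝ) ^ s₂ ≤ 5 ^ s := pow_le_pow_right₀ (by norm_num) h
          have h6 : (5 : ℝ) ^ s * u < 2 ^ (k' + 1) * 5 ^ s :=
            b2.trans_le (mul_le_mul_of_nonneg_left h5 (by positivity))
          have h7 : u < 2 ^ (k' + 1) := by
            rw [mul_comm] at h6
            exact lt_of_mul_lt_mul_right h6 t5.le
          linarith
        omega
      by_cases c1 : s₁ ≤ s
      · by_cases c2 : s₂ ≤ s
        · exact ⟨s, le_rfl, c1, c2, l1 c1, l2 c2⟩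
        · -- `s₂ > s ≥ s₁`
          push Not at c2
          refine ⟨s₂, c2.le, by omega, le_rfl, ?_, by omega⟩
          have : k' < k + 1 := by
            apply pow_cmp
            have h5 : (3 : ℝ) ^ s₁ ≤ 3 ^ s := pow_le_pow_right₀ (by norm_num) c1
            have h6 : (5 : ℝ) ^ s ≤ 5 ^ s₂ := pow_le_pow_right₀ (by norm_num) c2.le
            by_contra hcon
            push Not at hcon
            have h7 : (2 : ℝ) ^ (k + 1) * 3 ^ s₁ * 5 ^ s ≤ 2 ^ k' * 3 ^ s * 5 ^ s₂ := by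
              gcongr
            linarith [show (2 : ℝ) ^ k' * 3 ^ s * 5 ^ s₂ = 2 ^ k' * 5 ^ s₂ * 3 ^ s by ring]
          omega
      · push Not at c1
        by_cases c2 : s₂ ≤ s₁
        · refine ⟨s₁, c1.le, le_rfl, c2, by omega, ?_⟩
          -- `2^(k'+1) > 2^(k - s₁)`
          have : k < k' + 1 + s₁ := by
            apply pow_cmp
            by_contra hcon
            push Not at hcon
            -- `5^s₂ 3^s ≤ 2^s₁ 3^s₁ 5^s`
            have h7 : (5 : ℝ) ^ s₂ * 3 ^ s ≤ 2 ^ s₁ * 3 ^ s₁ * 5 ^ s := by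
              obtain ⟨d, rfl⟩ := Nat.exists_eq_add_of_le c1.le
              calc (5 : ℝ) ^ s₂ * 3 ^ s ≤ 5 ^ (s + d) * 3 ^ s := by
                    gcongr
                    norm_num
                _ = (5 ^ d) * (3 ^ s * 5 ^ s) := by rw [pow_add]; ring
                _ ≤ (6 ^ d) * (3 ^ s * 5 ^ s) := by gcongr; norm_num
                _ = (2 ^ d * 3 ^ d) * (3 ^ s * 5 ^ s) := by
                    rw [show (6 : ℝ) = 2 * 3 by norm_num, mul_pow]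
                _ ≤ (2 ^ (s + d) * 3 ^ d) * (3 ^ s * 5 ^ s) := by
                    gcongr
                    · norm_num
                    · omega
                _ = 2 ^ (s + d) * 3 ^ (s + d) * 5 ^ s := by
                    rw [pow_add 3 s d]; ring
            have h8 : (2 : ℝ) ^ (k' + 1) * (5 ^ s₂ * 3 ^ s) ≤
                2 ^ (k' + 1) * (2 ^ s₁ * 3 ^ s₁ * 5 ^ s) := by gcongr
            have h9 : (2 : ℝ) ^ (k' + 1) * (2 ^ s₁ * 3 ^ s₁ * 5 ^ s) ≤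
                2 ^ k * 3 ^ s₁ * 5 ^ s := by
              rw [pow_add 2 (k' + 1) s₁] at hcon
              calc (2 : ℝ) ^ (k' + 1) * (2 ^ s₁ * 3 ^ s₁ * 5 ^ s) =
                    (2 ^ (k' + 1) * 2 ^ s₁) * 3 ^ s₁ * 5 ^ s := by ring
                _ ≤ _ := by gcongr
            linarith [show (2 : ℝ) ^ (k' + 1) * 5 ^ s₂ * 3 ^ s =
              2 ^ (k' + 1) * (5 ^ s₂ * 3 ^ s) by ring]
          omega
        · push Not at c2
          refine ⟨s₂, by omega, c2.le, le_rfl, ?_, by omega⟩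
          have : k' < k + 1 := by
            apply pow_cmp
            by_contra hcon
            push Not at hcon
            -- `3^s₁ 5^s ≤ 5^s₂ 3^s`
            have h7 : (3 : ℝ) ^ s₁ * 5 ^ s ≤ 5 ^ s₂ * 3 ^ s := by
              obtain ⟨d, rfl⟩ := Nat.exists_eq_add_of_le c1.le
              calc (3 : ℝ) ^ (s + d) * 5 ^ s = 3 ^ d * (3 ^ s * 5 ^ s) := by rw [pow_add]; ring
                _ ≤ 5 ^ d * (3 ^ s * 5 ^ s) := by gcongr; norm_num
                _ = 5 ^ (s + d) * 3 ^ s := by rw [pow_add]; ring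
                _ ≤ 5 ^ s₂ * 3 ^ s := by gcongr; norm_num
            have h8 : (2 : ℝ) ^ (k + 1) * (3 ^ s₁ * 5 ^ s) ≤ 2 ^ k' * (5 ^ s₂ * 3 ^ s) := by
              gcongr
            linarith [show (2 : ℝ) ^ k' * 5 ^ s₂ * 3 ^ s = 2 ^ k' * (5 ^ s₂ * 3 ^ s) by ring,
              show (2 : ℝ) ^ (k + 1) * 3 ^ s₁ * 5 ^ s = 2 ^ (k + 1) * (3 ^ s₁ * 5 ^ s) by ring]
          omega
    have z1 : ∀ y, (3 : ℝ) ^ ((s₁ : ℤ) - s) * y = y * 3 ^ s₁ / 3 ^ s := fun y => by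
      rw [zpow_sub₀ (by norm_num), zpow_natCast, zpow_natCast]; ring
    have z2 : ∀ y, (5 : ℝ) ^ ((s₂ : ℤ) - s) * y = y * 5 ^ s₂ / 5 ^ s := fun y => by
      rw [zpow_sub₀ (by norm_num), zpow_natCast, zpow_natCast]; ring
    rw [le_div_iff₀ t31] at a3
    rw [div_le_iff₀ t31] at a4
    rw [le_div_iff₀ t52] at b3
    rw [div_le_iff₀ t52] at b4
    obtain ⟨c1, c2, -, -⟩ := hK M k k' hMk hMk' p hp p' hp' ((s₁ : ℤ) - s) ((s₂ : ℤ) - s)
      (by rw [abs_le]; constructor <;> omega)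
      (by rw [abs_le]; constructor <;> omega) u
      (by rw [z1, div_le_iff₀ t3]; linarith) (by rw [z1, le_div_iff₀ t3]; linarith)
      (by rw [z2, div_le_iff₀ t5]; linarith) (by rw [z2, le_div_iff₀ t5]; linarith)
    constructor <;> omega

end Pool.Agent.Germ
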