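import Pool.Agent.Helper19.Germ.Loc
import Pool.Agent.Helper19.Germ.SepJ
import Pool.Agent.Helper41.Germ.Sep

/-! Assembly on one half-line. -/

open Filter Topology Set

namespace Pool.Agent.Germ

theorem Dil_pow (c : ℝ) (hc : c ≠ 0) (n : ℕ) (h : c ^ n ≠ 0) : Dil (c ^ n) h = Dil c hc ^ n := by
  ext u
  rw [Dil_apply, Dil_pow_apply]

theorem claim_aux {β : ℝ → ℝ} {κ : ℕ → ℕ} {J : ℕ → Finset ℝ} {r : ℕ → ℝ}
    (D : BetaData β κ J r) (s : ℕ) (hs : Equiv.Perm ℝ) (H : HS κ J r (s + 1) hs)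
    (WJ WT : Equiv.Perm ℝ)
    (hwJ : ∀ᶠ u in atTop,
      (∀ k, ∀ p ∈ J k, (∀ m, ¬ (κ m ≤ k ∧ k < κ m + (s + 1))) → alJ r s k p ≤ u →
        u ≤ alJ r s k p + LJ r s k p → WJ u = hs u) ∧
      ((∀ k, ∀ p ∈ J k, (∀ m, ¬ (κ m ≤ k ∧ k < κ m + (s + 1))) →
        ¬ (alJ r s k p ≤ u ∧ u ≤ alJ r s k p + LJ r s k p)) → WJ u = u))
    (hwT : ∀ᶠ u in atTop,
      (∀ k, ∀ p ∈ ({0} : Finset ℝ), True → alT κ s k p ≤ u →
        u ≤ alT κ s k p + LT κ s k p → WT u = hs u) ∧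
      ((∀ k, ∀ p ∈ ({0} : Finset ℝ), True →
        ¬ (alT κ s k p ≤ u ∧ u ≤ alT κ s k p + LT κ s k p)) → WT u = u)) :
    ∀ᶠ v in atTop, WJ (WT v) = hs v := by
  have hhst : Tendsto hs atTop atTop := by
    refine tendsto_atTop_atTop_of_monotone H.mono.monotone (fun b => ⟨hs⁻¹ b, ?_⟩)
    rw [← Equiv.Perm.mul_apply, mul_inv_cancel]; exact le_rfl
  -- large `v` in a transition interval has large index
  obtain ⟨M0, hM0⟩ := eventually_atTop.1 (loc_trans D (s + 1) (by omega) hs H 1 one_pos)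
  filter_upwards [hwT, hwJ, hhst.eventually hwJ, H.off,
    eventually_gt_atTop ((2 : ℝ) ^ (κ M0 + (s + 1)))] with v v1 v2 v3 v4 v5
  have hLT : ∀ m, (2 : ℝ) ^ κ m + LT κ s m 0 = 2 ^ (κ m + (s + 1)) := by
    intro m; unfold LT; rw [pow_add]; ring
  by_cases hcase : ∃ m, (2 : ℝ) ^ κ m ≤ v ∧ v ≤ 2 ^ (κ m + (s + 1))
  · obtain ⟨m, m1, m2⟩ := hcase
    have e1 : WT v = hs v := v1.1 m 0 (Finset.mem_singleton_self 0) trivial m1
      (by change v ≤ (2 : ℝ) ^ κ m + LT κ s m 0; rw [hLT]; exact m2)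
    rw [e1]
    have hmM : M0 ≤ m := by
      by_contra hlt
      have : κ m < κ M0 := D.κm (not_le.1 hlt)
      have h3 : (2 : ℝ) ^ (κ m + (s + 1)) ≤ 2 ^ (κ M0 + (s + 1)) :=
        pow_le_pow_right₀ (by norm_num) (by omega)
      linarith
    obtain ⟨f, f1, f2, -⟩ := hM0 m hmM
    have hin : hs v ∈ Icc ((2 : ℝ) ^ κ m) (2 ^ (κ m + (s + 1))) := by
      have hω : (2 : ℝ) ^ κ m + 2 ^ κ m * (2 ^ (s + 1) - 1) = 2 ^ (κ m + (s + 1)) := by
        rw [pow_add]; ring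
      rw [hω] at f1 f2
      rw [← f2 v m1 m2]
      exact f1.mem ⟨m1, m2⟩
    refine v3.2 ?_
    rintro k p hp hkok ⟨b1, b2⟩
    have b3 : hs v ≤ 2 ^ k * (p + 1 * r k) := by
      refine b2.trans (le_of_eq ?_)
      unfold alJ LJ; ring
    have b4 := D.bad_mem hp (c := 1) (u := hs v) (by norm_num)
      (by rw [one_mul]; exact b1) b3
    exact hkok m ⟨Nat.lt_succ_iff.1 (two_pow_lt' hin.1 b4.2), two_pow_lt'' b4.1 hin.2⟩
  · push Not at hcase
    have e1 : WT v = v := by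
      refine v1.2 ?_
      rintro m p hp - ⟨b1, b2⟩
      rw [Finset.mem_singleton.1 hp] at b2
      have b3 : v ≤ (2 : ℝ) ^ κ m + LT κ s m 0 := b2
      rw [hLT] at b3
      exact absurd b3 (not_le.2 (hcase m b1))
    rw [e1]
    by_cases hc2 : ∃ k, ∃ p ∈ J k, 2 ^ k * (p - r k) ≤ v ∧ v ≤ 2 ^ k * (p + r k)
    · obtain ⟨k, p, hp, b1, b2⟩ := hc2
      have b4 := D.bad_mem hp (c := 1) (u := v) (by norm_num)
        (by rw [one_mul]; exact b1) (by rw [one_mul]; exact b2)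
      have hkok : ∀ m, ¬ (κ m ≤ k ∧ k < κ m + (s + 1)) := by
        rintro m ⟨c1, c2⟩
        have d1 : (2 : ℝ) ^ κ m ≤ v := le_trans (pow_le_pow_right₀ (by norm_num) c1) b4.1.le
        have d2 : v ≤ (2 : ℝ) ^ (κ m + (s + 1)) :=
          b4.2.le.trans (pow_le_pow_right₀ (by norm_num) (by omega))
        exact absurd d2 (not_le.2 (hcase m d1))
      refine v2.1 k p hp hkok b1 (b2.trans (le_of_eq ?_))
      unfold alJ LJ; ring
    · push Not at hc2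
      have e2 : WJ v = v := by
        refine v2.2 ?_
        rintro k p hp - ⟨b1, b2⟩
        have b3 : v ≤ 2 ^ k * (p + r k) := by
          refine b2.trans (le_of_eq ?_)
          unfold alJ LJ; ring
        exact absurd b3 (not_le.2 (hc2 k p hp b1))
      rw [e2]
      refine (v4 ?_ ?_).symm
      · rintro k p hp ⟨b1, b2⟩
        exact absurd b2 (not_le.2 (hc2 k p hp b1))
      · rintro m ⟨b1, b2⟩
        exact absurd b2 (not_le.2 (hcase m b1))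

theorem half_word (hP : Perfect) {β : ℝ → ℝ} {κ : ℕ → ℕ} {J : ℕ → Finset ℝ} {r : ℕ → ℝ}
    (D : BetaData β κ J r) {τ U : ℝ} {T : ℝ → ℝ} {Ψ : ℝ → Equiv.Perm ℝ} {X B : Equiv.Perm ℝ}
    (h : Maps β τ U T Ψ X B) (hτ : |τ| = 1) :
    ∃ A C A' C' : Fin 3 → Equiv.Perm ℝ,
      (∀ l, Adm 1 0 (A l) ∧ Adm 1 0 (C l)) ∧ (∀ l, Adm 1 0 (A' l) ∧ Adm 1 0 (C' l)) ∧
      ∀ s : ℕ, ∀ᶠ u in atTop, ((Ψ τ) ^ (4 ^ (s + 1))) u =
        (W3 ((Dil 3 three_ne_zero) ^ s) ((Dil 5 (by norm_num)) ^ s) A C *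
          W3 ((Dil 2 two_ne_zero) ^ (10 * 3 ^ s)) ((Dil 2 two_ne_zero) ^ (20 * 3 ^ s)) A' C' *
          ((Dil 2 two_ne_zero) ^ (s + 1) * X ^ (2 ^ (s + 1)) * B *
            ((Dil 2 two_ne_zero) ^ (s + 1))⁻¹)) u := by
  set hs : ℕ → Equiv.Perm ℝ := fun s => (Ψ τ) ^ (4 ^ (s + 1)) * (wrd X B (s + 1))⁻¹ with hhs
  have H : ∀ s, HS κ J r (s + 1) (hs s) := fun s => exists_HS D h hτ (s + 1)
  set ok : ℕ → ℕ → Prop := fun s k => ∀ m, ¬ (κ m ≤ k ∧ k < κ m + (s + 1)) with hok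
  -- joint store
  obtain ⟨KJ, sJ1, sJ2, sJ3⟩ := sep_joint D
  obtain ⟨A, C, hAC, hWJ⟩ := store J (alJ r) (LJ r) (fun _ => 1) ok hP (fun s => 3 ^ s)
    (fun s => 5 ^ s) (fun s => one_le_pow₀ (by norm_num)) (fun s => one_le_pow₀ (by norm_num))
    (fun s => by positivity) (fun s => by positivity) (fun s => ⟨one_pos, le_rfl⟩) hs
    (fun s => Eventually.of_forall fun k p hp _ => by
      have hr := D.rpos k
      obtain ⟨h1, h2⟩ := D.pJ k p hp
      refine ⟨by unfold LJ; positivity, ?_⟩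
      unfold LJ alJ
      have h3 : (k : ℝ) < 2 ^ k := by exact_mod_cast Nat.lt_two_pow_self
      have h4 : (2 : ℝ) ^ k * 1 < 2 ^ k * (p - 3 * r k) :=
        mul_lt_mul_of_pos_left (by linarith) (by positivity)
      linarith)
    (fun s ε hε => by
      filter_upwards [loc_joint D (s + 1) (hs s) (H s) ε hε] with k hk p hp hkok
      exact hk p hp hkok)
    KJ
    (fun s s' k k' p p' x a1 a2 a3 a4 _ _ a5 a6 => sJ1 s s' k k' p p' x a1 a2 a3 a4 a5 a6)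
    (fun s s' k k' p p' x a1 a2 a3 a4 _ _ a5 a6 => sJ2 s s' k k' p p' x a1 a2 a3 a4 a5 a6)
    (fun s => by
      filter_upwards [sJ3 s] with u hu s₁ s₂ k k' p p' a1 a2 a3 a4 _ _ a5 a6
      exact hu s₁ s₂ k k' p p' a1 a2 a3 a4 a5 a6)
  -- store of the sparse scales
  obtain ⟨KT, sT1, sT2, sT3⟩ := sep_trans κ D.κm D.κg
  obtain ⟨A', C', hAC', hWT⟩ := store (fun _ => {0}) (alT κ) (LT κ) (fun s => 1 / 2 ^ (s + 2))
    (fun _ _ => True) hP (fun s => 2 ^ (10 * 3 ^ s))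
    (fun s => 2 ^ (20 * 3 ^ s)) (fun s => one_le_pow₀ (by norm_num))
    (fun s => one_le_pow₀ (by norm_num))
    (fun s => by positivity) (fun s => by positivity) (fun s => ⟨by positivity, by
      rw [div_le_one (by positivity)]; exact one_le_pow₀ (by norm_num)⟩) hs
    (fun s => by
      filter_upwards [eventually_ge_atTop 4] with m hm p hp _
      have h2s : (2 : ℝ) ≤ 2 ^ (s + 1) := by
        calc (2 : ℝ) = 2 ^ 1 := by norm_num
          _ ≤ 2 ^ (s + 1) := pow_le_pow_right₀ (by norm_num) (by omega)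
      have ht : (0 : ℝ) < 2 ^ κ m := by positivity
      unfold LT alT
      refine ⟨mul_pos ht (by linarith), ?_⟩
      have h1 : 2 * m < 2 ^ m := by
        clear * - hm
        induction m, hm using Nat.le_induction with
        | base => norm_num
        | succ n hn ih => rw [pow_succ]; omega
      have h2 : 2 * m < 2 ^ κ m := h1.trans_le (Nat.pow_le_pow_right (by norm_num) (D.κm.id_le m))
      have h3 : 2 * (m : ℝ) < 2 ^ κ m := by exact_mod_cast h2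
      have h4 : (1 : ℝ) / 2 ^ (s + 2) * (2 ^ κ m * (2 ^ (s + 1) - 1)) ≤ 2 ^ κ m / 2 := by
        rw [pow_succ 2 (s + 1), one_div, inv_mul_le_iff₀ (by positivity)]
        nlinarith
      linarith)
    (fun s ε hε => by
      filter_upwards [loc_trans D (s + 1) (by omega) (hs s) (H s) ε hε] with m hm p hp _
      exact hm)
    KT
    (fun s s' k k' p p' x a1 a2 a3 a4 _ _ a5 a6 => by
      obtain ⟨e1, e2⟩ := sT1 s s' k k' p p' x a1 a2 a5 a6
      refine ⟨e1, e2, ?_⟩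
      rw [Finset.mem_singleton] at a3 a4
      rw [a3, a4])
    (fun s s' k k' p p' x a1 a2 a3 a4 _ _ a5 a6 => by
      obtain ⟨e1, e2⟩ := sT2 s s' k k' p p' x a1 a2 a5 a6
      refine ⟨e1, e2, ?_⟩
      rw [Finset.mem_singleton] at a3 a4
      rw [a3, a4])
    (fun s => by
      filter_upwards [sT3 s] with u hu s₁ s₂ k k' p p' a1 a2 a3 a4 _ _ a5 a6
      exact hu s₁ s₂ k k' p p' a1 a2 a5 a6)
  refine ⟨A, C, A', C', hAC, hAC', fun s => ?_⟩
  have hwJ := hWJ s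
  have hwT := hWT s
  simp only [Dil_pow 3 three_ne_zero, Dil_pow 5 (by norm_num : (5 : ℝ) ≠ 0)] at hwJ
  simp only [Dil_pow 2 two_ne_zero] at hwT
  have claim := claim_aux D s (hs s) (H s) _ _ hwJ hwT
  have hwt : Tendsto (wrd X B (s + 1)) atTop atTop := by
    have h1 := wrd_expand (τ := τ) D.sy' X B (h.expandX D.sy') (h.expandB D.sy') (s + 1)
    exact (NL_of_sub le_rfl (wrd_sy0 D.sy' X B (s + 1) h1)).tendsto
  filter_upwards [hwt.eventually claim] with u hu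
  have e : (Dil 2 two_ne_zero) ^ (s + 1) * X ^ (2 ^ (s + 1)) * B *
            ((Dil 2 two_ne_zero) ^ (s + 1))⁻¹ = wrd X B (s + 1) := rfl
  rw [e, Equiv.Perm.mul_apply, Equiv.Perm.mul_apply, hu, hhs]
  change _ = ((Ψ τ) ^ (4 ^ (s + 1)) * (wrd X B (s + 1))⁻¹) (wrd X B (s + 1) u)
  rw [Equiv.Perm.mul_apply, ← Equiv.Perm.mul_apply (wrd X B (s + 1))⁻¹, inv_mul_cancel,
    Equiv.Perm.one_apply]

end Pool.Agent.Germ
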