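import Pool.Agent.Helper19.Germ.DB

/-! The error maps `h_s = G^(4^s) w_s⁻¹`. -/

open Filter Topology Set

namespace Pool.Agent.Germ

/-- the output of the construction of the residue function -/
structure BetaData (β : ℝ → ℝ) (κ : ℕ → ℕ) (J : ℕ → Finset ℝ) (r : ℕ → ℝ) : Prop where
  smooth : ContDiff ℝ 8 β
  sy : Sy 7 (-1 + 1/8) β
  t0 : Tendsto (fun u => u * β u) atTop (𝓝 1)
  t1 : Tendsto (fun u => u ^ 2 * deriv β u) atTop (𝓝 (-1))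
  int : ∃ L, Tendsto (fun u => (∫ v in (1:ℝ)..u, β v) - Real.log u) atTop (𝓝 L)
  κm : StrictMono κ
  κg : Tendsto (fun m => κ (m + 1) - κ m) atTop atTop
  pJ : ∀ k, ∀ p ∈ J k, 1 < p - 20 * r k ∧ p + 20 * r k < 2
  rlow : ∀ᶠ k : ℕ in atTop, (2 : ℝ) ^ (-(k : ℝ) / 8) ≤ r k
  rpos : ∀ k, 0 < r k
  ex : ∀ (s : ℕ) (c : ℝ), ∀ᶠ u in atTop,
      (∀ k, ∀ p ∈ J k, ¬ (2 ^ k * (p - r k) ≤ u ∧ u ≤ 2 ^ k * (p + r k))) →
      (∀ m, ¬ ((2 : ℝ) ^ κ m ≤ u ∧ u ≤ 2 ^ (κ m + s))) →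
      ∃ p q : ℝ, p ≠ 0 ∧ ∀ x, |x - u| ≤ c → β x = p * x + q ∧
        β (x / 2 ^ s) = 2 ^ s * (p * x + q)
  hom : ∀ s : ℕ, So 4 (-1) (fun u => 4 ^ s * β u - 2 ^ s * β (u / 2 ^ s)) ∧
      ∀ᶠ u in atTop, (∀ m, ¬ ((2 : ℝ) ^ κ m < u ∧ u < 2 ^ (κ m + s))) →
        4 ^ s * β u - 2 ^ s * β (u / 2 ^ s) = 0
  sep : ∀ M : ℕ, ∃ K : ℕ, ∀ k k' : ℕ, K ≤ k → K ≤ k' → ∀ p ∈ J k, ∀ p' ∈ J k', ∀ i j : ℤ,
      |i| ≤ M → |j| ≤ M → ∀ x : ℝ,
        (3 : ℝ) ^ i * (2 ^ k * (p - 20 * r k)) ≤ x → x ≤ (3 : ℝ) ^ i * (2 ^ k * (p + 20 * r k)) →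
        (5 : ℝ) ^ j * (2 ^ k' * (p' - 20 * r k')) ≤ x →
        x ≤ (5 : ℝ) ^ j * (2 ^ k' * (p' + 20 * r k')) → i = 0 ∧ j = 0 ∧ k = k' ∧ p = p'

/-- properties of the error map -/
structure HS (κ : ℕ → ℕ) (J : ℕ → Finset ℝ) (r : ℕ → ℝ) (s : ℕ) (h : Equiv.Perm ℝ) : Prop where
  mono : StrictMono h
  off : ∀ᶠ u in atTop, (∀ k, ∀ p ∈ J k, ¬ (2 ^ k * (p - r k) ≤ u ∧ u ≤ 2 ^ k * (p + r k))) →
      (∀ m, ¬ ((2 : ℝ) ^ κ m ≤ u ∧ u ≤ 2 ^ (κ m + s))) → h u = u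
  so : So 4 (-1) (fun u => h u - u)
  sy : ∃ ρ : ℝ → ℝ, Sy 4 (-15/8) ρ ∧ ∃ C : ℝ, ∀ᶠ u in atTop,
    (∀ m, ∀ x, |x - u| ≤ C → ¬ ((2 : ℝ) ^ κ m < x ∧ x < 2 ^ (κ m + s))) → h u - u = ρ u

theorem So.add' {n : ℕ} {m : ℝ} {f g : ℝ → ℝ} (hf : So n m f) (hg : So n m g) :
    So n m (fun u => f u + g u) := by
  intro C hC
  have := (hf (C / 2) (by positivity)).add (hg (C / 2) (by positivity))
  simpa using this

/-- a symbol of smaller order is an `o`-symbol -/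
theorem Sy.so {n : ℕ} {m m' : ℝ} (hm : m < m') {f : ℝ → ℝ} (h : Sy n m f) : So n m' f := by
  obtain ⟨C, hC0, hC⟩ := h.pos
  intro ε hε
  have base : ∀ {k k' : ℝ} {f : ℝ → ℝ}, k < k' → k' - k = m' - m →
      (∀ᶠ u in atTop, |f u| ≤ C * u ^ k) → ∀ᶠ u in atTop, |f u| ≤ ε * u ^ k' := by
    intro k k' f hk hk2 hf
    have ht : Tendsto (fun u : ℝ => C * u ^ (k - k')) atTop (𝓝 0) := by
      have := (tendsto_rpow_neg_atTop (y := k' - k) (by linarith)).const_mul C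
      simpa using this
    filter_upwards [hf, ht.eventually (ge_mem_nhds hε), eventually_gt_atTop 0] with u h1 h2 h3
    calc |f u| ≤ C * u ^ k := h1
      _ = (C * u ^ (k - k')) * u ^ k' := by
        rw [mul_assoc, ← Real.rpow_add h3]; congr 2; ring
      _ ≤ ε * u ^ k' := mul_le_mul_of_nonneg_right h2 (by positivity)
  clear h
  have key : ∀ (n : ℕ) (k k' : ℝ) (f : ℝ → ℝ), k < k' → k' - k = m' - m → SC n k C f →
      SC n k' ε f := by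
    intro n
    induction n with
    | zero => intro k k' f h1 h2 h3; exact base h1 h2 h3
    | succ n ih =>
      intro k k' f h1 h2 h3
      exact ⟨base h1 h2 h3.1, h3.2.1, ih _ _ _ (by linarith) (by linarith) h3.2.2⟩
  exact key n m m' f hm rfl hC

theorem So.congr' {n : ℕ} {m : ℝ} {f g : ℝ → ℝ} (h : So n m f) (hfg : f =ᶠ[atTop] g) :
    So n m g := fun C hC => (h C hC).congr hfg

theorem BetaData.sy' {β : ℝ → ℝ} {κ : ℕ → ℕ} {J : ℕ → Finset ℝ} {r : ℕ → ℝ}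
    (D : BetaData β κ J r) : Sy 7 (-7/8) β := by
  have := D.sy
  rwa [show (-1 + 1/8 : ℝ) = -7/8 by norm_num] at this

theorem exists_HS {β : ℝ → ℝ} {κ : ℕ → ℕ} {J : ℕ → Finset ℝ} {r : ℕ → ℝ}
    (D : BetaData β κ J r) {τ U : ℝ} {T : ℝ → ℝ} {Ψ : ℝ → Equiv.Perm ℝ} {X B : Equiv.Perm ℝ}
    (h : Maps β τ U T Ψ X B) (hτ : |τ| = 1) (s : ℕ) :
    HS κ J r s ((Ψ τ) ^ (4 ^ s) * (wrd X B s)⁻¹) := by
  have hβ := D.sy'
  have hτ2 : τ * τ = 1 := by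
    have := abs_mul_abs_self τ
    rw [hτ] at this; linarith
  have hpow := h.powG (4 ^ s)
  have hmw := h.mono_wrd s
  have hminv : StrictMono ((wrd X B s)⁻¹ : Equiv.Perm ℝ) := by
    intro a b hab
    by_contra h1
    have h2 := hmw.monotone (not_lt.1 h1)
    have e : ∀ x, (wrd X B s) ((wrd X B s)⁻¹ x) = x := fun x => by
      rw [← Equiv.Perm.mul_apply, mul_inv_cancel]; rfl
    rw [e, e] at h2
    linarith
  have hG : Sy 6 (-15/8) (fun u => ((Ψ τ) ^ (4 ^ s) : Equiv.Perm ℝ) u - u -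
      (4 ^ s * τ) * (1 + τ * β u)) := by
    have := h.expandΨ hβ hτ ((4 ^ s : ℕ) * τ)
    rw [← hpow] at this
    push_cast at this
    exact this
  have hw := wrd_expand (τ := τ) hβ X B (h.expandX hβ) (h.expandB hβ) s
  obtain ⟨ρ, hρ, hNL, heq⟩ := err_expand hβ hτ2 X B ((Ψ τ) ^ (4 ^ s)) s hmw hG hw
  -- bound of `w⁻¹ u - u`
  obtain ⟨C, hC0, hC⟩ := hNL.2.bound
  have hCw : ∀ᶠ u in atTop, |(wrd X B s)⁻¹ u - u| ≤ C := by
    filter_upwards [hC] with u hu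
    simpa using hu
  have hinvt : Tendsto ((wrd X B s)⁻¹ : Equiv.Perm ℝ) atTop atTop := hNL.tendsto
  refine ⟨?_, ?_, ?_, ρ, hρ.of_le (by norm_num), C, ?_⟩
  · intro a b hab
    rw [Equiv.Perm.mul_apply, Equiv.Perm.mul_apply, hpow]
    exact h.mono _ (hminv hab)
  · filter_upwards [D.ex s (C + (4 * 4 ^ s + 1)), hCw, hinvt.eventually (h.exact hβ hτ s)]
      with u h1 h2 h3 h4 h5
    obtain ⟨p, q, hp, hpq⟩ := h1 h4 h5
    rw [Equiv.Perm.mul_apply, h3 p q hp ?_]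
    · rw [← Equiv.Perm.mul_apply, mul_inv_cancel]; rfl
    · intro x hx
      apply hpq
      calc |x - u| = |(x - (wrd X B s)⁻¹ u) + ((wrd X B s)⁻¹ u - u)| := by ring_nf
        _ ≤ |x - (wrd X B s)⁻¹ u| + |(wrd X B s)⁻¹ u - u| := abs_add_le _ _
        _ ≤ _ := by linarith
  · have h1 := (D.hom s).1.comp (hNL.of_le (show 4 ≤ 6 by norm_num))
    have h2 := (hρ.of_le (show 4 ≤ 6 by norm_num)).so (show (-15/8 : ℝ) < -1 by norm_num)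
    refine (h1.add' h2).congr' (Eventually.of_forall fun u => ?_)
    simp only
    rw [heq]
  · filter_upwards [hinvt.eventually (D.hom s).2, hCw] with u h1 h2 h3
    rw [heq, h1 (fun m => h3 m _ h2), zero_add]

end Pool.Agent.Germ
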