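import Pool.Agent.Helper19.Germ.Expand

/-! The maps `G = Ψ τ`, `X`, `B`; their `C²` asymptotics. -/

open Filter Topology

namespace Pool.Agent.Germ

theorem mono_cut (φ : ℝ → ℝ) (U : ℝ) (hφ : Differentiable ℝ φ)
    (h : ∀ u ≥ U, |deriv φ u| ≤ 3 / 4) :
    Continuous (fun u => u + φ (max u U)) ∧ StrictMono (fun u => u + φ (max u U)) := by
  have hc : Continuous (fun u => u + φ (max u U)) :=
    continuous_id.add (hφ.continuous.comp (continuous_id.max continuous_const))
  refine ⟨hc, ?_⟩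
  have h1 : StrictMonoOn (fun u => u + φ (max u U)) (Set.Iic U) := by
    intro a ha b hb hab
    simp only
    rw [max_eq_right ha, max_eq_right hb]; linarith
  have h2 : StrictMonoOn (fun u => u + φ (max u U)) (Set.Ici U) := by
    refine strictMonoOn_of_deriv_pos (convex_Ici U) hc.continuousOn ?_
    intro x hx
    rw [interior_Ici] at hx
    have he : (fun u => u + φ (max u U)) =ᶠ[𝓝 x] fun u => u + φ u := by
      filter_upwards [Ioi_mem_nhds hx] with v hv
      rw [max_eq_left (le_of_lt hv)]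
    rw [he.deriv_eq]
    have : deriv (fun u => u + φ u) x = 1 + deriv φ x :=
      ((hasDerivAt_id x).add (hφ x).hasDerivAt).deriv
    rw [this]
    linarith [(abs_le.1 (h x (le_of_lt hx))).1]
  have := h1.union h2 isGreatest_Iic isLeast_Ici
  rwa [Set.Iic_union_Ici, strictMonoOn_univ] at this

structure Maps (β : ℝ → ℝ) (τ U : ℝ) (T : ℝ → ℝ) (Ψ : ℝ → Equiv.Perm ℝ) (X B : Equiv.Perm ℝ) :
    Prop where
  hb : ∀ u ≥ U, |β u| ≤ 1 / 4
  add : ∀ s t, Ψ (s + t) = Ψ s * Ψ t
  hd : ∀ u, HasDerivAt T (1 + τ * β (max u U))⁻¹ u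
  hT : ∀ t u, T (Ψ t u) = T u + t
  monoT : StrictMono T
  mono : ∀ t, StrictMono (Ψ t)
  bd : ∀ t u, |Ψ t u - u| ≤ 5 / 4 * |t|
  hX : ∀ u, X u = u + τ * E1 (deriv β (max u U))
  hB : ∀ u, B u = u + β (max u U) * E1 (deriv β (max u U))
  monoX : StrictMono X
  monoB : StrictMono B

theorem sy_tendsto {n : ℕ} {m : ℝ} (hm : m < 0) {b : ℝ → ℝ} (hb : Sy n m b) :
    Tendsto b atTop (𝓝 0) := by
  obtain ⟨C, hC0, hC⟩ := hb.bound
  have h1 : Tendsto (fun u : ℝ => C * u ^ m) atTop (𝓝 0) := by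
    have := (tendsto_rpow_neg_atTop (y := -m) (by linarith)).const_mul C
    simpa using this
  exact squeeze_zero_norm' (by simpa [Real.norm_eq_abs] using hC) h1

theorem exists_maps {β : ℝ → ℝ} (hβc : ContDiff ℝ 8 β) (hβ : Sy 7 (-7/8) β) {τ : ℝ}
    (hτ : |τ| = 1) : ∃ U T Ψ X B, Maps β τ U T Ψ X B := by
  obtain ⟨M, hM0, hM⟩ := E1_bounds
  have ev : ∀ ε > 0, ∀ᶠ u in atTop, |β u| ≤ ε ∧ |deriv β u| ≤ ε ∧ |deriv (deriv β) u| ≤ ε := by
    intro ε hε
    have h0 := (sy_tendsto (by norm_num) hβ).abs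
    have h1 := (sy_tendsto (by norm_num) hβ.dv).abs
    have h2 := (sy_tendsto (by norm_num) hβ.dv.dv).abs
    rw [abs_zero] at h0 h1 h2
    filter_upwards [h0.eventually (ge_mem_nhds hε), h1.eventually (ge_mem_nhds hε),
      h2.eventually (ge_mem_nhds hε)] with u a b c using ⟨a, b, c⟩
  set ε : ℝ := min (1 / 4) (1 / (4 * M)) with hεd
  have hε : 0 < ε := by positivity
  have hε1 : ε ≤ 1 / 4 := min_le_left _ _
  have hε2 : ε * M ≤ 1 / 4 := by
    have : ε ≤ 1 / (4 * M) := min_le_right _ _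
    calc ε * M ≤ 1 / (4 * M) * M := mul_le_mul_of_nonneg_right this hM0.le
      _ = 1 / 4 := by field_simp
  obtain ⟨U, hU⟩ := eventually_atTop.1 (ev ε hε)
  have hb : ∀ u ≥ U, |β u| ≤ 1 / 4 := fun u hu => (hU u hu).1.trans hε1
  have hcβ : Continuous β := hβc.continuous
  have hy : Continuous fun u => 1 + τ * β (max u U) :=
    continuous_const.add (continuous_const.mul (hcβ.comp (continuous_id.max continuous_const)))
  have hyb : ∀ u, |τ * β (max u U)| ≤ 1 / 4 := by
    intro u
    rw [abs_mul, hτ, one_mul]; exact hb _ (le_max_right _ _)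
  obtain ⟨T, Ψ, hadd, hd, hT, hmT, hmΨ, hbd⟩ := exists_flow (fun u => 1 + τ * β (max u U)) hy
    (fun u => by linarith [(abs_le.1 (hyb u)).1]) (fun u => by linarith [(abs_le.1 (hyb u)).2])
  have hdβ : ContDiff ℝ 7 (deriv β) := by
    have : ContDiff ℝ (7 + 1) β := by norm_num; exact hβc
    exact (contDiff_succ_iff_deriv.1 this).2.2
  have hdd : Differentiable ℝ (deriv β) := hdβ.differentiable (by norm_num)
  have hβd : Differentiable ℝ β := hβc.differentiable (by norm_num)
  have hE : Differentiable ℝ E1 := E1_contDiff.differentiable (by simp)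
  have hle1 : ∀ u ≥ U, |deriv β u| ≤ 1 := fun u hu => (hU u hu).2.1.trans (by linarith)
  -- X
  have hφX : ∀ u, HasDerivAt (fun u => τ * E1 (deriv β u))
      (τ * (deriv E1 (deriv β u) * deriv (deriv β) u)) u := fun u =>
    (((hE _).hasDerivAt).comp u (hdd u).hasDerivAt).const_mul τ
  have hXc := mono_cut (fun u => τ * E1 (deriv β u)) U (fun u => (hφX u).differentiableAt)
    (fun u hu => by
      rw [(hφX u).deriv, abs_mul, hτ, one_mul, abs_mul]
      calc |deriv E1 (deriv β u)| * |deriv (deriv β) u| ≤ M * ε :=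
            mul_le_mul (hM _ (hle1 u hu)).2 (hU u hu).2.2 (abs_nonneg _) hM0.le
        _ ≤ 3 / 4 := by linarith)
  have hφB : ∀ u, HasDerivAt (fun u => β u * E1 (deriv β u))
      (deriv β u * E1 (deriv β u) + β u * (deriv E1 (deriv β u) * deriv (deriv β) u)) u := fun u =>
    (hβd u).hasDerivAt.mul (((hE _).hasDerivAt).comp u (hdd u).hasDerivAt)
  have hBc := mono_cut (fun u => β u * E1 (deriv β u)) U (fun u => (hφB u).differentiableAt)
    (fun u hu => by
      rw [(hφB u).deriv]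
      have h1 : |deriv β u * E1 (deriv β u)| ≤ ε * M := by
        rw [abs_mul]
        exact mul_le_mul (hU u hu).2.1 (hM _ (hle1 u hu)).1 (abs_nonneg _) hε.le
      have h2 : |β u * (deriv E1 (deriv β u) * deriv (deriv β) u)| ≤ 1 / 4 * (M * ε) := by
        rw [abs_mul, abs_mul]
        exact mul_le_mul (hb u hu) (mul_le_mul (hM _ (hle1 u hu)).2 (hU u hu).2.2 (abs_nonneg _)
          hM0.le) (by positivity) (by norm_num)
      have := abs_add_le (deriv β u * E1 (deriv β u))
        (β u * (deriv E1 (deriv β u) * deriv (deriv β) u))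
      nlinarith)
  obtain ⟨X, hX⟩ := exists_perm _ hXc.1 hXc.2 M (fun u => by
    have : |E1 (deriv β (max u U))| ≤ M := (hM _ (hle1 _ (le_max_right _ _))).1
    simp only [add_sub_cancel_left, abs_mul, hτ, one_mul]; exact this)
  obtain ⟨B, hB⟩ := exists_perm _ hBc.1 hBc.2 M (fun u => by
    have h1 : |E1 (deriv β (max u U))| ≤ M := (hM _ (hle1 _ (le_max_right _ _))).1
    have h2 := hb _ (le_max_right u U)
    simp only [add_sub_cancel_left, abs_mul]
    nlinarith [abs_nonneg (β (max u U)), abs_nonneg (E1 (deriv β (max u U)))])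
  exact ⟨U, T, Ψ, X, B, ⟨hb, hadd, hd, hT, hmT, hmΨ, hbd, fun u => by rw [hX], fun u => by rw [hB],
    by rw [hX]; exact hXc.2, by rw [hB]; exact hBc.2⟩⟩

/-- `C²` asymptotics from symbol bounds -/
theorem adm_of_sy {F : ℝ → ℝ} {lam c μ : ℝ} (hμ : μ < 0)
    (h : Sy 3 μ (fun u => F u - lam * u - c)) : Adm lam c F := by
  set w : ℝ → ℝ := fun u => F u - lam * u - c with hw
  have hF : F = fun u => w u + (lam * u + c) := by funext u; simp [hw]
  have hd0 := h.diff
  have hd1 := h.dv.diff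
  have hd2 := h.dv.dv.diff
  have hFd : ∀ᶠ u in atTop, HasDerivAt F (deriv w u + lam) u := by
    filter_upwards [hd0] with u hu
    rw [hF]
    have := hu.hasDerivAt.fun_add (((hasDerivAt_id u).const_mul lam).add_const c)
    simpa using this
  have hFd' : deriv F =ᶠ[atTop] fun u => deriv w u + lam := by
    filter_upwards [hFd] with u hu using hu.deriv
  have hFdd : deriv (deriv F) =ᶠ[atTop] fun u => deriv (deriv w) u := by
    filter_upwards [deriv_congr_ev hFd', hd1] with u hu h1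
    rw [hu]; simp
  refine ⟨?_, ?_, ?_, ?_⟩
  · filter_upwards [ev_nhds hd0, ev_nhds hd1, ev_nhds hd2] with u a b cc
    have hw2 : ContDiffAt ℝ 2 w u := by
      obtain ⟨s, hs, hso, hus⟩ := eventually_nhds_iff.1 (a.and (b.and cc))
      have hon : ContDiffOn ℝ 2 w s := by
        have e2 : (2 : WithTop ℕ∞) = 1 + 1 := by norm_num
        rw [e2, contDiffOn_succ_iff_deriv_of_isOpen hso]
        refine ⟨fun x hx => (hs x hx).1.differentiableWithinAt, by simp, ?_⟩
        have e1 : (1 : WithTop ℕ∞) = 0 + 1 := by norm_num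
        rw [e1, contDiffOn_succ_iff_deriv_of_isOpen hso]
        refine ⟨fun x hx => (hs x hx).2.1.differentiableWithinAt, by simp, ?_⟩
        rw [contDiffOn_zero]
        exact fun x hx => (hs x hx).2.2.continuousAt.continuousWithinAt
      exact hon.contDiffAt (hso.mem_nhds hus)
    rw [hF]
    exact hw2.add ((contDiffAt_const.mul contDiffAt_id).add contDiffAt_const)
  · have := (sy_tendsto hμ h).add_const c
    simpa [hw] using this
  · have h1 := (sy_tendsto (m := μ) hμ (n := 0)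
      (b := fun u => u * deriv w u) (by
        obtain ⟨C, hC0, hC⟩ := h.dv.bound
        refine ⟨C, ?_⟩
        filter_upwards [hC, eventually_gt_atTop 0] with u hu h0
        rw [abs_mul, abs_of_pos h0]
        calc u * |deriv w u| ≤ u * (C * u ^ (μ - 1)) := mul_le_mul_of_nonneg_left hu h0.le
          _ = C * u ^ μ := by
            rw [Real.rpow_sub_one h0.ne']; field_simp))
    refine h1.congr' ?_
    filter_upwards [hFd'] with u hu
    rw [hu]; ring
  · have h1 := (sy_tendsto (m := μ) hμ (n := 0)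
      (b := fun u => u ^ 2 * deriv (deriv w) u) (by
        obtain ⟨C, hC0, hC⟩ := h.dv.dv.bound
        refine ⟨C, ?_⟩
        filter_upwards [hC, eventually_gt_atTop 0] with u hu h0
        rw [abs_mul, abs_of_pos (by positivity : (0:ℝ) < u ^ 2)]
        calc u ^ 2 * |deriv (deriv w) u| ≤ u ^ 2 * (C * u ^ (μ - 1 - 1)) :=
              mul_le_mul_of_nonneg_left hu (by positivity)
          _ = C * u ^ μ := by
            rw [Real.rpow_sub_one h0.ne', Real.rpow_sub_one h0.ne']; field_simp))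
    refine h1.congr' ?_
    filter_upwards [hFdd] with u hu
    rw [hu]

namespace Maps

variable {β : ℝ → ℝ} {τ U : ℝ} {T : ℝ → ℝ} {Ψ : ℝ → Equiv.Perm ℝ} {X B : Equiv.Perm ℝ}

theorem expandΨ (h : Maps β τ U T Ψ X B) (hβ : Sy 7 (-7/8) β) (hτ : |τ| = 1) (t : ℝ) :
    Sy 6 (-15/8) (fun u => Ψ t u - u - t * (1 + τ * β u)) :=
  flow_expand hβ hτ h.hb h.hd h.hT h.mono h.bd t

theorem expandX (h : Maps β τ U T Ψ X B) (hβ : Sy 7 (-7/8) β) :
    Sy 6 (-15/8) (fun u => X u - u - τ) := by
  refine X_expand hβ ?_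
  filter_upwards [eventually_ge_atTop U] with u hu
  rw [h.hX, max_eq_left hu]

theorem expandB (h : Maps β τ U T Ψ X B) (hβ : Sy 7 (-7/8) β) :
    Sy 6 (-15/8) (fun u => B u - u - β u) := by
  refine B_expand hβ ?_
  filter_upwards [eventually_ge_atTop U] with u hu
  rw [h.hB, max_eq_left hu]

theorem admX (h : Maps β τ U T Ψ X B) (hβ : Sy 7 (-7/8) β) : Adm 1 τ X := by
  refine adm_of_sy (μ := -15/8) (by norm_num) ?_
  simpa using (h.expandX hβ).of_le (show 3 ≤ 6 by norm_num)

theorem admB (h : Maps β τ U T Ψ X B) (hβ : Sy 7 (-7/8) β) : Adm 1 0 B := by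
  refine adm_of_sy (μ := -7/8) (by norm_num) ?_
  have h1 := ((h.expandB hβ).of_le (show 3 ≤ 6 by norm_num)).mono
    (show (-15/8 : ℝ) ≤ -7/8 by norm_num)
  have h2 := h1.add (hβ.of_le (show 3 ≤ 7 by norm_num))
  refine h2.congr (Eventually.of_forall fun u => ?_)
  simp only
  ring

theorem admG (h : Maps β τ U T Ψ X B) (hβ : Sy 7 (-7/8) β) (hτ : |τ| = 1) : Adm 1 τ (Ψ τ) := by
  refine adm_of_sy (μ := -7/8) (by norm_num) ?_
  have h1 := ((h.expandΨ hβ hτ τ).of_le (show 3 ≤ 6 by norm_num)).mono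
    (show (-15/8 : ℝ) ≤ -7/8 by norm_num)
  have h2 := h1.add ((hβ.of_le (show 3 ≤ 7 by norm_num)).const_mul (τ * τ))
  refine h2.congr (Eventually.of_forall fun u => ?_)
  simp only
  ring

theorem powG (h : Maps β τ U T Ψ X B) (N : ℕ) : (Ψ τ) ^ N = Ψ (N * τ) := by
  induction N with
  | zero =>
    have h1 := h.add 0 0
    rw [add_zero] at h1
    have h2 : Ψ 0 = 1 := by
      have := congrArg (fun z => (Ψ 0)⁻¹ * z) h1
      simpa using this.symm
    simp [h2]
  | succ N ih =>
    rw [pow_succ, ih, ← h.add]; congr 1; push_cast; ring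

theorem mono_wrd (h : Maps β τ U T Ψ X B) (s : ℕ) : StrictMono (wrd X B s) := by
  have hpow : ∀ M : ℕ, StrictMono (X ^ M : Equiv.Perm ℝ) := by
    intro M
    induction M with
    | zero => intro a b hab; simpa using hab
    | succ M ih =>
      intro a b hab
      rw [pow_succ, Equiv.Perm.mul_apply, Equiv.Perm.mul_apply]
      exact ih (h.monoX hab)
  intro a b hab
  rw [wrd_apply, wrd_apply]
  have h2 : (0 : ℝ) < 2 ^ s := by positivity
  refine mul_lt_mul_of_pos_left (hpow _ (h.monoB ?_)) h2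
  exact div_lt_div_of_pos_right hab h2

end Maps

end Pool.Agent.Germ
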