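import Pool.Agent.Helper19.Germ.StoreCore

/-! The store theorem for families of intervals indexed by `(s, k, p)`, `p ∈ J k`. -/

open Filter Topology Set

namespace Pool.Agent.Germ

theorem diag {P : ℝ → ℕ → Prop} (h : ∀ ε > 0, ∀ᶠ k in atTop, P ε k) :
    ∃ e : ℕ → ℝ, (∀ k, 0 < e k) ∧ Tendsto e atTop (𝓝 0) ∧ ∀ᶠ k in atTop, P (e k) k := by
  classical
  have h1 : ∀ n : ℕ, ∃ N : ℕ, ∀ k ≥ N, P (1 / ((n : ℝ) + 1)) k := fun n =>
    eventually_atTop.1 (h _ (by positivity))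
  choose N hN using h1
  set ν : ℕ → ℕ := fun k => Nat.findGreatest (fun n => N n ≤ k) k with hν
  have hνt : Tendsto ν atTop atTop := by
    rw [tendsto_atTop]
    intro n
    filter_upwards [eventually_ge_atTop n, eventually_ge_atTop (N n)] with k h1 h2
    exact Nat.le_findGreatest h1 h2
  refine ⟨fun k => 1 / ((ν k : ℝ) + 1), fun k => by positivity, ?_, ?_⟩
  · exact tendsto_one_div_add_atTop_nhds_zero_nat.comp hνt
  · filter_upwards [eventually_ge_atTop (N 0)] with k hk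
    refine hN (ν k) k ?_
    have := Nat.findGreatest_spec (P := fun n => N n ≤ k) (Nat.zero_le k) hk
    exact this

/-- the index type -/
def Idx (J : ℕ → Finset ℝ) (K : ℕ → ℕ) (ok : ℕ → ℕ → Prop) : Type :=
  {i : ℕ × ℕ × ℝ // i.2.2 ∈ J i.2.1 ∧ K i.1 ≤ i.2.1 ∧ ok i.1 i.2.1}

theorem Idx.finite (J : ℕ → Finset ℝ) (K : ℕ → ℕ) (ok : ℕ → ℕ → Prop) (N N' : ℕ) :
    {i : Idx J K ok | i.1.1 < N ∧ i.1.2.1 < N'}.Finite := by
  have h1 : ((Set.Iio N) ×ˢ ((Set.Iio N') ×ˢ (⋃ k ∈ Set.Iio N', (J k : Set ℝ)))).Finite :=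
    (Set.finite_Iio N).prod ((Set.finite_Iio N').prod
      ((Set.finite_Iio N').biUnion fun k _ => (J k).finite_toSet))
  refine (h1.preimage (f := fun i : Idx J K ok => i.1)
    (Subtype.val_injective.injOn)).subset ?_
  rintro i ⟨h1, h2⟩
  refine ⟨h1, h2, ?_⟩
  exact Set.mem_biUnion h2 i.2.1

variable (J : ℕ → Finset ℝ) (al L : ℕ → ℕ → ℝ → ℝ) (rho : ℕ → ℝ) (ok : ℕ → ℕ → Prop)

/-- ambient interval -/
def Amb (al L : ℕ → ℕ → ℝ → ℝ) (rho : ℕ → ℝ) (s k : ℕ) (p : ℝ) : Set ℝ :=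
  Icc (al s k p - rho s * L s k p) (al s k p + 4 * L s k p)

/-- local condition of quality `ε` at level `k` -/
def Loc (J : ℕ → Finset ℝ) (al L : ℕ → ℕ → ℝ → ℝ) (ok : ℕ → ℕ → Prop) (h : ℕ → Equiv.Perm ℝ)
    (s : ℕ) (ε : ℝ) (k : ℕ) : Prop :=
  ∀ p ∈ J k, ok s k → ∃ f : Equiv.Perm ℝ, SuppIn (al s k p) (al s k p + L s k p) f ∧
    (∀ u, al s k p ≤ u → u ≤ al s k p + L s k p → f u = h s u) ∧
    ∃ η, 0 < η ∧ η ≤ ε ∧ (al s k p + 4 * L s k p) ^ 2 * η / L s k p ≤ ε ∧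
      DB univ 4 (fun i => η ^ 2 * L s k p ^ (1 - (i : ℤ))) (fun x => f x - x)

theorem store (hP : Perfect) (lam mu : ℕ → ℝ) (hl : ∀ s, 1 ≤ lam s) (hm : ∀ s, 1 ≤ mu s)
    (hl0 : ∀ s, lam s ≠ 0) (hm0 : ∀ s, mu s ≠ 0) (hrho : ∀ s, 0 < rho s ∧ rho s ≤ 1)
    (h : ℕ → Equiv.Perm ℝ)
    (hpos : ∀ s, ∀ᶠ k : ℕ in atTop, ∀ p ∈ J k, ok s k → 0 < L s k p ∧
      (k : ℝ) < al s k p - rho s * L s k p)
    (hf : ∀ s, ∀ ε > 0, ∀ᶠ k : ℕ in atTop, Loc J al L ok h s ε k)
    (K0 : ℕ → ℕ)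
    (hsA : ∀ s s' k k' p p' x, K0 s ≤ k → K0 s' ≤ k' → p ∈ J k → p' ∈ J k' → ok s k → ok s' k' →
      x / lam s ∈ Amb al L rho s k p → x / lam s' ∈ Amb al L rho s' k' p' →
      s = s' ∧ k = k' ∧ p = p')
    (hsC : ∀ s s' k k' p p' x, K0 s ≤ k → K0 s' ≤ k' → p ∈ J k → p' ∈ J k' → ok s k → ok s' k' →
      x / mu s ∈ Amb al L rho s k p → x / mu s' ∈ Amb al L rho s' k' p' →
      s = s' ∧ k = k' ∧ p = p')
    (hsep : ∀ s, ∀ᶠ u in atTop, ∀ s₁ s₂ k k' p p', K0 s₁ ≤ k → K0 s₂ ≤ k' → p ∈ J k →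
      p' ∈ J k' → ok s₁ k → ok s₂ k' →
      lam s * u / lam s₁ ∈ Amb al L rho s₁ k p → mu s * u / mu s₂ ∈ Amb al L rho s₂ k' p' →
      s₁ = s ∧ s₂ = s) :
    ∃ A C : Fin 3 → Equiv.Perm ℝ, (∀ l, Adm 1 0 (A l) ∧ Adm 1 0 (C l)) ∧
      ∀ s, ∀ᶠ u in atTop,
        (∀ k, ∀ p ∈ J k, ok s k → al s k p ≤ u → u ≤ al s k p + L s k p →
          W3 (Dil (lam s) (hl0 s)) (Dil (mu s) (hm0 s)) A C u = h s u) ∧
        ((∀ k, ∀ p ∈ J k, ok s k → ¬ (al s k p ≤ u ∧ u ≤ al s k p + L s k p)) →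
          W3 (Dil (lam s) (hl0 s)) (Dil (mu s) (hm0 s)) A C u = u) := by
  classical
  -- constants of perfectness
  have hC := fun s => perfect_interval hP (rho s) (hrho s).1 (hrho s).2
  choose Cs eta0 hCs using hC
  -- diagonal sequences
  have hd := fun s => diag (fun ε hε => hf s ε hε)
  choose e he0 het he using hd
  -- the cut-offs
  have hK : ∀ s, ∃ K : ℕ, s ≤ K ∧ K0 s ≤ K ∧ ∀ k ≥ K,
      (∀ p ∈ J k, ok s k → 0 < L s k p ∧ (k : ℝ) < al s k p - rho s * L s k p) ∧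
      Loc J al L ok h s (e s k) k ∧ e s k ≤ eta0 s ∧
      (lam s + mu s) * Cs s * e s k ≤ 1 / ((s : ℝ) + 1) := by
    intro s
    have ht : Tendsto (fun k => (lam s + mu s) * Cs s * e s k) atTop (𝓝 0) := by
      simpa using (het s).const_mul ((lam s + mu s) * Cs s)
    have hev := (hpos s).and ((he s).and (((het s).eventually (ge_mem_nhds (hCs s).1)).and
      (ht.eventually (ge_mem_nhds (show (0 : ℝ) < 1 / ((s : ℝ) + 1) by positivity)))))
    obtain ⟨K, hK⟩ := eventually_atTop.1 hev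
    refine ⟨max s (max (K0 s) K), le_max_left _ _, (le_max_left _ _).trans (le_max_right _ _),
      fun k hk => ?_⟩
    exact hK k (((le_max_right _ _).trans (le_max_right _ _)).trans hk)
  choose K hKs hK0 hK using hK
  let ι := Idx J K ok
  let st : ι → ℕ := fun i => i.1.1
  let al' : ι → ℝ := fun i => al i.1.1 i.1.2.1 i.1.2.2
  let L' : ι → ℝ := fun i => L i.1.1 i.1.2.1 i.1.2.2
  let lo : ι → ℝ := fun i => al' i - rho (st i) * L' i
  let hi : ι → ℝ := fun i => al' i + 4 * L' i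
  have hp : ∀ i : ι, 0 < L' i ∧ (i.1.2.1 : ℝ) < lo i := fun i =>
    (hK i.1.1 i.1.2.1 i.2.2.1).1 i.1.2.2 i.2.1 i.2.2.2
  have hloc : ∀ i : ι, ∃ f : Equiv.Perm ℝ, SuppIn (al' i) (al' i + L' i) f ∧
      (∀ u, al' i ≤ u → u ≤ al' i + L' i → f u = h (st i) u) ∧
      ∃ η, 0 < η ∧ η ≤ e i.1.1 i.1.2.1 ∧ (hi i) ^ 2 * η / L' i ≤ e i.1.1 i.1.2.1 ∧
      DB univ 4 (fun n => η ^ 2 * L' i ^ (1 - (n : ℤ))) (fun x => f x - x) := fun i =>
    (hK i.1.1 i.1.2.1 i.2.2.1).2.1 i.1.2.2 i.2.1 i.2.2.2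
  choose f hf1 hf2 eta heta0 heta1 heta2 heta3 using hloc
  have hpf : ∀ i : ι, ∃ a c : Fin 3 → Equiv.Perm ℝ,
        (∀ l, SuppIn (lo i) (hi i) (a l) ∧ SuppIn (lo i) (hi i) (c l) ∧
          Sz (L' i * (Cs (st i) * eta i)) (Cs (st i) * eta i) (Cs (st i) * eta i / L' i) (a l) ∧
          Sz (L' i * (Cs (st i) * eta i)) (Cs (st i) * eta i) (Cs (st i) * eta i / L' i) (c l)) ∧
        f i = comm (a 0) (c 0) * comm (a 1) (c 1) * comm (a 2) (c 2) := fun i =>
    (hCs (st i)).2.2 (eta i) (heta0 i)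
      ((heta1 i).trans (hK i.1.1 i.1.2.1 i.2.2.1).2.2.1) (al' i) (L' i) (hp i).1 (f i) (hf1 i)
      (heta3 i)
  choose a c hac hfac using hpf
  have hfinall : ∀ S : Set ι, (∃ N N' : ℕ, ∀ i ∈ S, i.1.1 < N ∧ i.1.2.1 < N') → S.Finite := by
    rintro S ⟨N, N', hS⟩
    exact (Idx.finite J K ok N N').subset hS
  have hlo0 : ∀ i : ι, 0 < lo i := fun i => lt_of_le_of_lt (Nat.cast_nonneg _) (hp i).2
  have hrL : ∀ i : ι, 0 < rho (st i) * L' i := fun i => mul_pos (hrho _).1 (hp i).1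
  have hLhi : ∀ i : ι, L' i ≤ hi i := fun i => by
    have h1 := hlo0 i
    have h2 := hrL i
    have h3 := (hp i).1
    change L' i ≤ al' i + 4 * L' i
    have h4 : 0 < al' i - rho (st i) * L' i := h1
    linarith
  have hcore := store_core st lo hi lam mu hl hm hl0 hm0
    (fun i => ⟨hlo0 i, by
      change al' i - rho (st i) * L' i < al' i + 4 * L' i
      linarith [hrL i, (hp i).1]⟩)
    (by
      intro R
      apply hfinall
      refine ⟨⌈|R|⌉₊ + 1, ⌈|R|⌉₊ + 1, fun i (hiR : lo i ≤ R) => ?_⟩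
      have h1 : (i.1.2.1 : ℝ) < ⌈|R|⌉₊ := by
        calc (i.1.2.1 : ℝ) < lo i := (hp i).2
          _ ≤ R := hiR
          _ ≤ |R| := le_abs_self R
          _ ≤ _ := Nat.le_ceil _
      have h2 : i.1.2.1 < ⌈|R|⌉₊ := by exact_mod_cast h1
      have h3 : i.1.1 ≤ i.1.2.1 := (hKs _).trans i.2.2.1
      omega)
    (by
      intro i j x hx hy
      obtain ⟨e1, e2, e3⟩ := hsA i.1.1 j.1.1 i.1.2.1 j.1.2.1 i.1.2.2 j.1.2.2 x
        ((hK0 _).trans i.2.2.1) ((hK0 _).trans j.2.2.1) i.2.1 j.2.1 i.2.2.2 j.2.2.2 hx hy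
      exact Subtype.ext (Prod.ext e1 (Prod.ext e2 e3)))
    (by
      intro i j x hx hy
      obtain ⟨e1, e2, e3⟩ := hsC i.1.1 j.1.1 i.1.2.1 j.1.2.1 i.1.2.2 j.1.2.2 x
        ((hK0 _).trans i.2.2.1) ((hK0 _).trans j.2.2.1) i.2.1 j.2.1 i.2.2.2 j.2.2.2 hx hy
      exact Subtype.ext (Prod.ext e1 (Prod.ext e2 e3)))
    (by
      intro s
      filter_upwards [hsep s] with u hu i j hx hy
      exact hu i.1.1 j.1.1 i.1.2.1 j.1.2.1 i.1.2.2 j.1.2.2
        ((hK0 _).trans i.2.2.1) ((hK0 _).trans j.2.2.1) i.2.1 j.2.1 i.2.2.2 j.2.2.2 hx hy)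
    a c (fun i l => (hac i l).1) (fun i l => (hac i l).2.1)
    (fun i => L' i * (Cs (st i) * eta i)) (fun i => Cs (st i) * eta i)
    (fun i => Cs (st i) * eta i / L' i)
    (fun i l => (hac i l).2.2.1) (fun i l => (hac i l).2.2.2)
    (by
      intro ε hε
      apply hfinall
      -- size bound
      have hsz : ∀ i : ι, (lam (st i) + mu (st i)) * Cs (st i) * e i.1.1 i.1.2.1 ≤ ε →
          ((lam (st i) + mu (st i)) * (L' i * (Cs (st i) * eta i)) ≤ ε ∧
            (lam (st i) + mu (st i)) * hi i * (Cs (st i) * eta i) ≤ ε ∧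
            (lam (st i) + mu (st i)) * hi i ^ 2 * (Cs (st i) * eta i / L' i) ≤ ε) := by
        intro i hi'
        have h1 := hl (st i)
        have h2 := hm (st i)
        have h3 := (hCs (st i)).2.1
        have h4 := heta0 i
        have h5 := (hp i).1
        have h6 := hLhi i
        have h7 := heta2 i
        have hlm : 0 < lam (st i) + mu (st i) := by linarith
        have hC0 : 0 < Cs (st i) := by linarith
        have h8 : L' i * eta i ≤ hi i ^ 2 * eta i / L' i := by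
          rw [le_div_iff₀ h5]
          nlinarith [mul_le_mul h6 h6 h5.le (h5.le.trans h6)]
        have h9 : hi i * eta i ≤ hi i ^ 2 * eta i / L' i := by
          rw [le_div_iff₀ h5]
          nlinarith [mul_le_mul_of_nonneg_left h6 (h5.le.trans h6)]
        have hfac : ∀ x, x ≤ e i.1.1 i.1.2.1 → (lam (st i) + mu (st i)) * Cs (st i) * x ≤ ε :=
          fun x hx => (mul_le_mul_of_nonneg_left hx (by positivity)).trans hi'
        refine ⟨?_, ?_, ?_⟩
        · have := hfac _ (h8.trans h7)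
          linarith [this, show (lam (st i) + mu (st i)) * (L' i * (Cs (st i) * eta i)) =
            (lam (st i) + mu (st i)) * Cs (st i) * (L' i * eta i) by ring]
        · have := hfac _ (h9.trans h7)
          linarith [this, show (lam (st i) + mu (st i)) * hi i * (Cs (st i) * eta i) =
            (lam (st i) + mu (st i)) * Cs (st i) * (hi i * eta i) by ring]
        · have := hfac _ h7
          linarith [this, show (lam (st i) + mu (st i)) * hi i ^ 2 * (Cs (st i) * eta i / L' i) =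
            (lam (st i) + mu (st i)) * Cs (st i) * (hi i ^ 2 * eta i / L' i) by ring]
      -- finiteness
      obtain ⟨N, hN⟩ := exists_nat_gt (1 / ε)
      have hlev : ∀ s : ℕ, ∃ N' : ℕ, ∀ k ≥ N', (lam s + mu s) * Cs s * e s k ≤ ε := by
        intro s
        have ht : Tendsto (fun k => (lam s + mu s) * Cs s * e s k) atTop (𝓝 0) := by
          simpa using (het s).const_mul ((lam s + mu s) * Cs s)
        exact eventually_atTop.1 (ht.eventually (ge_mem_nhds hε))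
      choose N' hN' using hlev
      refine ⟨N, (Finset.range N).sup N' + 1, fun i hbad => ?_⟩
      have hbad' : ¬ ((lam (st i) + mu (st i)) * Cs (st i) * e i.1.1 i.1.2.1 ≤ ε) :=
        fun h => hbad (hsz i h)
      have h1 : i.1.1 < N := by
        by_contra h
        apply hbad'
        refine ((hK i.1.1 i.1.2.1 i.2.2.1).2.2.2).trans ?_
        have h2 : (N : ℝ) ≤ i.1.1 := by exact_mod_cast not_lt.1 h
        rw [div_le_iff₀ (by positivity)]
        rw [div_lt_iff₀ hε] at hN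
        nlinarith
      refine ⟨h1, ?_⟩
      by_contra h
      apply hbad'
      refine hN' i.1.1 i.1.2.1 ?_
      have h2 := Finset.le_sup (f := N') (Finset.mem_range.2 h1)
      omega)
  obtain ⟨A, C, hAC, hW⟩ := hcore
  refine ⟨A, C, hAC, fun s => ?_⟩
  -- large `u` only meets levels `≥ K s`
  have hlarge : ∀ᶠ u in atTop, ∀ k < K s, ∀ p ∈ J k, al s k p + L s k p < u := by
    have h1 : ((⋃ k ∈ Set.Iio (K s), (fun p => al s k p + L s k p) '' (J k : Set ℝ))).Finite :=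
      (Set.finite_Iio (K s)).biUnion fun k _ => (J k).finite_toSet.image _
    obtain ⟨U, hU⟩ := h1.bddAbove
    filter_upwards [eventually_gt_atTop U] with u hu k hk p hp'
    refine lt_of_le_of_lt (hU ?_) hu
    exact Set.mem_biUnion (show k ∈ Set.Iio (K s) from hk) (Set.mem_image_of_mem _ hp')
  filter_upwards [hW s, hlarge] with u hu hlu
  constructor
  · intro k p hpJ hok h1 h2
    have hk : K s ≤ k := by
      by_contra h3
      exact absurd (hlu k (not_le.1 h3) p hpJ) (not_lt.2 h2)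
    let i : ι := ⟨(s, k, p), hpJ, hk, hok⟩
    have h3 := hu.1 i rfl ⟨by
      change al' i - rho (st i) * L' i ≤ u
      have : al' i = al s k p := rfl
      linarith [hrL i], by
      change u ≤ al' i + 4 * L' i
      have e1 : al' i = al s k p := rfl
      have e2 : L' i = L s k p := rfl
      have := (hp i).1
      rw [e1, e2]; rw [e2] at this; linarith⟩
    rw [h3, ← hfac i]
    exact hf2 i u h1 h2
  · intro hno
    by_cases hex : ∃ i : ι, st i = s ∧ u ∈ Icc (lo i) (hi i)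
    · obtain ⟨i, hi1, hi2⟩ := hex
      rw [hu.1 i hi1 hi2, ← hfac i]
      apply hf1 i
      have h4 := hno i.1.2.1 i.1.2.2 i.2.1 (by rw [← hi1]; exact i.2.2.2)
      by_contra h5
      push Not at h5
      apply h4
      have e1 : al' i = al s i.1.2.1 i.1.2.2 := by rw [← hi1]
      have e2 : L' i = L s i.1.2.1 i.1.2.2 := by rw [← hi1]
      rw [← e1, ← e2]
      exact ⟨h5.1.le, h5.2.le⟩
    · push Not at hex
      exact hu.2 hex

end Pool.Agent.Germ
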