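import Pool.Agent.Helper58.Germ.Glue
import Pool.Agent.Helper19.Germ.DB

/-! Stores: gluing infinitely many commutators into three pairs of germs. -/

open Filter Topology Set

namespace Pool.Agent.Germ

/-- product of three extracted commutators -/
def W3 {G : Type*} [Group G] (x y : G) (A C : Fin 3 → G) : G :=
  comm (x⁻¹ * A 0 * x) (y⁻¹ * C 0 * y) * comm (x⁻¹ * A 1 * x) (y⁻¹ * C 1 * y) *
    comm (x⁻¹ * A 2 * x) (y⁻¹ * C 2 * y)

theorem W3_apply (x y : Equiv.Perm ℝ) (A C : Fin 3 → Equiv.Perm ℝ) (u : ℝ) :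
    W3 x y A C u = comm (x⁻¹ * A 0 * x) (y⁻¹ * C 0 * y) (comm (x⁻¹ * A 1 * x) (y⁻¹ * C 1 * y)
      (comm (x⁻¹ * A 2 * x) (y⁻¹ * C 2 * y) u)) := by
  unfold W3
  rw [Equiv.Perm.mul_apply, Equiv.Perm.mul_apply]

theorem SuppIn.mem {lo hi : ℝ} {f : Equiv.Perm ℝ} (hf : SuppIn lo hi f) {x : ℝ}
    (hx : x ∈ Icc lo hi) : f x ∈ Icc lo hi := by
  by_contra h
  have h1 : f (f x) = f x := by
    apply hf
    by_contra h2
    push Not at h2
    exact h ⟨h2.1.le, h2.2.le⟩
  have h2 : f x = x := f.injective h1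
  rw [h2] at h
  exact h hx

theorem SuppIn.inv {lo hi : ℝ} {f : Equiv.Perm ℝ} (hf : SuppIn lo hi f) : SuppIn lo hi f⁻¹ := by
  intro x hx
  rw [Equiv.Perm.inv_eq_iff_eq]
  exact (hf x hx).symm

theorem SuppIn.mul {lo hi : ℝ} {f g : Equiv.Perm ℝ} (hf : SuppIn lo hi f) (hg : SuppIn lo hi g) :
    SuppIn lo hi (f * g) := by
  intro x hx
  rw [Equiv.Perm.mul_apply, hg x hx, hf x hx]

theorem SuppIn.comm {lo hi : ℝ} {f g : Equiv.Perm ℝ} (hf : SuppIn lo hi f)
    (hg : SuppIn lo hi g) : SuppIn lo hi (comm f g) :=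
  ((hf.mul hg).mul hf.inv).mul hg.inv

theorem SuppIn.off {lo hi : ℝ} {f : Equiv.Perm ℝ} (hf : SuppIn lo hi f) {x : ℝ}
    (hx : x ∉ Icc lo hi) : f x = x := by
  apply hf
  by_contra h
  push Not at h
  exact hx ⟨h.1.le, h.2.le⟩

theorem glb_cj {ι : Type*} (st : ι → ℕ) (lo hi : ι → ℝ) (lam : ℕ → ℝ) (hl0 : ∀ s, lam s ≠ 0)
    (hsA : ∀ i j x, x / lam (st i) ∈ Icc (lo i) (hi i) → x / lam (st j) ∈ Icc (lo j) (hi j) → i = j)
    (a : ι → Equiv.Perm ℝ) (ha : ∀ i, SuppIn (lo i) (hi i) (a i)) :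
    Glb (fun i => {x | x / lam (st i) ∈ Icc (lo i) (hi i)})
      (fun i => cj (lam (st i)) (hl0 _) (a i)) := by
  refine ⟨hsA, fun i x hx => ?_⟩
  change (Dil (lam (st i)) (hl0 _) * a i * (Dil (lam (st i)) (hl0 _))⁻¹) x = x
  rw [Equiv.Perm.mul_apply, Equiv.Perm.mul_apply, Dil_inv_apply, (ha i).off hx, Dil_apply]
  have := hl0 (st i)
  field_simp

theorem store_core {ι : Type*} (st : ι → ℕ) (lo hi : ι → ℝ) (lam mu : ℕ → ℝ)
    (hl : ∀ s, 1 ≤ lam s) (hm : ∀ s, 1 ≤ mu s) (hl0 : ∀ s, lam s ≠ 0) (hm0 : ∀ s, mu s ≠ 0)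
    (hlohi : ∀ i, 0 < lo i ∧ lo i < hi i) (hfin : ∀ R, {i | lo i ≤ R}.Finite)
    (hsA : ∀ i j x, x / lam (st i) ∈ Icc (lo i) (hi i) → x / lam (st j) ∈ Icc (lo j) (hi j) → i = j)
    (hsC : ∀ i j x, x / mu (st i) ∈ Icc (lo i) (hi i) → x / mu (st j) ∈ Icc (lo j) (hi j) → i = j)
    (hsep : ∀ s, ∀ᶠ u in atTop, ∀ i j, lam s * u / lam (st i) ∈ Icc (lo i) (hi i) →
      mu s * u / mu (st j) ∈ Icc (lo j) (hi j) → st i = s ∧ st j = s)
    (a c : ι → Fin 3 → Equiv.Perm ℝ) (hsa : ∀ i l, SuppIn (lo i) (hi i) (a i l))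
    (hsc : ∀ i l, SuppIn (lo i) (hi i) (c i l)) (b0 b1 b2 : ι → ℝ)
    (hza : ∀ i l, Sz (b0 i) (b1 i) (b2 i) (a i l)) (hzc : ∀ i l, Sz (b0 i) (b1 i) (b2 i) (c i l))
    (hsmall : ∀ ε > 0, {i | ¬ ((lam (st i) + mu (st i)) * b0 i ≤ ε ∧
      (lam (st i) + mu (st i)) * hi i * b1 i ≤ ε ∧
      (lam (st i) + mu (st i)) * hi i ^ 2 * b2 i ≤ ε)}.Finite) :
    ∃ A C : Fin 3 → Equiv.Perm ℝ, (∀ l, Adm 1 0 (A l) ∧ Adm 1 0 (C l)) ∧
      ∀ s, ∀ᶠ u in atTop,
        (∀ i, st i = s → u ∈ Icc (lo i) (hi i) →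
          W3 (Dil (lam s) (hl0 s)) (Dil (mu s) (hm0 s)) A C u =
          (comm (a i 0) (c i 0) * comm (a i 1) (c i 1) * comm (a i 2) (c i 2)) u) ∧
        ((∀ i, st i = s → u ∉ Icc (lo i) (hi i)) →
          W3 (Dil (lam s) (hl0 s)) (Dil (mu s) (hm0 s)) A C u = u) := by
  set KA : ι → Set ℝ := fun i => {x | x / lam (st i) ∈ Icc (lo i) (hi i)} with hKA
  set KC : ι → Set ℝ := fun i => {x | x / mu (st i) ∈ Icc (lo i) (hi i)} with hKC
  have gA : ∀ l, Glb KA (fun i => cj (lam (st i)) (hl0 _) (a i l)) := fun l =>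
    glb_cj st lo hi lam hl0 hsA _ (fun i => hsa i l)
  have gC : ∀ l, Glb KC (fun i => cj (mu (st i)) (hm0 _) (c i l)) := fun l =>
    glb_cj st lo hi mu hm0 hsC _ (fun i => hsc i l)
  have hbnn : ∀ i, 0 ≤ b0 i ∧ 0 ≤ b1 i ∧ 0 ≤ b2 i := fun i => by
    obtain ⟨h0, h1, h2⟩ := (hza i 0).bd 0
    exact ⟨(abs_nonneg _).trans h0, (abs_nonneg _).trans h1, (abs_nonneg _).trans h2⟩
  refine ⟨fun l => glue KA (fun i => cj (lam (st i)) (hl0 _) (a i l)),
    fun l => glue KC (fun i => cj (mu (st i)) (hm0 _) (c i l)), fun l => ⟨?_, ?_⟩, fun s => ?_⟩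
  · refine glue_adm st lo hi lam hl hl0 (fun i => a i l) (gA l) hlohi hfin
      (fun i => (hza i l).smooth) b0 b1 b2 (fun i x => (hza i l).bd x) ?_
    intro ε hε
    refine (hsmall ε hε).subset ?_
    intro i hi'
    simp only [mem_ofPred_eq] at hi' ⊢
    contrapose! hi'
    have h1 := hl (st i)
    have h2 := hm (st i)
    obtain ⟨n0, n1, n2⟩ := hbnn i
    have hhi : 0 ≤ hi i := ((hlohi i).1.trans (hlohi i).2).le
    refine ⟨le_trans ?_ hi'.1, le_trans ?_ hi'.2.1, le_trans ?_ hi'.2.2⟩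
    · exact mul_le_mul_of_nonneg_right (by linarith) n0
    · exact mul_le_mul_of_nonneg_right (mul_le_mul_of_nonneg_right (by linarith) hhi) n1
    · exact mul_le_mul_of_nonneg_right (mul_le_mul_of_nonneg_right (by linarith)
        (by positivity)) n2
  · refine glue_adm st lo hi mu hm hm0 (fun i => c i l) (gC l) hlohi hfin
      (fun i => (hzc i l).smooth) b0 b1 b2 (fun i x => (hzc i l).bd x) ?_
    intro ε hε
    refine (hsmall ε hε).subset ?_
    intro i hi'
    simp only [mem_ofPred_eq] at hi' ⊢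
    contrapose! hi'
    have h1 := hl (st i)
    have h2 := hm (st i)
    obtain ⟨n0, n1, n2⟩ := hbnn i
    have hhi : 0 ≤ hi i := ((hlohi i).1.trans (hlohi i).2).le
    refine ⟨le_trans ?_ hi'.1, le_trans ?_ hi'.2.1, le_trans ?_ hi'.2.2⟩
    · exact mul_le_mul_of_nonneg_right (by linarith) n0
    · exact mul_le_mul_of_nonneg_right (mul_le_mul_of_nonneg_right (by linarith) hhi) n1
    · exact mul_le_mul_of_nonneg_right (mul_le_mul_of_nonneg_right (by linarith)
        (by positivity)) n2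
  · -- extraction
    have hls : 0 < lam s := by linarith [hl s]
    have hms : 0 < mu s := by linarith [hm s]
    set Ks : {i // st i = s} → Set ℝ := fun i => Icc (lo i.1) (hi i.1) with hKs
    have hfA : ∀ (lam : ℕ → ℝ) (_ : ∀ s, 1 ≤ lam s), ∀ R, ∃ U, ∀ i, ∀ u ≤ R,
        lam s * u / lam (st i) ∈ Icc (lo i) (hi i) →
        ∀ v, lam s * v / lam (st i) ∈ Icc (lo i) (hi i) → v ≤ U := by
      intro lam hl R
      have hls : 0 < lam s := by linarith [hl s]
      obtain ⟨U, hU⟩ := ((hfin (lam s * |R|)).image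
        (fun i => hi i * lam (st i) / lam s)).bddAbove
      refine ⟨U, fun i u hu hi1 v hv => ?_⟩
      have hli : 1 ≤ lam (st i) := hl _
      have hli0 : 0 < lam (st i) := by linarith
      have h1 : lo i ≤ lam s * |R| := by
        have h2 := hi1.1
        rw [le_div_iff₀ hli0] at h2
        have h3 : lo i ≤ lo i * lam (st i) := by nlinarith [(hlohi i).1]
        have h4 : lam s * u ≤ lam s * |R| :=
          mul_le_mul_of_nonneg_left (hu.trans (le_abs_self R)) hls.le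
        linarith
      have h2 := hU (Set.mem_image_of_mem _ (show i ∈ {i | lo i ≤ lam s * |R|} from h1))
      refine le_trans ?_ h2
      rw [le_div_iff₀ hls]
      have := hv.2
      rw [div_le_iff₀ hli0] at this
      linarith
    have gs : ∀ (f : ι → Equiv.Perm ℝ), (∀ i, SuppIn (lo i) (hi i) (f i)) →
        Glb Ks (fun i => f i.1) := by
      intro f hf
      refine ⟨fun i j x hx hy => ?_, fun i x hx => (hf i.1).off hx⟩
      apply Subtype.ext
      have e : lam s * x / lam s = x := mul_div_cancel_left₀ _ (hl0 s)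
      refine hsA i.1 j.1 (lam s * x) ?_ ?_
      · rw [i.2, e]; exact hx
      · rw [j.2, e]; exact hy
    have hex : ∀ l, ∀ᶠ u in atTop,
        comm ((Dil (lam s) (hl0 s))⁻¹ * glue KA (fun i => cj (lam (st i)) (hl0 _) (a i l)) *
            Dil (lam s) (hl0 s))
          ((Dil (mu s) (hm0 s))⁻¹ * glue KC (fun i => cj (mu (st i)) (hm0 _) (c i l)) *
            Dil (mu s) (hm0 s)) u = glue Ks (fun i => comm (a i.1 l) (c i.1 l)) u := by
      intro l
      have h1 := extract st (fun i => Icc (lo i) (hi i)) lam mu hl0 hm0 (fun i => a i l)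
        (fun i => c i l) (gA l) (gC l) s (hsep s) (hfA lam hl) (hfA mu hm)
      have h2 := (Glb.comm (gs (fun i => a i l) (fun i => hsa i l))
        (gs (fun i => c i l) (fun i => hsc i l))).2
      filter_upwards [h1] with u hu
      rw [hu, h2]
    -- values of the glued commutators
    have hval : ∀ l, ∀ u, ∀ i, st i = s → u ∈ Icc (lo i) (hi i) →
        glue Ks (fun i => comm (a i.1 l) (c i.1 l)) u = comm (a i l) (c i l) u := by
      intro l u i hi' hu
      exact glue_mem (gs (fun i => comm (a i l) (c i l)) (fun i => (hsa i l).comm (hsc i l)))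
        (i := ⟨i, hi'⟩) hu
    have hval' : ∀ l, ∀ u, (∀ i, st i = s → u ∉ Icc (lo i) (hi i)) →
        glue Ks (fun i => comm (a i.1 l) (c i.1 l)) u = u := by
      intro l u hu
      exact glue_not_mem (gs (fun i => comm (a i l) (c i l)) (fun i => (hsa i l).comm (hsc i l)))
        (fun i => hu i.1 i.2)
    have htend : ∀ l, Tendsto (glue Ks (fun i => comm (a i.1 l) (c i.1 l))) atTop atTop := by
      intro l
      rw [tendsto_atTop]
      intro R
      obtain ⟨U, hU⟩ := ((hfin R).image hi).bddAbove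
      filter_upwards [eventually_gt_atTop U, eventually_ge_atTop R] with u hu huR
      by_cases h : ∃ i, st i = s ∧ u ∈ Icc (lo i) (hi i)
      · obtain ⟨i, hi', hu'⟩ := h
        rw [hval l u i hi' hu']
        have h1 := (((hsa i l).comm (hsc i l)).mem hu').1
        by_contra h2
        have h3 : lo i ≤ R := by linarith [not_le.1 h2]
        have h4 := hU (Set.mem_image_of_mem hi (show i ∈ {i | lo i ≤ R} from h3))
        linarith [hu'.2]
      · push Not at h
        rw [hval' l u h]; exact huR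
    filter_upwards [hex 2, (htend 2).eventually (hex 1),
      ((htend 1).comp (htend 2)).eventually (hex 0)] with u h2 h1 h0
    have hW : W3 (Dil (lam s) (hl0 s)) (Dil (mu s) (hm0 s))
        (fun l => glue KA (fun i => cj (lam (st i)) (hl0 _) (a i l)))
        (fun l => glue KC (fun i => cj (mu (st i)) (hm0 _) (c i l))) u =
        glue Ks (fun i => comm (a i.1 0) (c i.1 0)) (glue Ks (fun i => comm (a i.1 1) (c i.1 1))
          (glue Ks (fun i => comm (a i.1 2) (c i.1 2)) u)) := by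
      simp only [Function.comp_apply] at h0
      rw [W3_apply, ← h0, ← h1, ← h2]
    rw [hW]
    constructor
    · intro i hi' hu
      have m2 := ((hsa i 2).comm (hsc i 2)).mem hu
      have m1 := ((hsa i 1).comm (hsc i 1)).mem m2
      rw [hval 2 u i hi' hu, hval 1 _ i hi' m2, hval 0 _ i hi' m1]
      rfl
    · intro hu
      rw [hval' 2 u hu, hval' 1 u hu, hval' 0 u hu]

end Pool.Agent.Germ
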