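import Pool.Agent.Helper19.Germ.Defs

/-! Symbol calculus at `+∞`. -/

open Filter Topology

namespace Pool.Agent.Germ

theorem ev_nhds {P : ℝ → Prop} (h : ∀ᶠ u in atTop, P u) : ∀ᶠ u in atTop, ∀ᶠ x in 𝓝 u, P x := by
  obtain ⟨U, hU⟩ := eventually_atTop.1 h
  filter_upwards [eventually_gt_atTop U] with u hu
  filter_upwards [Ioi_mem_nhds hu] with x hx
  exact hU x (le_of_lt hx)

theorem deriv_congr_ev {f g : ℝ → ℝ} (h : f =ᶠ[atTop] g) : deriv f =ᶠ[atTop] deriv g := by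
  filter_upwards [ev_nhds h] with u hu
  exact Filter.EventuallyEq.deriv_eq hu

theorem SC.bound {n : ℕ} {m C : ℝ} {f : ℝ → ℝ} (h : SC n m C f) :
    ∀ᶠ u in atTop, |f u| ≤ C * u ^ m := by
  cases n with
  | zero => exact h
  | succ n => exact h.1

theorem SC.of_succ {n : ℕ} {m C : ℝ} {f : ℝ → ℝ} (h : SC (n + 1) m C f) : SC n m C f := by
  induction n generalizing m f with
  | zero => exact h.1
  | succ n ih => exact ⟨h.1, h.2.1, ih h.2.2⟩

theorem SC.of_le {n n' : ℕ} (hn : n' ≤ n) {m C : ℝ} {f : ℝ → ℝ} (h : SC n m C f) :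
    SC n' m C f := by
  induction n, hn using Nat.le_induction with
  | base => exact h
  | succ n _ ih => exact ih h.of_succ

theorem SC.mono_C {n : ℕ} {m C C' : ℝ} (hC : C ≤ C') {f : ℝ → ℝ} (h : SC n m C f) :
    SC n m C' f := by
  induction n generalizing m f with
  | zero =>
    filter_upwards [h, eventually_ge_atTop 0] with u hu h0
    exact hu.trans (mul_le_mul_of_nonneg_right hC (Real.rpow_nonneg h0 _))
  | succ n ih =>
    refine ⟨?_, h.2.1, ih h.2.2⟩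
    filter_upwards [h.1, eventually_ge_atTop 0] with u hu h0
    exact hu.trans (mul_le_mul_of_nonneg_right hC (Real.rpow_nonneg h0 _))

theorem SC.congr {n : ℕ} {m C : ℝ} {f g : ℝ → ℝ} (h : SC n m C f) (hfg : f =ᶠ[atTop] g) :
    SC n m C g := by
  induction n generalizing m f g with
  | zero =>
    filter_upwards [h, hfg] with u hu h0
    rw [← h0]; exact hu
  | succ n ih =>
    refine ⟨?_, ?_, ih h.2.2 (deriv_congr_ev hfg)⟩
    · filter_upwards [h.1, hfg] with u hu h0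
      rw [← h0]; exact hu
    · filter_upwards [h.2.1, ev_nhds hfg] with u hu h0
      exact (Filter.EventuallyEq.differentiableAt_iff h0).1 hu

theorem SC.mono_m {n : ℕ} {m m' C : ℝ} (hm : m ≤ m') (hC : 0 ≤ C) {f : ℝ → ℝ} (h : SC n m C f) :
    SC n m' C f := by
  induction n generalizing m m' f with
  | zero =>
    filter_upwards [h, eventually_ge_atTop 1] with u hu h0
    exact hu.trans (mul_le_mul_of_nonneg_left (Real.rpow_le_rpow_of_exponent_le h0 hm) hC)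
  | succ n ih =>
    refine ⟨?_, h.2.1, ih (by linarith) h.2.2⟩
    filter_upwards [h.1, eventually_ge_atTop 1] with u hu h0
    exact hu.trans (mul_le_mul_of_nonneg_left (Real.rpow_le_rpow_of_exponent_le h0 hm) hC)

theorem SC.add {n : ℕ} {m C C' : ℝ} {f g : ℝ → ℝ} (hf : SC n m C f) (hg : SC n m C' g) :
    SC n m (C + C') (fun u => f u + g u) := by
  induction n generalizing m f g with
  | zero =>
    filter_upwards [hf, hg] with u h1 h2
    calc |f u + g u| ≤ |f u| + |g u| := abs_add_le _ _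
      _ ≤ C * u ^ m + C' * u ^ m := add_le_add h1 h2
      _ = (C + C') * u ^ m := by ring
  | succ n ih =>
    refine ⟨?_, ?_, ?_⟩
    · filter_upwards [hf.1, hg.1] with u h1 h2
      calc |f u + g u| ≤ |f u| + |g u| := abs_add_le _ _
        _ ≤ C * u ^ m + C' * u ^ m := add_le_add h1 h2
        _ = (C + C') * u ^ m := by ring
    · filter_upwards [hf.2.1, hg.2.1] with u h1 h2
      exact h1.add h2
    · refine (ih hf.2.2 hg.2.2).congr ?_
      filter_upwards [hf.2.1, hg.2.1] with u h1 h2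
      exact (deriv_fun_add h1 h2).symm

theorem SC.const_mul {n : ℕ} {m C : ℝ} (c : ℝ) {f : ℝ → ℝ} (hf : SC n m C f) :
    SC n m (|c| * C) (fun u => c * f u) := by
  induction n generalizing m f with
  | zero =>
    filter_upwards [hf] with u h1
    rw [abs_mul, mul_assoc]
    exact mul_le_mul_of_nonneg_left h1 (abs_nonneg _)
  | succ n ih =>
    refine ⟨?_, ?_, ?_⟩
    · filter_upwards [hf.1] with u h1
      rw [abs_mul, mul_assoc]
      exact mul_le_mul_of_nonneg_left h1 (abs_nonneg _)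
    · filter_upwards [hf.2.1] with u h1
      exact h1.const_mul c
    · refine (ih hf.2.2).congr ?_
      filter_upwards [hf.2.1] with u h1
      exact (deriv_const_mul c h1).symm

theorem SC.neg {n : ℕ} {m C : ℝ} {f : ℝ → ℝ} (hf : SC n m C f) : SC n m C (fun u => - f u) := by
  have := hf.const_mul (-1)
  simpa using this

theorem SC.sub {n : ℕ} {m C C' : ℝ} {f g : ℝ → ℝ} (hf : SC n m C f) (hg : SC n m C' g) :
    SC n m (C + C') (fun u => f u - g u) := by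
  simpa [sub_eq_add_neg] using hf.add hg.neg

theorem SC.mul {n : ℕ} {m m' C C' : ℝ} (hC : 0 ≤ C) (hC' : 0 ≤ C') {f g : ℝ → ℝ}
    (hf : SC n m C f) (hg : SC n m' C' g) :
    SC n (m + m') (2 ^ n * (C * C')) (fun u => f u * g u) := by
  have base : ∀ {m m' : ℝ} {f g : ℝ → ℝ}, (∀ᶠ u in atTop, |f u| ≤ C * u ^ m) →
      (∀ᶠ u in atTop, |g u| ≤ C' * u ^ m') →
      ∀ᶠ u in atTop, |f u * g u| ≤ (C * C') * u ^ (m + m') := by
    intro m m' f g hf hg
    filter_upwards [hf, hg, eventually_gt_atTop 0] with u h1 h2 h0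
    rw [abs_mul, Real.rpow_add h0]
    calc |f u| * |g u| ≤ (C * u ^ m) * (C' * u ^ m') :=
          mul_le_mul h1 h2 (abs_nonneg _) (mul_nonneg hC (Real.rpow_nonneg h0.le _))
      _ = _ := by ring
  induction n generalizing m m' f g with
  | zero =>
    have := base hf hg
    rw [pow_zero, one_mul]
    exact this
  | succ n ih =>
    have hk : (C * C') ≤ 2 ^ (n + 1) * (C * C') := by
      have : (1 : ℝ) ≤ 2 ^ (n + 1) := one_le_pow₀ (by norm_num)
      nlinarith [mul_nonneg hC hC']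
    refine ⟨?_, ?_, ?_⟩
    · filter_upwards [base hf.1 hg.1, eventually_ge_atTop 0] with u h1 h0
      exact h1.trans (mul_le_mul_of_nonneg_right hk (Real.rpow_nonneg h0 _))
    · filter_upwards [hf.2.1, hg.2.1] with u h1 h2
      exact h1.mul h2
    · have h1 := ih hf.2.2 hg.of_succ
      have h2 := ih hf.of_succ hg.2.2
      rw [show m - 1 + m' = m + m' - 1 by ring] at h1
      rw [show m + (m' - 1) = m + m' - 1 by ring] at h2
      have h3 := h1.add h2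
      rw [show 2 ^ n * (C * C') + 2 ^ n * (C * C') = 2 ^ (n + 1) * (C * C') by ring] at h3
      refine h3.congr ?_
      filter_upwards [hf.2.1, hg.2.1] with u h1 h2
      exact (deriv_fun_mul h1 h2).symm

/-! `Sy` versions -/

theorem SC.sy {n : ℕ} {m C : ℝ} {f : ℝ → ℝ} (h : SC n m C f) : Sy n m f := ⟨C, h⟩

theorem Sy.pos {n : ℕ} {m : ℝ} {f : ℝ → ℝ} (h : Sy n m f) : ∃ C, 0 ≤ C ∧ SC n m C f := by
  obtain ⟨C, hC⟩ := h
  exact ⟨max C 0, le_max_right _ _, hC.mono_C (le_max_left _ _)⟩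

theorem Sy.of_le {n n' : ℕ} (hn : n' ≤ n) {m : ℝ} {f : ℝ → ℝ} (h : Sy n m f) : Sy n' m f :=
  let ⟨C, hC⟩ := h; ⟨C, hC.of_le hn⟩

theorem Sy.of_succ {n : ℕ} {m : ℝ} {f : ℝ → ℝ} (h : Sy (n + 1) m f) : Sy n m f :=
  h.of_le (Nat.le_succ n)

theorem Sy.mono {n : ℕ} {m m' : ℝ} (hm : m ≤ m') {f : ℝ → ℝ} (h : Sy n m f) : Sy n m' f := by
  obtain ⟨C, h0, hC⟩ := h.pos
  exact ⟨C, hC.mono_m hm h0⟩

theorem Sy.congr {n : ℕ} {m : ℝ} {f g : ℝ → ℝ} (h : Sy n m f) (hfg : f =ᶠ[atTop] g) :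
    Sy n m g := let ⟨C, hC⟩ := h; ⟨C, hC.congr hfg⟩

theorem Sy.add {n : ℕ} {m : ℝ} {f g : ℝ → ℝ} (hf : Sy n m f) (hg : Sy n m g) :
    Sy n m (fun u => f u + g u) := let ⟨_, hC⟩ := hf; let ⟨_, hD⟩ := hg; ⟨_, hC.add hD⟩

theorem Sy.neg {n : ℕ} {m : ℝ} {f : ℝ → ℝ} (hf : Sy n m f) :
    Sy n m (fun u => - f u) := let ⟨_, hC⟩ := hf; ⟨_, hC.neg⟩

theorem Sy.sub {n : ℕ} {m : ℝ} {f g : ℝ → ℝ} (hf : Sy n m f) (hg : Sy n m g) :
    Sy n m (fun u => f u - g u) := let ⟨_, hC⟩ := hf; let ⟨_, hD⟩ := hg; ⟨_, hC.sub hD⟩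

theorem Sy.const_mul {n : ℕ} {m : ℝ} (c : ℝ) {f : ℝ → ℝ} (hf : Sy n m f) :
    Sy n m (fun u => c * f u) := let ⟨_, hC⟩ := hf; ⟨_, hC.const_mul c⟩

theorem Sy.mul {n : ℕ} {m m' : ℝ} {f g : ℝ → ℝ} (hf : Sy n m f) (hg : Sy n m' g) :
    Sy n (m + m') (fun u => f u * g u) := by
  obtain ⟨C, h0, hC⟩ := hf.pos
  obtain ⟨D, h0', hD⟩ := hg.pos
  exact ⟨_, hC.mul h0 h0' hD⟩

theorem Sy.bound {n : ℕ} {m : ℝ} {f : ℝ → ℝ} (h : Sy n m f) :
    ∃ C, 0 ≤ C ∧ ∀ᶠ u in atTop, |f u| ≤ C * u ^ m := by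
  obtain ⟨C, h0, hC⟩ := h.pos
  exact ⟨C, h0, hC.bound⟩

theorem Sy.diff {n : ℕ} {m : ℝ} {f : ℝ → ℝ} (h : Sy (n + 1) m f) :
    ∀ᶠ u in atTop, DifferentiableAt ℝ f u := let ⟨_, hC⟩ := h; hC.2.1

theorem Sy.dv {n : ℕ} {m : ℝ} {f : ℝ → ℝ} (h : Sy (n + 1) m f) :
    Sy n (m - 1) (deriv f) := let ⟨C, hC⟩ := h; ⟨C, hC.2.2⟩

theorem SC_zero (n : ℕ) (m : ℝ) : SC n m 0 (fun _ => (0 : ℝ)) := by
  induction n generalizing m with
  | zero => simp [SC]
  | succ n ih =>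
    refine ⟨by simp, Eventually.of_forall fun _ => differentiableAt_const _, ?_⟩
    have : deriv (fun _ : ℝ => (0 : ℝ)) = fun _ => (0 : ℝ) := by funext x; simp
    rw [this]; exact ih _

theorem SC_const (n : ℕ) (c : ℝ) : SC n 0 |c| (fun _ => c) := by
  cases n with
  | zero => simp [SC]
  | succ n =>
    refine ⟨by simp, Eventually.of_forall fun _ => differentiableAt_const _, ?_⟩
    have : deriv (fun _ : ℝ => c) = fun _ => (0 : ℝ) := by funext x; simp
    rw [this]; exact (SC_zero n _).mono_C (abs_nonneg _)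

theorem Sy_zero (n : ℕ) (m : ℝ) : Sy n m (fun _ => (0 : ℝ)) := ⟨_, SC_zero n m⟩
theorem Sy_const (n : ℕ) (c : ℝ) : Sy n 0 (fun _ => c) := ⟨_, SC_const n c⟩

theorem Sy.succ {n : ℕ} {m : ℝ} {f : ℝ → ℝ} (hb : ∃ C, ∀ᶠ u in atTop, |f u| ≤ C * u ^ m)
    {f' : ℝ → ℝ} (hd : ∀ᶠ u in atTop, HasDerivAt f (f' u) u) (h : Sy n (m - 1) f') :
    Sy (n + 1) m f := by
  obtain ⟨C, hC⟩ := hb
  have h' : Sy n (m - 1) (deriv f) := h.congr (by
    filter_upwards [hd] with u hu using hu.deriv.symm)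
  obtain ⟨D, hD⟩ := h'
  refine ⟨max C D, ?_, ?_, hD.mono_C (le_max_right _ _)⟩
  · filter_upwards [hC, eventually_ge_atTop 0] with u hu h0
    exact hu.trans (mul_le_mul_of_nonneg_right (le_max_left _ _) (Real.rpow_nonneg h0 _))
  · filter_upwards [hd] with u hu using hu.differentiableAt

/-! composition -/

/-- `F u = lam u + w u`, `w` a symbol of order `0` -/
def NL (n : ℕ) (lam : ℝ) (F : ℝ → ℝ) : Prop := 0 < lam ∧ Sy n 0 (fun u => F u - lam * u)

theorem NL.of_le {n n' : ℕ} (hn : n' ≤ n) {lam : ℝ} {F : ℝ → ℝ} (h : NL n lam F) :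
    NL n' lam F := ⟨h.1, h.2.of_le hn⟩

theorem NL.growth {n : ℕ} {lam : ℝ} {F : ℝ → ℝ} (h : NL n lam F) :
    ∀ᶠ u in atTop, lam / 2 * u ≤ F u ∧ F u ≤ 2 * lam * u := by
  obtain ⟨hl, hF⟩ := h
  obtain ⟨C, h0, hC⟩ := hF.bound
  filter_upwards [hC, eventually_ge_atTop (2 * C / lam), eventually_gt_atTop 0] with u h1 h2 h3
  rw [Real.rpow_zero, mul_one, abs_le] at h1
  have h4 : C ≤ lam / 2 * u := by
    rw [div_le_iff₀ hl] at h2; nlinarith
  constructor <;> nlinarith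

theorem NL.tendsto {n : ℕ} {lam : ℝ} {F : ℝ → ℝ} (h : NL n lam F) : Tendsto F atTop atTop := by
  have h1 : Tendsto (fun u : ℝ => lam / 2 * u) atTop atTop :=
    Tendsto.const_mul_atTop (by linarith [h.1]) tendsto_id
  exact tendsto_atTop_mono' _ (by filter_upwards [h.growth] with u hu using hu.1) h1

theorem NL.diff {n : ℕ} {lam : ℝ} {F : ℝ → ℝ} (h : NL (n + 1) lam F) :
    ∀ᶠ u in atTop, DifferentiableAt ℝ F u := by
  filter_upwards [h.2.diff] with u hu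
  have : DifferentiableAt ℝ (fun u => (F u - lam * u) + lam * u) u :=
    hu.add ((differentiableAt_id).const_mul lam)
  simpa using this

theorem NL.dv {n : ℕ} {lam : ℝ} {F : ℝ → ℝ} (h : NL (n + 1) lam F) :
    Sy n (-1) (fun u => deriv F u - lam) := by
  have h1 := h.2.dv
  rw [zero_sub] at h1
  refine h1.congr ?_
  filter_upwards [h.diff] with u hu
  have := (hu.hasDerivAt.fun_sub ((hasDerivAt_id u).const_mul lam)).deriv
  simpa using this

theorem rpow_le_of_comparable {a b m : ℝ} (ha : 0 < a) (hab : a ≤ b) :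
    ∃ K, 0 ≤ K ∧ ∀ u v : ℝ, 0 < u → a * u ≤ v → v ≤ b * u → v ^ m ≤ K * u ^ m := by
  refine ⟨a ^ m + b ^ m, add_nonneg (Real.rpow_nonneg ha.le _) (Real.rpow_nonneg (ha.le.trans hab) _), ?_⟩
  intro u v hu h1 h2
  have hb : 0 < b := lt_of_lt_of_le ha hab
  rcases le_total 0 m with hm | hm
  · have : v ^ m ≤ (b * u) ^ m := Real.rpow_le_rpow (by nlinarith) h2 hm
    rw [Real.mul_rpow hb.le hu.le] at this
    have h3 : 0 ≤ a ^ m * u ^ m := mul_nonneg (Real.rpow_nonneg ha.le _) (Real.rpow_nonneg hu.le _)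
    linarith [add_mul (a ^ m) (b ^ m) (u ^ m)]
  · have : v ^ m ≤ (a * u) ^ m := Real.rpow_le_rpow_of_nonpos (by positivity) h1 hm
    rw [Real.mul_rpow ha.le hu.le] at this
    have h3 : 0 ≤ b ^ m * u ^ m := mul_nonneg (Real.rpow_nonneg hb.le _) (Real.rpow_nonneg hu.le _)
    linarith [add_mul (a ^ m) (b ^ m) (u ^ m)]

theorem SC.comp {n : ℕ} (m : ℝ) {lam : ℝ} {F : ℝ → ℝ} (hF : NL n lam F) :
    ∃ K, 0 ≤ K ∧ ∀ (C : ℝ) (f : ℝ → ℝ), 0 ≤ C → SC n m C f → SC n m (K * C) (fun u => f (F u)) := by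
  have base : ∀ (m : ℝ), NL 0 lam F → ∃ K, 0 ≤ K ∧ ∀ (C : ℝ) (f : ℝ → ℝ), 0 ≤ C → (∀ᶠ u in atTop, |f u| ≤ C * u ^ m) →
      ∀ᶠ u in atTop, |f (F u)| ≤ (K * C) * u ^ m := by
    intro m hF
    obtain ⟨K, hK0, hK⟩ := rpow_le_of_comparable (a := lam / 2) (b := 2 * lam) (m := m)
      (by linarith [hF.1]) (by linarith [hF.1])
    refine ⟨K, hK0, fun C f hC hf => ?_⟩
    filter_upwards [hF.tendsto.eventually hf, hF.growth, eventually_gt_atTop 0] with u h1 h2 h3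
    calc |f (F u)| ≤ C * (F u) ^ m := h1
      _ ≤ C * (K * u ^ m) := mul_le_mul_of_nonneg_left (hK u (F u) h3 h2.1 h2.2) hC
      _ = _ := by ring
  induction n generalizing m with
  | zero =>
    obtain ⟨K, h0, hK⟩ := base m hF
    exact ⟨K, h0, hK⟩
  | succ n ih =>
    obtain ⟨K, h0, hK⟩ := base m (hF.of_le (Nat.zero_le _))
    obtain ⟨K1, h01, hK1⟩ := ih (m - 1) (hF.of_le (Nat.le_succ n))
    have hF' : Sy n 0 (deriv F) := by
      have h1 := (hF.dv.mono (show (-1 : ℝ) ≤ 0 by norm_num)).add (Sy_const n lam)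
      simpa using h1
    obtain ⟨K2, h02, hK2⟩ := hF'.pos
    refine ⟨K + 2 ^ n * (K1 * K2), by positivity, fun C f hC hf => ⟨?_, ?_, ?_⟩⟩
    · filter_upwards [hK C f hC hf.1, eventually_ge_atTop 0] with u h1 h3
      refine h1.trans (mul_le_mul_of_nonneg_right ?_ (Real.rpow_nonneg h3 _))
      have : 0 ≤ 2 ^ n * (K1 * K2) * C := by positivity
      nlinarith
    · filter_upwards [hF.tendsto.eventually hf.2.1, hF.diff] with u h1 h2
      exact h1.comp u h2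
    · have h1 := (hK1 C _ hC hf.2.2).mul (by positivity) h02 hK2
      rw [add_zero] at h1
      refine (h1.mono_C (C' := (K + 2 ^ n * (K1 * K2)) * C) ?_).congr ?_
      · have : 0 ≤ K * C := by positivity
        nlinarith
      · filter_upwards [hF.tendsto.eventually hf.2.1, hF.diff] with u h1 h2
        exact (((h1.hasDerivAt).comp u h2.hasDerivAt).deriv).symm

theorem Sy.comp {n : ℕ} {m lam : ℝ} {F f : ℝ → ℝ} (hf : Sy n m f) (hF : NL n lam F) :
    Sy n m (fun u => f (F u)) := by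
  obtain ⟨C, h0, hC⟩ := hf.pos
  obtain ⟨K, _, hK⟩ := SC.comp m hF
  exact ⟨_, hK C f h0 hC⟩

theorem So.comp {n : ℕ} {m lam : ℝ} {F f : ℝ → ℝ} (hf : So n m f) (hF : NL n lam F) :
    So n m (fun u => f (F u)) := by
  obtain ⟨K, h0, hK⟩ := SC.comp m hF
  intro C hC
  have h1 := hK (C / (K + 1)) f (by positivity) (hf _ (by positivity))
  refine h1.mono_C ?_
  rw [mul_div_assoc', div_le_iff₀ (by positivity)]
  nlinarith

end Pool.Agent.Germ
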