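import Pool.Agent.Helper19.Germ.Sym

/-! Symbol calculus at `+∞`, part 2: differences, outer functions, inverses. -/

open Filter Topology

namespace Pool.Agent.Germ

/-- `F u = u + w u` with `w ∈ Sy n μ`, `μ ≤ 0` is near linear. -/
theorem NL_of_sub {n : ℕ} {μ : ℝ} (hμ : μ ≤ 0) {F : ℝ → ℝ} (h : Sy n μ (fun u => F u - u)) :
    NL n 1 F := ⟨one_pos, by simpa using h.mono hμ⟩

theorem ev_segment {P : ℝ → Prop} (c : ℝ) (h : ∀ᶠ u in atTop, P u) :
    ∀ᶠ u in atTop, ∀ x, |x - u| ≤ c → P x := by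
  obtain ⟨U, hU⟩ := eventually_atTop.1 h
  filter_upwards [eventually_ge_atTop (U + c)] with u hu x hx
  exact hU x (by have := abs_le.1 hx; linarith)

theorem Sy.comp_sub {n : ℕ} {m μ : ℝ} (hμ : μ ≤ 0) {F f : ℝ → ℝ} (hf : Sy (n + 1) m f)
    (hw : Sy n μ (fun u => F u - u)) :
    Sy n (m - 1 + μ) (fun u => f (F u) - f u) := by
  have base : ∀ {m : ℝ} {f : ℝ → ℝ}, Sy 1 m f → Sy 0 μ (fun u => F u - u) →
      ∃ C, ∀ᶠ u in atTop, |f (F u) - f u| ≤ C * u ^ (m - 1 + μ) := by
    intro m f hf hw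
    obtain ⟨C, h0, hC⟩ := hf.dv.bound
    obtain ⟨D, hD0, hD⟩ := hw.bound
    obtain ⟨K, hK0, hK⟩ := rpow_le_of_comparable (a := 1/2) (b := 2) (m := m - 1) (by norm_num)
      (by norm_num)
    refine ⟨C * K * D, ?_⟩
    filter_upwards [ev_segment D hC, ev_segment D hf.diff, hD, eventually_ge_atTop 1,
      eventually_ge_atTop (2 * D)] with u h1 h2 h3 h4 h5
    have hu0 : 0 < u := by linarith
    have hFu : |F u - u| ≤ D := by
      refine h3.trans ?_
      have : u ^ μ ≤ 1 := Real.rpow_le_one_of_one_le_of_nonpos h4 hμ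
      nlinarith
    have hseg : ∀ x ∈ Set.uIcc u (F u), |x - u| ≤ D := by
      intro x hx
      refine le_trans ?_ hFu
      rcases Set.mem_uIcc.1 hx with hx | hx
      · rw [abs_of_nonneg (by linarith [hx.1]), abs_of_nonneg (by linarith [hx.1, hx.2])]
        linarith [hx.2]
      · rw [abs_of_nonpos (by linarith [hx.2]), abs_of_nonpos (by linarith [hx.1, hx.2])]
        linarith [hx.1]
    have hd : ∀ x ∈ Set.uIcc u (F u), |deriv f x| ≤ C * K * u ^ (m - 1) := by
      intro x hx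
      have hx1 := hseg x hx
      have hx2 := abs_le.1 hx1
      refine (h1 x hx1).trans ?_
      have := hK u x hu0 (by linarith [hx2.1]) (by linarith [hx2.2])
      calc C * x ^ (m - 1) ≤ C * (K * u ^ (m - 1)) := mul_le_mul_of_nonneg_left this h0
        _ = _ := by ring
    have hmv := Convex.norm_image_sub_le_of_norm_deriv_le (𝕜 := ℝ) (f := f) (s := Set.uIcc u (F u))
      (C := C * K * u ^ (m - 1)) (x := u) (y := F u)
      (fun x hx => h2 x (hseg x hx)) (fun x hx => by
        rw [Real.norm_eq_abs]; exact hd x hx) (convex_uIcc _ _) Set.left_mem_uIcc Set.right_mem_uIcc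
    rw [Real.norm_eq_abs, Real.norm_eq_abs] at hmv
    refine hmv.trans ?_
    rw [Real.rpow_add hu0]
    calc C * K * u ^ (m - 1) * |F u - u| ≤ C * K * u ^ (m - 1) * (D * u ^ μ) :=
          mul_le_mul_of_nonneg_left h3 (by positivity)
      _ = _ := by ring
  induction n generalizing m f with
  | zero =>
    obtain ⟨C, hC⟩ := base hf hw
    exact ⟨C, hC⟩
  | succ n ih =>
    have hNL : NL (n + 1) 1 F := NL_of_sub hμ hw
    have hF' : ∀ᶠ u in atTop, HasDerivAt F (deriv F u) u := by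
      filter_upwards [hNL.diff] with u hu using hu.hasDerivAt
    have hw' : Sy n (μ - 1) (fun u => deriv F u - 1) := by
      refine hw.dv.congr ?_
      filter_upwards [hF'] with u hu
      have := (hu.fun_sub (hasDerivAt_id u)).deriv
      simpa using this
    have h1 := ih hf.dv hw.of_succ
    have h2 : Sy n (m - 1) (fun u => deriv f (F u)) :=
      (hf.dv.of_succ).comp (hNL.of_le (Nat.le_succ n))
    have h3 := h2.mul hw'
    rw [show m - 1 - 1 + μ = m - 1 + μ - 1 by ring] at h1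
    rw [show m - 1 + (μ - 1) = m - 1 + μ - 1 by ring] at h3
    refine Sy.succ (base (hf.of_le (by omega)) (hw.of_le (by omega))) ?_ (h1.add h3)
    filter_upwards [hF', hNL.tendsto.eventually hf.diff, hf.diff] with u hu h4 h5
    have h6 : HasDerivAt (fun u => f (F u) - f u) (deriv f (F u) * deriv F u - deriv f u) u :=
      (h4.hasDerivAt.comp u hu).fun_sub h5.hasDerivAt
    convert h6 using 1
    ring

/-- second order Taylor remainder -/
theorem taylor2 {f : ℝ → ℝ} {u y M : ℝ} (h1 : ∀ x ∈ Set.uIcc u y, DifferentiableAt ℝ f x)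
    (h2 : ∀ x ∈ Set.uIcc u y, DifferentiableAt ℝ (deriv f) x)
    (h3 : ∀ x ∈ Set.uIcc u y, |deriv (deriv f) x| ≤ M) :
    |f y - f u - deriv f u * (y - u)| ≤ M * |y - u| ^ 2 := by
  have hM : 0 ≤ M := (abs_nonneg _).trans (h3 u Set.left_mem_uIcc)
  have hd : ∀ x ∈ Set.uIcc u y, |deriv f x - deriv f u| ≤ M * |y - u| := by
    intro x hx
    have hsub : Set.uIcc u x ⊆ Set.uIcc u y := Set.uIcc_subset_uIcc Set.left_mem_uIcc hx
    have := Convex.norm_image_sub_le_of_norm_deriv_le (𝕜 := ℝ) (f := deriv f)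
      (s := Set.uIcc u x) (C := M) (x := u) (y := x)
      (fun z hz => h2 z (hsub hz)) (fun z hz => by rw [Real.norm_eq_abs]; exact h3 z (hsub hz))
      (convex_uIcc _ _) Set.left_mem_uIcc Set.right_mem_uIcc
    rw [Real.norm_eq_abs, Real.norm_eq_abs] at this
    refine this.trans (mul_le_mul_of_nonneg_left ?_ hM)
    rcases Set.mem_uIcc.1 hx with hx | hx
    · rw [abs_of_nonneg (by linarith [hx.1]), abs_of_nonneg (by linarith [hx.1, hx.2])]
      linarith [hx.2]
    · rw [abs_of_nonpos (by linarith [hx.2]), abs_of_nonpos (by linarith [hx.1, hx.2])]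
      linarith [hx.1]
  have h4 := Convex.norm_image_sub_le_of_norm_deriv_le (𝕜 := ℝ)
      (f := fun x => f x - deriv f u * x)
      (s := Set.uIcc u y) (C := M * |y - u|) (x := u) (y := y)
      (fun z hz => (h1 z hz).sub (differentiableAt_id.const_mul _)) (fun z hz => by
        have := ((h1 z hz).hasDerivAt.fun_sub ((hasDerivAt_id z).const_mul (deriv f u))).deriv
        simp only [id] at this
        rw [this, mul_one, Real.norm_eq_abs]; exact hd z hz)
      (convex_uIcc _ _) Set.left_mem_uIcc Set.right_mem_uIcc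
  rw [Real.norm_eq_abs, Real.norm_eq_abs] at h4
  rw [show f y - f u - deriv f u * (y - u) = f y - deriv f u * y - (f u - deriv f u * u) by ring]
  refine h4.trans (le_of_eq (by ring))

theorem Sy.comp_sub2 {n : ℕ} {m μ : ℝ} (hμ : μ ≤ 0) {F f : ℝ → ℝ} (hf : Sy (n + 2) m f)
    (hw : Sy n μ (fun u => F u - u)) :
    Sy n (m - 2 + 2 * μ) (fun u => f (F u) - f u - deriv f u * (F u - u)) := by
  have base : ∀ {m : ℝ} {f : ℝ → ℝ}, Sy 2 m f → Sy 0 μ (fun u => F u - u) →
      ∃ C, ∀ᶠ u in atTop, |f (F u) - f u - deriv f u * (F u - u)| ≤ C * u ^ (m - 2 + 2 * μ) := by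
    intro m f hf hw
    obtain ⟨C, h0, hC⟩ := hf.dv.dv.bound
    obtain ⟨D, hD0, hD⟩ := hw.bound
    obtain ⟨K, hK0, hK⟩ := rpow_le_of_comparable (a := 1/2) (b := 2) (m := m - 1 - 1) (by norm_num)
      (by norm_num)
    refine ⟨C * K * D ^ 2, ?_⟩
    filter_upwards [ev_segment D hC, ev_segment D hf.diff, ev_segment D hf.dv.diff, hD,
      eventually_ge_atTop 1, eventually_ge_atTop (2 * D)] with u h1 h2 h2' h3 h4 h5
    have hu0 : 0 < u := by linarith
    have hFu : |F u - u| ≤ D := by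
      refine h3.trans ?_
      have : u ^ μ ≤ 1 := Real.rpow_le_one_of_one_le_of_nonpos h4 hμ
      nlinarith
    have hseg : ∀ x ∈ Set.uIcc u (F u), |x - u| ≤ D := by
      intro x hx
      refine le_trans ?_ hFu
      rcases Set.mem_uIcc.1 hx with hx | hx
      · rw [abs_of_nonneg (by linarith [hx.1]), abs_of_nonneg (by linarith [hx.1, hx.2])]
        linarith [hx.2]
      · rw [abs_of_nonpos (by linarith [hx.2]), abs_of_nonpos (by linarith [hx.1, hx.2])]
        linarith [hx.1]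
    have hd : ∀ x ∈ Set.uIcc u (F u), |deriv (deriv f) x| ≤ C * K * u ^ (m - 1 - 1) := by
      intro x hx
      have hx1 := hseg x hx
      have hx2 := abs_le.1 hx1
      refine (h1 x hx1).trans ?_
      have := hK u x hu0 (by linarith [hx2.1]) (by linarith [hx2.2])
      calc C * x ^ (m - 1 - 1) ≤ C * (K * u ^ (m - 1 - 1)) := mul_le_mul_of_nonneg_left this h0
        _ = _ := by ring
    have hmv := taylor2 (f := f) (u := u) (y := F u) (fun x hx => h2 x (hseg x hx))
      (fun x hx => h2' x (hseg x hx)) hd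
    refine hmv.trans ?_
    rw [Real.rpow_add hu0, show m - 1 - 1 = m - 2 by ring, mul_comm 2 μ, Real.rpow_mul hu0.le,
      Real.rpow_two]
    have h6 : |F u - u| ^ 2 ≤ (D * u ^ μ) ^ 2 := pow_le_pow_left₀ (abs_nonneg _) h3 2
    calc C * K * u ^ (m - 2) * |F u - u| ^ 2 ≤ C * K * u ^ (m - 2) * (D * u ^ μ) ^ 2 :=
          mul_le_mul_of_nonneg_left h6 (by positivity)
      _ = _ := by ring
  induction n generalizing m f with
  | zero =>
    obtain ⟨C, hC⟩ := base hf hw
    exact ⟨C, hC⟩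
  | succ n ih =>
    have hNL : NL (n + 1) 1 F := NL_of_sub hμ hw
    have hF' : ∀ᶠ u in atTop, HasDerivAt F (deriv F u) u := by
      filter_upwards [hNL.diff] with u hu using hu.hasDerivAt
    have hw' : Sy n (μ - 1) (fun u => deriv F u - 1) := by
      refine hw.dv.congr ?_
      filter_upwards [hF'] with u hu
      have := (hu.fun_sub (hasDerivAt_id u)).deriv
      simpa using this
    have h1 := ih hf.dv hw.of_succ
    have h2 : Sy n (m - 1 - 1 + μ) (fun u => deriv f (F u) - deriv f u) :=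
      (hf.dv.of_succ).comp_sub hμ hw.of_succ
    have h3 := h2.mul hw'
    rw [show m - 1 - 2 + 2 * μ = m - 2 + 2 * μ - 1 by ring] at h1
    rw [show m - 1 - 1 + μ + (μ - 1) = m - 2 + 2 * μ - 1 by ring] at h3
    refine Sy.succ (base (hf.of_le (by omega)) (hw.of_le (by omega))) ?_ (h1.add h3)
    filter_upwards [hF', hNL.tendsto.eventually hf.diff, hf.diff, hf.dv.diff] with u hu h4 h5 h7
    have h6 : HasDerivAt (fun u => f (F u) - f u - deriv f u * (F u - u))
        (deriv f (F u) * deriv F u - deriv f u -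
          (deriv (deriv f) u * (F u - u) + deriv f u * (deriv F u - 1))) u :=
      ((h4.hasDerivAt.comp u hu).fun_sub h5.hasDerivAt).fun_sub
        (h7.hasDerivAt.fun_mul (hu.fun_sub (hasDerivAt_id u)))
    convert h6 using 1
    ring

/-- outer composition with a smooth function vanishing at `0` -/
theorem Sy.outer {n : ℕ} {m : ℝ} (hm : m < 0) {b : ℝ → ℝ} (hb : Sy n m b) (Ψ : ℝ → ℝ)
    (hΨ : ContDiff ℝ (⊤ : ℕ∞) Ψ) (h0 : Ψ 0 = 0) : Sy n m (fun u => Ψ (b u)) := by
  have hb0 : ∀ {n : ℕ}, Sy n m b → Tendsto b atTop (𝓝 0) := by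
    intro n hb
    obtain ⟨C, hC0, hC⟩ := hb.bound
    have h1 : Tendsto (fun u : ℝ => C * u ^ m) atTop (𝓝 0) := by
      have := (tendsto_rpow_neg_atTop (y := -m) (by linarith)).const_mul C
      simpa using this
    exact squeeze_zero_norm' (by simpa [Real.norm_eq_abs] using hC) h1
  have base : ∀ (Ψ : ℝ → ℝ), ContDiff ℝ (⊤ : ℕ∞) Ψ → Ψ 0 = 0 → Sy 0 m b →
      ∃ C, ∀ᶠ u in atTop, |Ψ (b u)| ≤ C * u ^ m := by
    intro Ψ hΨ h0 hb
    obtain ⟨C, hC0, hC⟩ := hb.bound
    have hd : DifferentiableAt ℝ Ψ 0 := hΨ.differentiable (by simp) 0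
    have hO := hd.hasDerivAt.isBigO_sub
    rw [h0] at hO
    have hO2 := hO.comp_tendsto (hb0 hb)
    obtain ⟨D, hD0, hD⟩ := hO2.exists_pos
    refine ⟨D * C, ?_⟩
    filter_upwards [hD.bound, hC] with u h1 h2
    simp only [Function.comp, sub_zero, Real.norm_eq_abs] at h1
    calc |Ψ (b u)| ≤ D * |b u| := h1
      _ ≤ D * (C * u ^ m) := mul_le_mul_of_nonneg_left h2 hD0.le
      _ = _ := by ring
  induction n generalizing Ψ with
  | zero =>
    obtain ⟨C, hC⟩ := base Ψ hΨ h0 hb
    exact ⟨C, hC⟩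
  | succ n ih =>
    have hΨ' : ContDiff ℝ (⊤ : ℕ∞) (deriv Ψ) := by
      have : ContDiff ℝ ((⊤ : ℕ∞) + 1) Ψ := by simpa using hΨ
      exact (contDiff_succ_iff_deriv.1 this).2.2
    have h1 : Sy n m (fun u => (fun x => deriv Ψ x - deriv Ψ 0) (b u)) :=
      ih hb.of_succ (fun x => deriv Ψ x - deriv Ψ 0)
        (hΨ'.sub contDiff_const) (by simp)
    have h2 : Sy n 0 (fun u => deriv Ψ (b u)) := by
      have := (h1.mono hm.le).add (Sy_const n (deriv Ψ 0))
      simpa using this
    have h3 := h2.mul hb.dv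
    rw [zero_add] at h3
    refine Sy.succ (base Ψ hΨ h0 (hb.of_le (by omega))) ?_ h3
    filter_upwards [hb.diff] with u hu
    exact ((hΨ.differentiable (by simp) (b u)).hasDerivAt).comp u hu.hasDerivAt

/-- reciprocals -/
theorem Sy.recip {n : ℕ} {f : ℝ → ℝ} (hf : Sy n 0 f) (c : ℝ) (hc : 0 < c)
    (hfc : ∀ᶠ u in atTop, c ≤ |f u|) : Sy n 0 (fun u => (f u)⁻¹) := by
  have base : ∃ C, ∀ᶠ u in atTop, |(f u)⁻¹| ≤ C * u ^ (0 : ℝ) := by
    refine ⟨c⁻¹, ?_⟩
    filter_upwards [hfc] with u hu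
    rw [abs_inv, Real.rpow_zero, mul_one]
    exact inv_anti₀ hc hu
  induction n with
  | zero => obtain ⟨C, hC⟩ := base; exact ⟨C, hC⟩
  | succ n ih =>
    have h1 := ih hf.of_succ
    have h2 := (h1.mul h1).mul hf.dv
    rw [add_zero, zero_add] at h2
    refine Sy.succ base ?_ (h2.neg)
    filter_upwards [hf.diff, hfc] with u hu h3
    have hne : f u ≠ 0 := by
      intro h; rw [h, abs_zero] at h3; linarith
    have h4 : HasDerivAt (fun u => (f u)⁻¹) (-deriv f u / f u ^ 2) u := hu.hasDerivAt.fun_inv hne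
    have h5 : -((f u)⁻¹ * (f u)⁻¹ * deriv f u) = -deriv f u / f u ^ 2 := by
      field_simp
    rw [h5]; exact h4

/-- inverse of a permutation near infinity -/
theorem Sy.perm_inv {n : ℕ} (F : Equiv.Perm ℝ) (hF : Sy n 0 (fun u => F u - u))
    (hmono : StrictMono F) : Sy n 0 (fun u => F⁻¹ u - u) := by
  have hcont : Continuous F := hmono.monotone.continuous_of_surjective F.surjective
  have hsymm : StrictMono (F⁻¹ : Equiv.Perm ℝ) := by
    intro a b hab
    by_contra h
    have := hmono.monotone (not_lt.1 h)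
    simp at this
    linarith
  have hcont' : Continuous (F⁻¹ : Equiv.Perm ℝ) :=
    hsymm.monotone.continuous_of_surjective (F⁻¹).surjective
  have htend : Tendsto (F⁻¹ : Equiv.Perm ℝ) atTop atTop := by
    refine hsymm.monotone.tendsto_atTop_atTop ?_
    intro b
    exact ⟨F b, by simp⟩
  have base : ∀ {n : ℕ}, Sy n 0 (fun u => F u - u) →
      ∃ C, ∀ᶠ u in atTop, |F⁻¹ u - u| ≤ C * u ^ (0 : ℝ) := by
    intro n hF
    obtain ⟨C, hC0, hC⟩ := hF.bound
    refine ⟨C, ?_⟩
    filter_upwards [htend.eventually hC] with u hu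
    simp only [Real.rpow_zero, mul_one] at hu ⊢
    rw [abs_sub_comm]
    simpa using hu
  induction n with
  | zero => obtain ⟨C, hC⟩ := base hF; exact ⟨C, hC⟩
  | succ n ih =>
    have h1 := ih hF.of_succ
    have hNL : NL n 1 (F⁻¹ : Equiv.Perm ℝ) := NL_of_sub le_rfl h1
    have hNF : NL (n + 1) 1 F := NL_of_sub le_rfl hF
    have h2 : Sy n (-1) (fun u => deriv F u - 1) := hNF.dv
    have h3 : Sy n (-1) (fun u => deriv F (F⁻¹ u) - 1) := h2.comp hNL
    have h4 : Sy n 0 (fun u => deriv F (F⁻¹ u)) := by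
      have := (h3.mono (show (-1 : ℝ) ≤ 0 by norm_num)).add (Sy_const n 1)
      simpa using this
    have hlow : ∀ᶠ u in atTop, (1 / 2 : ℝ) ≤ deriv F (F⁻¹ u) := by
      obtain ⟨C, hC0, hC⟩ := h3.bound
      filter_upwards [hC, eventually_ge_atTop (2 * C), eventually_gt_atTop 0] with u hu h5 h6
      rw [Real.rpow_neg_one] at hu
      have : C * u⁻¹ ≤ 1 / 2 := by
        rw [← div_eq_mul_inv, div_le_iff₀ h6]; linarith
      have := (abs_le.1 (hu.trans this)).1
      linarith
    have h5 := h4.recip (1 / 2) (by norm_num) (by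
      filter_upwards [hlow] with u hu
      rw [abs_of_nonneg (by linarith)]; exact hu)
    have h6 := (h3.neg).mul h5
    rw [add_zero] at h6
    rw [← zero_sub] at h6
    refine Sy.succ (base hF) ?_ h6
    filter_upwards [htend.eventually hNF.diff, hlow] with u hu h7
    have hd : HasDerivAt (F⁻¹ : Equiv.Perm ℝ) (deriv F (F⁻¹ u))⁻¹ u := by
      refine HasDerivAt.of_local_left_inverse (f := F) hcont'.continuousAt hu.hasDerivAt
        (by linarith) (Eventually.of_forall fun x => by simp)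
    have h8 : HasDerivAt (fun u => F⁻¹ u - u) ((deriv F (F⁻¹ u))⁻¹ - 1) u :=
      hd.fun_sub (hasDerivAt_id u)
    have hne : deriv F (F⁻¹ u) ≠ 0 := by linarith
    convert h8 using 1
    field_simp
    ring

end Pool.Agent.Germ
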